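import Mathlib
import Pool.Agent.Q60.MU.Alg

/-!
# Linear algebra: operators of order prime to the characteristic
-/

set_option autoImplicit false

namespace Pool.Agent.J4.H58.MUR

open Module

section

variable {k : Type} [Field k] {V : Type} [AddCommGroup V] [Module k V]

theorem sum_pow_sub (T : V →ₗ[k] V) (n : ℕ) (x : V) :
    (T ^ n) x - x = (T - 1) (∑ i ∈ Finset.range n, (T ^ i) x) := by
  induction n with
  | zero => simp
  | succ n ih =>
    rw [Finset.sum_range_succ, map_add, ← ih, pow_succ']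
    simp only [LinearMap.sub_apply, Module.End.mul_apply, Module.End.one_apply]
    abel

variable {T : V →ₗ[k] V} {e : ℕ}

theorem le_sup {V1 : Submodule k V} (he : (e : k) ≠ 0) (hT : T ^ e = 1)
    (hV : ∀ x ∈ V1, T x ∈ V1) : V1 ≤ V1.map (T - 1) ⊔ (V1 ⊓ LinearMap.ker (T - 1)) := by
  intro x hx
  have hpow : ∀ i : ℕ, (T ^ i) x ∈ V1 := by
    intro i
    induction i with
    | zero => simpa using hx
    | succ i ih =>
      rw [pow_succ', Module.End.mul_apply]
      exact hV _ ih
  set S : V := ∑ i ∈ Finset.range e, (T ^ i) x with hS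
  have hSV : S ∈ V1 := Submodule.sum_mem _ fun i _ => hpow i
  have hSk : S ∈ LinearMap.ker (T - 1) := by
    rw [LinearMap.mem_ker, hS, ← sum_pow_sub, hT]
    simp
  have h1 : (e : k) • x - S ∈ V1.map (T - 1) := by
    have h2 : (e : k) • x - S = ∑ i ∈ Finset.range e, (x - (T ^ i) x) := by
      rw [Finset.sum_sub_distrib, Finset.sum_const, Finset.card_range, hS, Nat.cast_smul_eq_nsmul]
    rw [h2]
    refine Submodule.sum_mem _ fun i _ => ?_
    have h3 : x - (T ^ i) x = (T - 1) (- ∑ l ∈ Finset.range i, (T ^ l) x) := by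
      rw [map_neg, ← sum_pow_sub]
      abel
    rw [h3]
    exact ⟨_, V1.neg_mem (Submodule.sum_mem _ fun l _ => hpow l), rfl⟩
  have h4 : x = (e : k)⁻¹ • ((e : k) • x - S) + (e : k)⁻¹ • S := by
    rw [← smul_add, sub_add_cancel, smul_smul, inv_mul_cancel₀ he, one_smul]
  rw [h4]
  exact Submodule.add_mem_sup (Submodule.smul_mem _ _ h1)
    (Submodule.smul_mem _ _ ⟨hSV, hSk⟩)

theorem disj (he : (e : k) ≠ 0) (hT : T ^ e = 1) {x : V} (hx : (T - 1) ((T - 1) x) = 0) :
    (T - 1) x = 0 := by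
  set y := (T - 1) x with hy
  have hTy : T y = y := by
    have h1 : T y - y = 0 := hx
    exact sub_eq_zero.1 h1
  have h1 : ∀ i : ℕ, (T ^ i) x = x + (i : k) • y := by
    intro i
    induction i with
    | zero => simp
    | succ i ih =>
      have h2 : T x = x + y := by
        rw [hy]
        simp
      rw [pow_succ', Module.End.mul_apply, ih, map_add, map_smul, hTy, h2]
      push_cast
      rw [add_smul, one_smul]
      abel
  have h2 := h1 e
  rw [hT, Module.End.one_apply] at h2
  have h3 : (e : k) • y = 0 := by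
    have h4 : x + (e : k) • y = x + 0 := by rw [add_zero]; exact h2.symm
    exact add_left_cancel h4
  exact (smul_eq_zero.1 h3).resolve_left he

variable [Module.Finite k V]

theorem finrank_split {V1 : Submodule k V} (he : (e : k) ≠ 0) (hT : T ^ e = 1)
    (hV : ∀ x ∈ V1, T x ∈ V1) :
    finrank k (V1.map (T - 1)) + finrank k (V1 ⊓ LinearMap.ker (T - 1) : Submodule k V) =
      finrank k V1 := by
  have h1 : V1.map (T - 1) ⊔ (V1 ⊓ LinearMap.ker (T - 1)) = V1 := by
    apply le_antisymm
    · refine sup_le ?_ inf_le_left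
      rintro _ ⟨x, hx, rfl⟩
      exact V1.sub_mem (hV x hx) hx
    · exact le_sup he hT hV
  have h2 : V1.map (T - 1) ⊓ (V1 ⊓ LinearMap.ker (T - 1)) = ⊥ := by
    rw [eq_bot_iff]
    rintro _ ⟨⟨x, hx, rfl⟩, -, h⟩
    exact (Submodule.mem_bot _).2 (disj he hT h)
  have h3 := Submodule.finrank_sup_add_finrank_inf_eq (V1.map (T - 1))
    (V1 ⊓ LinearMap.ker (T - 1))
  rw [h1, h2, finrank_bot, add_zero] at h3
  exact h3.symm

/-- The subspace attached to a step. -/
def stepX (T : V →ₗ[k] V) (V1 : Submodule k V) (j i : ℕ) : Submodule k V :=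
  V1.map (T ^ i - 1) ⊔ (V1 ⊓ LinearMap.ker (T ^ j - 1))

omit [Module.Finite k V] in
theorem pow_mem {V1 : Submodule k V} (hV : ∀ x ∈ V1, T x ∈ V1) (i : ℕ) :
    ∀ x ∈ V1, (T ^ i) x ∈ V1 := by
  intro x hx
  induction i with
  | zero => simpa using hx
  | succ i ih =>
    rw [pow_succ', Module.End.mul_apply]
    exact hV _ ih

theorem stepX_le {V1 : Submodule k V} (hV : ∀ x ∈ V1, T x ∈ V1) (j i : ℕ) :
    stepX T V1 j i ≤ V1 := by
  refine sup_le ?_ inf_le_left
  rintro _ ⟨x, hx, rfl⟩
  exact V1.sub_mem (pow_mem hV i x hx) hx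

omit [Module.Finite k V] in
theorem stepX_stable {V1 : Submodule k V} (hV : ∀ x ∈ V1, T x ∈ V1) (j i : ℕ) :
    ∀ x ∈ stepX T V1 j i, T x ∈ stepX T V1 j i := by
  intro x hx
  obtain ⟨_, ⟨a, ha, rfl⟩, b, ⟨hb1, hb2⟩, rfl⟩ := Submodule.mem_sup.1 hx
  rw [map_add]
  refine Submodule.add_mem_sup ⟨T a, hV a ha, ?_⟩ ⟨hV b hb1, ?_⟩
  · simp only [LinearMap.sub_apply, Module.End.one_apply, map_sub]
    rw [← Module.End.mul_apply, ← Module.End.mul_apply, (Commute.refl T).pow_left i |>.eq]
  · rw [SetLike.mem_coe, LinearMap.mem_ker] at hb2 ⊢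
    have h1 : (T ^ j - 1) (T b) = T ((T ^ j - 1) b) := by
      simp only [LinearMap.sub_apply, Module.End.one_apply, map_sub]
      rw [← Module.End.mul_apply, ← Module.End.mul_apply, (Commute.refl T).pow_left j |>.eq]
    rw [h1, hb2, map_zero]

theorem finrank_step {V1 : Submodule k V} (he : (e : k) ≠ 0) (hT : T ^ e = 1)
    (hV : ∀ x ∈ V1, T x ∈ V1) (j r : ℕ) :
    finrank k (V1.map (T ^ j - 1)) + finrank k (stepX T V1 j (j * r)) =
      finrank k (V1.map (T ^ (j * r) - 1)) + finrank k V1 := by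
  have hTj : ∀ i : ℕ, (T ^ i) ^ e = 1 := fun i => by
    rw [← pow_mul, mul_comm, pow_mul, hT, one_pow]
  have h1 := finrank_split he (hTj j) (pow_mem hV j)
  have h2 : V1.map (T ^ (j * r) - 1) ⊓ (V1 ⊓ LinearMap.ker (T ^ j - 1)) = ⊥ := by
    rw [eq_bot_iff]
    rintro _ ⟨⟨x, hx, rfl⟩, -, h⟩
    refine (Submodule.mem_bot _).2 (disj he (hTj (j * r)) ?_)
    rw [SetLike.mem_coe, LinearMap.mem_ker] at h
    set y := (T ^ (j * r) - 1) x with hy
    have h3 : (T ^ j) y = y := sub_eq_zero.1 h
    have h4 : ∀ l : ℕ, ((T ^ j) ^ l) y = y := by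
      intro l
      induction l with
      | zero => simp
      | succ l ih => rw [pow_succ', Module.End.mul_apply, ih, h3]
    have h5 := h4 r
    rw [← pow_mul] at h5
    show (T ^ (j * r)) y - y = 0
    rw [h5, sub_self]
  have h3 := Submodule.finrank_sup_add_finrank_inf_eq (V1.map (T ^ (j * r) - 1))
    (V1 ⊓ LinearMap.ker (T ^ j - 1))
  rw [h2, finrank_bot, add_zero] at h3
  unfold stepX
  rw [h3, ← h1]
  ring

/-- every vector of `V1` is, modulo `stepX`, in the image of `T ^ j - 1` -/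
theorem exists_step {V1 : Submodule k V} (he : (e : k) ≠ 0) (hT : T ^ e = 1)
    (hV : ∀ x ∈ V1, T x ∈ V1) (j i : ℕ) {x : V} (hx : x ∈ V1) :
    ∃ y ∈ V1, x - ((T ^ j) y - y) ∈ stepX T V1 j i := by
  have hTj : (T ^ j) ^ e = 1 := by
    rw [← pow_mul, mul_comm, pow_mul, hT, one_pow]
  obtain ⟨_, ⟨y, hy, rfl⟩, z, hz, h⟩ := Submodule.mem_sup.1 (le_sup he hTj (pow_mem hV j) hx)
  refine ⟨y, hy, ?_⟩
  rw [← h]
  have h1 : (T ^ j - 1) y + z - ((T ^ j) y - y) = z := by
    simp
  rw [h1]
  exact Submodule.mem_sup_right hz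

/-- the bound by induction over the prime factors -/
theorem finrank_le_of_steps {V1 : Submodule k V} (hT : T ^ e = 1) (he0 : e ≠ 0) {c : ℕ}
    (hstep : ∀ j r s : ℕ, r.Prime → j * r * s = e →
      finrank k (V1.map (T ^ j - 1)) ≤ finrank k (V1.map (T ^ (j * r) - 1)) + c) :
    finrank k (V1.map (T - 1)) ≤ e * c := by
  have key : ∀ s j : ℕ, j * s = e → finrank k (V1.map (T ^ j - 1)) ≤ s * c := by
    intro s
    induction s using Nat.strong_induction_on with
    | _ s ih =>
      intro j hj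
      by_cases hs : s = 1
      · rw [hs, mul_one] at hj
        rw [hj, hT, sub_self, Submodule.map_zero, finrank_bot]
        exact Nat.zero_le _
      · have hs0 : s ≠ 0 := by
          rintro rfl
          exact he0 (by rw [← hj, mul_zero])
        have hr := Nat.minFac_prime hs
        obtain ⟨t, ht⟩ := Nat.minFac_dvd s
        have ht0 : t ≠ 0 := by
          rintro rfl
          rw [mul_zero] at ht
          exact hs0 ht
        have hts : t < s := by
          conv_rhs => rw [ht]
          exact lt_mul_of_one_lt_left (Nat.pos_of_ne_zero ht0) hr.one_lt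
        have h1 := hstep j s.minFac t hr (by rw [mul_assoc, ← ht, hj])
        have h2 := ih t hts (j * s.minFac) (by rw [mul_assoc, ← ht, hj])
        calc finrank k (V1.map (T ^ j - 1)) ≤ t * c + c := by omega
          _ = (t + 1) * c := by ring
          _ ≤ s * c := Nat.mul_le_mul_right _ hts
  have h1 := key e 1 (one_mul e)
  rwa [pow_one] at h1

/-- from a subspace to the whole space -/
theorem finrank_map_le (T : V →ₗ[k] V) (V1 : Submodule k V) :
    finrank k (LinearMap.range T) ≤ finrank k (V1.map T) + finrank k (V ⧸ V1) := by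
  have h1 : (⊤ : Submodule k V).map T = LinearMap.range T := Submodule.map_top T
  -- the map `V → range T / T V1` factors through `V / V1`
  let f : (V ⧸ V1) →ₗ[k] (V ⧸ V1.map T) := V1.mapQ (V1.map T) T (fun x hx => ⟨x, hx, rfl⟩)
  have h2 : finrank k (LinearMap.range f) ≤ finrank k (V ⧸ V1) := LinearMap.finrank_range_le f
  have h3 : LinearMap.range f = (LinearMap.range T).map (V1.map T).mkQ := by
    apply le_antisymm
    · rintro _ ⟨x, rfl⟩
      obtain ⟨y, rfl⟩ := V1.mkQ_surjective x
      exact ⟨T y, ⟨y, rfl⟩, rfl⟩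
    · rintro _ ⟨_, ⟨y, rfl⟩, rfl⟩
      exact ⟨V1.mkQ y, rfl⟩
  have h4 : finrank k ((LinearMap.range T).map (V1.map T).mkQ) +
      finrank k (LinearMap.range T ⊓ V1.map T : Submodule k V) = finrank k (LinearMap.range T) := by
    have h5 := ((V1.map T).mkQ.domRestrict (LinearMap.range T)).finrank_range_add_finrank_ker
    rw [LinearMap.range_domRestrict] at h5
    rw [← h5]
    congr 1
    have h6 : (LinearMap.ker ((V1.map T).mkQ.domRestrict (LinearMap.range T))).map
        (LinearMap.range T).subtype = LinearMap.range T ⊓ V1.map T := by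
      ext x
      constructor
      · rintro ⟨y, hy, rfl⟩
        refine ⟨y.2, ?_⟩
        have h7 : (V1.map T).mkQ (y : V) = 0 := hy
        rwa [Submodule.mkQ_apply, Submodule.Quotient.mk_eq_zero] at h7
      · rintro ⟨hx1, hx2⟩
        refine ⟨⟨x, hx1⟩, ?_, rfl⟩
        show (V1.map T).mkQ x = 0
        rwa [Submodule.mkQ_apply, Submodule.Quotient.mk_eq_zero]
    rw [← h6]
    exact (LinearEquiv.finrank_eq (Submodule.equivMapOfInjective _
      (LinearMap.range T).injective_subtype _)).symm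
  have h5 : finrank k (LinearMap.range T ⊓ V1.map T : Submodule k V) ≤ finrank k (V1.map T) :=
    Submodule.finrank_mono inf_le_right
  rw [← h4, ← h3]
  omega

end

end Pool.Agent.J4.H58.MUR
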