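import Pool.Agent.J4.H58.MUR.Kras

/-!
# The auxiliary field
-/

set_option autoImplicit false

namespace Pool.Agent.J4.H58.MUR

open Pool.Agent.Q60.MU Polynomial IntermediateField NumberField
open scoped Pointwise

/-- an even polynomial with positive leading coefficient is bounded below -/
theorem bdd_below {P : ℝ[X]} (hP : P.Monic) (hd : 0 < P.natDegree) (he : Even P.natDegree) :
    ∃ B : ℕ, ∀ x : ℝ, 0 < P.eval x + B := by
  have hdeg : 0 < P.degree := natDegree_pos_iff_degree_pos.1 hd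
  have h1 : Filter.Tendsto (fun x => P.eval x) Filter.atTop Filter.atTop :=
    P.tendsto_atTop_of_leadingCoeff_nonneg hdeg (by rw [hP.leadingCoeff]; exact zero_le_one)
  have hnat : (P.comp (-X)).natDegree = P.natDegree := by
    rw [natDegree_comp, natDegree_neg, natDegree_X, mul_one]
  have h2 : Filter.Tendsto (fun x => (P.comp (-X)).eval x) Filter.atTop Filter.atTop := by
    refine (P.comp (-X)).tendsto_atTop_of_leadingCoeff_nonneg ?_ ?_
    · rw [← natDegree_pos_iff_degree_pos, hnat]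
      exact hd
    · rw [leadingCoeff_comp (by rw [natDegree_neg, natDegree_X]; exact one_ne_zero),
        leadingCoeff_neg, leadingCoeff_X, he.neg_one_pow, mul_one, hP.leadingCoeff]
      exact zero_le_one
  obtain ⟨R, hR⟩ := (Filter.tendsto_atTop.1 h1 0).exists_forall_of_atTop
  obtain ⟨R', hR'⟩ := (Filter.tendsto_atTop.1 h2 0).exists_forall_of_atTop
  obtain ⟨b, hb⟩ := (isCompact_Icc (a := -R') (b := R)).bddBelow_image (f := fun x => P.eval x)
    P.continuous.continuousOn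
  obtain ⟨B, hB⟩ := exists_nat_gt (max (-b) 0)
  refine ⟨B, fun x => ?_⟩
  have hB0 : (0 : ℝ) < B := (le_max_right _ _).trans_lt hB
  have hB1 : -b < B := (le_max_left _ _).trans_lt hB
  by_cases hx : R ≤ x
  · have := hR x hx
    linarith
  · by_cases hx' : x ≤ -R'
    · have h3 := hR' (-x) (by linarith)
      rw [eval_comp, eval_neg, eval_X, neg_neg] at h3
      linarith
    · have h3 : b ≤ P.eval x := hb ⟨x, ⟨by linarith, by linarith⟩, rfl⟩
      linarith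

/-- an unramified prime is not in the square of a prime ideal above it -/
theorem not_mem_sq {F : Type} [Field F] [NumberField F] {ℓ : ℕ} (hℓ : ℓ.Prime)
    (hd : ¬ (ℓ : ℤ) ∣ discr F) {P : Ideal (𝓞 F)} (hP : P.IsPrime) (hℓP : ((ℓ : ℤ) : 𝓞 F) ∈ P) :
    ((ℓ : ℤ) : 𝓞 F) ∉ P ^ 2 := by
  have hpr : Prime (ℓ : ℤ) := Nat.prime_iff_prime_int.1 hℓ
  have h1 := (not_dvd_discr_iff_forall_mem F (𝓞 F) hpr).1 hd P hP hℓP
  have hlo : P.LiesOver (Ideal.span {(ℓ : ℤ)}) :=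
    (Ideal.liesOver_span_iff hP.ne_top hpr).mpr hℓP
  intro h2
  have h3 : P.ramificationIdx ℤ = 1 := Ideal.ramificationIdx_eq_one P ℤ
  have hne : (Ideal.span {(ℓ : ℤ)}).map (algebraMap ℤ (𝓞 F)) ≠ ⊥ := by
    rw [Ideal.map_span, Set.image_singleton, Ne, Ideal.span_singleton_eq_bot]
    have : (ℓ : 𝓞 F) ≠ 0 := by exact_mod_cast hℓ.ne_zero
    simpa using this
  have h4 : (Ideal.span {(ℓ : ℤ)}).map (algebraMap ℤ (𝓞 F)) ≤ P ^ 2 := by
    rw [Ideal.map_span, Set.image_singleton, Ideal.span_singleton_le_iff_mem]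
    exact h2
  rw [Ideal.IsDedekindDomain.ramificationIdx_eq_multiplicity (Ideal.span {(ℓ : ℤ)}) P hne] at h3
  have h5 : FiniteMultiplicity P ((Ideal.span {(ℓ : ℤ)}).map (algebraMap ℤ (𝓞 F))) :=
    FiniteMultiplicity.of_not_isUnit (fun h => hP.ne_top (Ideal.isUnit_iff.1 h)) hne
  have h6 := (h5.pow_dvd_iff_le_multiplicity (k := 2)).1 (Ideal.dvd_iff_le.2 h4)
  omega

/-- **The auxiliary polynomial.** -/
theorem exists_poly (F : Type) [Field F] [NumberField F] {h : ℤ[X]} (hh : h.Monic)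
    (hpos : 0 < h.natDegree) (heven : Even h.natDegree) {Mo : ℤ} (hMo : Mo ≠ 0) :
    ∃ g : ℤ[X], (h + C Mo * g).Monic ∧ (h + C Mo * g).natDegree = h.natDegree ∧
      Irreducible ((h + C Mo * g).map (algebraMap ℤ F)) ∧ ∀ x : ℝ, 0 < aeval x (h + C Mo * g) := by
  classical
  set k := h.natDegree with hk
  obtain ⟨ℓ, hℓge, hℓ⟩ := Nat.exists_infinite_primes (Mo.natAbs + (discr F).natAbs + 1)
  have hpr : Prime (ℓ : ℤ) := Nat.prime_iff_prime_int.1 hℓ
  have hnd : ∀ z : ℤ, z ≠ 0 → z.natAbs < ℓ → ¬ (ℓ : ℤ) ∣ z := by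
    intro z hz hlt hdvd
    have h1 := Int.natAbs_dvd_natAbs.2 hdvd
    rw [Int.natAbs_natCast] at h1
    exact absurd (Nat.le_of_dvd (Int.natAbs_pos.2 hz) h1) (not_le.2 hlt)
  have hℓMo : ¬ (ℓ : ℤ) ∣ Mo := hnd Mo hMo (by omega)
  have hℓd : ¬ (ℓ : ℤ) ∣ discr F := hnd _ (discr_ne_zero F) (by omega)
  have hcop : IsCoprime Mo ((ℓ : ℤ) ^ 2) :=
    ((hpr.coprime_iff_not_dvd.2 hℓMo).symm).pow_right
  obtain ⟨u, v, huv⟩ := hcop
  set R1 : ℤ[X] := X ^ k + C (ℓ : ℤ) - h with hR1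
  have hR1d : R1.degree < k := by
    have h1 : R1 = C (ℓ : ℤ) - (h - X ^ k) := by rw [hR1]; ring
    rw [h1]
    refine (degree_sub_le _ _).trans_lt (max_lt ?_ ?_)
    · exact degree_C_le.trans_lt (by exact_mod_cast hpos)
    · have h2 : (h - X ^ k).degree < h.degree := by
        refine degree_sub_lt_left ?_ hh.ne_zero ?_
        · rw [degree_X_pow, degree_eq_natDegree hh.ne_zero]
        · rw [hh.leadingCoeff, leadingCoeff_X_pow]
      rwa [degree_eq_natDegree hh.ne_zero] at h2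
  have hf0eq : ∀ B : ℤ, h + C Mo * (C u * R1 + C ((ℓ : ℤ) ^ 2 * Mo * B)) =
      X ^ k + C (ℓ : ℤ) * (1 + C (ℓ : ℤ) * (C (Mo ^ 2 * B) - C v * R1)) := by
    intro B
    have h1 : C Mo * C u = 1 - C v * C ((ℓ : ℤ)) ^ 2 := by
      rw [← C_mul, ← C_pow, ← C_mul, ← C_1, ← C_sub]
      congr 1
      linear_combination huv
    have h2 : h = X ^ k + C (ℓ : ℤ) - R1 := by rw [hR1]; ring
    have h3 : C Mo * (C u * R1 + C ((ℓ : ℤ) ^ 2 * Mo * B)) =
        (C Mo * C u) * R1 + C (ℓ : ℤ) ^ 2 * C (Mo ^ 2 * B) := by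
      simp only [C_mul, C_pow]
      ring
    rw [h3, h1]
    conv_lhs => rw [h2]
    ring
  have hdeg : ∀ B : ℤ, (C (ℓ : ℤ) * (1 + C (ℓ : ℤ) * (C (Mo ^ 2 * B) - C v * R1))).degree < k := by
    intro B
    have hC : ∀ (c : ℤ) (P : ℤ[X]), P.degree < k → (C c * P).degree < k := fun c P hP => by
      refine ((degree_mul_le _ _).trans (add_le_add degree_C_le le_rfl)).trans_lt ?_
      rwa [zero_add]
    have hC0 : ∀ c : ℤ, (C c : ℤ[X]).degree < k := fun c =>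
      degree_C_le.trans_lt (by exact_mod_cast hpos)
    refine hC _ _ ((degree_add_le _ _).trans_lt (max_lt ?_ (hC _ _ ?_)))
    · rw [← C_1]
      exact hC0 1
    · exact (degree_sub_le _ _).trans_lt (max_lt (hC0 _) (hC _ _ hR1d))
  have hmon : ∀ B : ℤ, (h + C Mo * (C u * R1 + C ((ℓ : ℤ) ^ 2 * Mo * B))).Monic := fun B => by
    rw [hf0eq]
    exact monic_X_pow_add (hdeg B)
  have hnat : ∀ B : ℤ, (h + C Mo * (C u * R1 + C ((ℓ : ℤ) ^ 2 * Mo * B))).natDegree = k := fun B => by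
    rw [hf0eq]
    rw [natDegree_add_eq_left_of_degree_lt (by
      rw [degree_X_pow]
      exact hdeg B), natDegree_X_pow]
  -- positivity
  set f0 : ℤ[X] := h + C Mo * (C u * R1 + C ((ℓ : ℤ) ^ 2 * Mo * 0)) with hf0
  obtain ⟨B, hB⟩ := bdd_below (P := f0.map (algebraMap ℤ ℝ)) ((hmon 0).map _) (by
    rw [(hmon 0).natDegree_map, hnat 0]
    exact hpos) (by
    rw [(hmon 0).natDegree_map, hnat 0]
    exact heven)
  refine ⟨C u * R1 + C ((ℓ : ℤ) ^ 2 * Mo * B), hmon B, hnat B, ?_, fun x => ?_⟩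
  · -- Eisenstein
    have hmax : (Ideal.span {(ℓ : ℤ)} : Ideal ℤ).IsMaximal :=
      PrincipalIdealRing.isMaximal_of_irreducible hpr.irreducible
    obtain ⟨P, hPm, hPl⟩ := Ideal.exists_maximal_ideal_liesOver_of_isIntegral (S := 𝓞 F)
      (Ideal.span {(ℓ : ℤ)} : Ideal ℤ)
    have hPp : P.IsPrime := hPm.isPrime
    have hℓP : ((ℓ : ℤ) : 𝓞 F) ∈ P := by
      have h1 : (ℓ : ℤ) ∈ P.under ℤ := by
        rw [← hPl.over]
        exact Ideal.mem_span_singleton_self _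
      exact h1
    have hsq := not_mem_sq hℓ hℓd hPp hℓP
    set f := h + C Mo * (C u * R1 + C ((ℓ : ℤ) ^ 2 * Mo * B)) with hf
    have hfm : (f.map (algebraMap ℤ (𝓞 F))).Monic := (hmon B).map _
    have hfn : (f.map (algebraMap ℤ (𝓞 F))).natDegree = k := by
      rw [(hmon B).natDegree_map, hnat B]
    have hcoe : ∀ i < k, f.coeff i = (ℓ : ℤ) *
        (1 + C (ℓ : ℤ) * (C (Mo ^ 2 * (B : ℤ)) - C v * R1)).coeff i := by
      intro i hi
      rw [hf, hf0eq, coeff_add, coeff_X_pow, if_neg (by omega), zero_add, coeff_C_mul]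
    have heis : (f.map (algebraMap ℤ (𝓞 F))).IsEisensteinAt P := by
      refine ⟨?_, ?_, ?_⟩
      · rw [hfm.leadingCoeff]
        exact fun h1 => hPp.ne_top ((Ideal.eq_top_iff_one _).2 h1)
      · intro i hi
        rw [hfn] at hi
        rw [coeff_map, hcoe i hi, map_mul]
        exact P.mul_mem_right _ hℓP
      · rw [coeff_map, hcoe 0 hpos]
        intro h1
        apply hsq
        have h2 : (1 + C (ℓ : ℤ) * (C (Mo ^ 2 * (B : ℤ)) - C v * R1)).coeff 0 =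
            1 + (ℓ : ℤ) * (C (Mo ^ 2 * (B : ℤ)) - C v * R1).coeff 0 := by
          rw [coeff_add, coeff_one_zero, coeff_C_mul]
        rw [h2] at h1
        have h3 : ((ℓ : ℤ) : 𝓞 F) = algebraMap ℤ (𝓞 F) ((ℓ : ℤ) *
            (1 + (ℓ : ℤ) * (C (Mo ^ 2 * (B : ℤ)) - C v * R1).coeff 0)) -
            ((ℓ : ℤ) : 𝓞 F) ^ 2 * algebraMap ℤ (𝓞 F) ((C (Mo ^ 2 * (B : ℤ)) - C v * R1).coeff 0) := by
          simp only [map_mul, map_add, map_one]
          have h4 : algebraMap ℤ (𝓞 F) (ℓ : ℤ) = ((ℓ : ℤ) : 𝓞 F) := rfl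
          rw [h4]
          ring
        rw [h3]
        exact Ideal.sub_mem _ h1 (Ideal.mul_mem_right _ _ (Ideal.pow_mem_pow hℓP 2))
    have hirr := heis.irreducible hPp hfm.isPrimitive (by rw [hfn]; exact hpos)
    have h1 := (hfm.irreducible_iff_irreducible_map_fraction_map (K := F)).1 hirr
    rw [Polynomial.map_map] at h1
    exact h1
  · have h1 := hB x
    have h2 : aeval x (h + C Mo * (C u * R1 + C ((ℓ : ℤ) ^ 2 * Mo * (B : ℤ)))) =
        (f0.map (algebraMap ℤ ℝ)).eval x + ((Mo ^ 2 * (ℓ : ℤ) ^ 2 : ℤ) : ℝ) * B := by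
      have h3 : h + C Mo * (C u * R1 + C ((ℓ : ℤ) ^ 2 * Mo * (B : ℤ))) =
          f0 + C (Mo ^ 2 * (ℓ : ℤ) ^ 2 * (B : ℤ)) := by
        rw [hf0]
        simp only [mul_zero, C_0, add_zero, C_mul, C_pow]
        ring
      rw [h3, map_add, aeval_C, eval_map, aeval_def]
      congr 1
      push_cast
      simp
    rw [h2]
    have h3 : (1 : ℤ) ≤ Mo ^ 2 * (ℓ : ℤ) ^ 2 := by
      have h4 : Mo ^ 2 * (ℓ : ℤ) ^ 2 ≠ 0 := by
        have : (ℓ : ℤ) ≠ 0 := hpr.ne_zero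
        positivity
      have h5 : 0 ≤ Mo ^ 2 * (ℓ : ℤ) ^ 2 := by positivity
      omega
    have h4 : (1 : ℝ) ≤ ((Mo ^ 2 * (ℓ : ℤ) ^ 2 : ℤ) : ℝ) := by exact_mod_cast h3
    have h5 : (B : ℝ) ≤ ((Mo ^ 2 * (ℓ : ℤ) ^ 2 : ℤ) : ℝ) * B := by
      have := mul_le_mul_of_nonneg_right h4 (Nat.cast_nonneg B : (0 : ℝ) ≤ B)
      rwa [one_mul] at this
    linarith

end Pool.Agent.J4.H58.MUR
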