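import Pool.Agent.J4.H58.MUR.Base
import Pool.Agent.Q60.MU.Fields

/-!
# The auxiliary field: existence
-/

set_option autoImplicit false

namespace Pool.Agent.J4.H58.MUR

open Pool.Agent.Q60.MU Polynomial IntermediateField NumberField
open scoped Pointwise

/-- a primitive integral element, nonzero -/
theorem exists_prim (N : IntermediateField ℚ Qb) [FiniteDimensional ℚ N] :
    ∃ θ : Qb, θ ≠ 0 ∧ IsIntegral ℤ θ ∧ ∀ σ : Gal(Qb/ℚ), σ θ = θ → σ ∈ N.fixingSubgroup := by
  have halg : ∀ x : Qb, IsAlgebraic ℤ x := fun x =>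
    (IsFractionRing.isAlgebraic_iff ℤ ℚ Qb).2 ((AlgebraicClosure.isAlgebraic ℚ).isAlgebraic x)
  obtain ⟨α, hα⟩ := Field.exists_primitive_element ℚ N
  obtain ⟨y, hy0, hyi⟩ := (halg (α : Qb)).exists_integral_multiple
  set β : Qb := y • (α : Qb) with hβ
  have hσ : ∀ σ : Gal(Qb/ℚ), σ β = β → σ ∈ N.fixingSubgroup := by
    intro σ h
    have h1 : σ (α : Qb) = α := by
      rw [hβ, map_zsmul] at h
      exact smul_right_injective _ hy0 h
    rw [IntermediateField.mem_fixingSubgroup_iff]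
    intro x hx
    have h2 : (⟨x, hx⟩ : N) ∈ IntermediateField.adjoin ℚ {α} := by
      rw [hα]
      exact IntermediateField.mem_top
    obtain ⟨r, s, hrs⟩ := (IntermediateField.mem_adjoin_simple_iff ℚ _).1 h2
    have h3 : x = aeval (α : Qb) r / aeval (α : Qb) s := by
      have h4 := congrArg N.val hrs
      rw [map_div₀, ← aeval_algHom_apply, ← aeval_algHom_apply] at h4
      exact h4
    have h4 : ∀ q : ℚ[X], σ (aeval (α : Qb) q) = aeval (α : Qb) q := by
      intro q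
      have h5 := aeval_algHom_apply (σ : Qb →ₐ[ℚ] Qb) (α : Qb) q
      have h6 : (σ : Qb →ₐ[ℚ] Qb) (α : Qb) = α := h1
      rw [h6] at h5
      exact h5.symm
    rw [h3, map_div₀, h4, h4]
  by_cases h0 : β = 0
  · refine ⟨1, one_ne_zero, isIntegral_one, fun σ _ => hσ σ ?_⟩
    rw [h0, map_zero]
  · exact ⟨β, h0, hyi, hσ⟩

/-- an integer divisible by finitely many nonzero algebraic numbers -/
theorem exists_mult (S : Finset Qb) (D : Qb → Qb) (hD : ∀ γ ∈ S, D γ ≠ 0) :
    ∃ d : ℤ, d ≠ 0 ∧ ∀ γ ∈ S, ∃ w, IsIntegral ℤ w ∧ (d : Qb) = D γ * w := by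
  classical
  have halg : ∀ x : Qb, IsAlgebraic ℤ x := fun x =>
    (IsFractionRing.isAlgebraic_iff ℤ ℚ Qb).2 ((AlgebraicClosure.isAlgebraic ℚ).isAlgebraic x)
  induction S using Finset.induction_on with
  | empty => exact ⟨1, one_ne_zero, by simp⟩
  | insert a S ha ih =>
    obtain ⟨d, hd0, hd⟩ := ih fun γ hγ => hD γ (Finset.mem_insert_of_mem hγ)
    obtain ⟨y, hy0, hyi⟩ := (halg (D a)⁻¹).exists_integral_multiple
    have hDa := hD a (Finset.mem_insert_self _ _)
    refine ⟨d * y, mul_ne_zero hd0 hy0, fun γ hγ => ?_⟩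
    rcases Finset.mem_insert.1 hγ with rfl | h
    · refine ⟨d • (y • (D γ)⁻¹), hyi.zsmul d, ?_⟩
      rw [zsmul_eq_mul, zsmul_eq_mul]
      push_cast
      field_simp
    · obtain ⟨w, hw, hdw⟩ := hd γ h
      refine ⟨y • w, hw.zsmul y, ?_⟩
      rw [zsmul_eq_mul]
      push_cast
      rw [hdw]
      ring

/-- **The auxiliary field.** -/
theorem exists_base (N : IntermediateField ℚ Qb) [FiniteDimensional ℚ N] [hNg : IsGalois ℚ N]
    {q : ℕ} (hq : q ≠ 0) :
    ∃ K' : IntermediateField ℚ Qb, FiniteDimensional ℚ K' ∧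
      (∀ φ : K' →+* ℂ, ¬ ComplexEmbedding.IsReal φ) ∧
      (∀ g : Gal(Qb/ℚ), ∃ k ∈ N.fixingSubgroup, ∃ a ∈ K'.fixingSubgroup, g = k * a) ∧
      (∀ A : ValuationSubring Qb, (q : Qb) ∈ A.nonunits → ∀ σ ∈ K'.fixingSubgroup,
        σ • A = A → σ ∈ N.fixingSubgroup) ∧
      ∀ A, inertia A ⊓ K'.fixingSubgroup ≤ N.fixingSubgroup := by
  classical
  have hNn : N.fixingSubgroup.Normal := (InfiniteGalois.normal_iff_isGalois N).2 hNg
  obtain ⟨c, hc0, hc⟩ := exists_bad N
  obtain ⟨θ, hθ0, hθi, hθ⟩ := exists_prim N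
  -- the polynomial
  set h0 : ℤ[X] := minpoly ℤ θ with hh0
  have hh0m : h0.Monic := minpoly.monic hθi
  have hh0Q : h0.map (algebraMap ℤ ℚ) = minpoly ℚ θ :=
    (minpoly.isIntegrallyClosed_eq_field_fractions' ℚ hθi).symm
  set h : ℤ[X] := expand ℤ 2 h0 with hh
  have hhm : h.Monic := hh0m.expand (by norm_num)
  have hhn : h.natDegree = h0.natDegree * 2 := natDegree_expand 2 h0
  have hh0n : 0 < h0.natDegree := minpoly.natDegree_pos hθi
  have hev : ∀ γ : Qb, aeval γ h = aeval (γ ^ 2) h0 := fun γ => expand_aeval 2 h0 γ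
  have hconj : ∀ γ : Qb, aeval γ h = 0 → ∃ τ : Gal(Qb/ℚ), γ ^ 2 = τ θ := by
    intro γ hγ
    rw [hev] at hγ
    have h1 : aeval (γ ^ 2) (minpoly ℚ θ) = 0 := by
      rw [← hh0Q, aeval_map_algebraMap]
      exact hγ
    have h2 : minpoly ℚ θ = minpoly ℚ (γ ^ 2) :=
      minpoly.eq_of_irreducible_of_monic (minpoly.irreducible hθi.tower_top) h1
        (minpoly.monic hθi.tower_top)
    obtain ⟨τ, hτ⟩ := (isConjRoot_iff_exists_algEquiv (K := ℚ) (x := γ ^ 2) (y := θ)).1 h2.symm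
    exact ⟨τ, hτ.symm⟩
  have hfix : ∀ γ : Qb, aeval γ h = 0 → ∀ σ : Gal(Qb/ℚ), σ γ = γ → σ ∈ N.fixingSubgroup := by
    intro γ hγ σ hσ
    obtain ⟨τ, hτ⟩ := hconj γ hγ
    have h1 : (τ⁻¹ * σ * τ) θ = θ := by
      have h2 : σ (τ θ) = τ θ := by
        rw [← hτ, map_pow, hσ]
      rw [AlgEquiv.mul_apply, AlgEquiv.mul_apply, h2, ← AlgEquiv.mul_apply, inv_mul_cancel,
        AlgEquiv.one_apply]
    have h3 := hNn.conj_mem _ (hθ _ h1) τ
    have h4 : τ * (τ⁻¹ * σ * τ) * τ⁻¹ = σ := by group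
    rwa [h4] at h3
  have hder : ∀ γ : Qb, aeval γ h = 0 → aeval γ (derivative h) ≠ 0 := by
    intro γ hγ
    have h1 : aeval γ (derivative h) = aeval (γ ^ 2) (derivative h0) * (2 * γ) := by
      rw [hh, derivative_expand, map_mul, expand_aeval, map_mul, map_natCast, map_pow, aeval_X]
      norm_num
    obtain ⟨τ, hτ⟩ := hconj γ hγ
    rw [hev] at hγ
    rw [h1]
    refine mul_ne_zero ?_ (mul_ne_zero two_ne_zero ?_)
    · have h2 : aeval (γ ^ 2) (derivative h0) = aeval (γ ^ 2) (derivative (minpoly ℚ θ)) := by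
        rw [← hh0Q, derivative_map, aeval_map_algebraMap]
      have h3 : aeval (γ ^ 2) (minpoly ℚ θ) = 0 := by
        rw [← hh0Q, aeval_map_algebraMap]
        exact hγ
      rw [h2]
      exact (minpoly.irreducible hθi.tower_top).separable.aeval_derivative_ne_zero h3
    · rintro rfl
      apply hθ0
      apply τ.injective
      rw [← hτ, map_zero]
      norm_num
  -- the constant
  obtain ⟨d, hd0, hd⟩ := exists_mult ((h.map (algebraMap ℤ Qb)).roots.toFinset)
    (fun γ => aeval γ (derivative h)) (by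
      intro γ hγ
      rw [Multiset.mem_toFinset, mem_roots (hhm.map _).ne_zero, IsRoot.def, eval_map,
        ← aeval_def] at hγ
      exact hder γ hγ)
  have hd' : ∀ γ : Qb, aeval γ h = 0 → ∃ w, IsIntegral ℤ w ∧
      (d : Qb) = aeval γ (derivative h) * w := by
    intro γ hγ
    apply hd
    rw [Multiset.mem_toFinset, mem_roots (hhm.map _).ne_zero, IsRoot.def, eval_map, ← aeval_def]
    exact hγ
  set M : ℤ := ((c * q : ℕ) : ℤ) with hM
  have hM0 : M ≠ 0 := by
    rw [hM]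
    exact_mod_cast mul_ne_zero hc0 hq
  have hMo : M * d ^ h.natDegree ≠ 0 := mul_ne_zero hM0 (pow_ne_zero _ hd0)
  have hnf : NumberField N := ⟨⟩
  obtain ⟨g, hfm, hfn, hfi, hfp⟩ := exists_poly N hhm (by rw [hhn]; omega)
    (by rw [hhn]; exact even_two.mul_left _) hMo
  set f := h + C (M * d ^ h.natDegree) * g with hf
  obtain ⟨β, hβ⟩ := IsAlgClosed.exists_aeval_eq_zero Qb f (by
    rw [degree_eq_natDegree hfm.ne_zero, hfn, hhn]
    have : h0.natDegree * 2 ≠ 0 := by omega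
    exact_mod_cast this)
  have hβi : IsIntegral ℤ β := ⟨f, hfm, by rw [← aeval_def]; exact hβ⟩
  have hfixβ : ∀ σ : Gal(Qb/ℚ), σ ∈ (ℚ⟮β⟯).fixingSubgroup → σ β = β := fun σ hσ =>
    (mem_fixingSubgroup_iff _ _).1 hσ β (mem_adjoin_simple_self ℚ β)
  have hmain : ∀ A : ValuationSubring Qb, (M : Qb) ∈ A.nonunits → ∀ σ ∈ (ℚ⟮β⟯).fixingSubgroup,
      σ • A = A → σ ∈ N.fixingSubgroup := by
    intro A hA σ hσ hσA
    obtain ⟨γ, hγ, hσγ⟩ := krasner hhm hd0 hA hd' hf hβ hβi hσA (hfixβ σ hσ)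
    exact hfix γ hγ σ hσγ
  refine ⟨ℚ⟮β⟯, adjoin.finiteDimensional hβi.tower_top, ?_, ?_, ?_, ?_⟩
  · intro φ hφ
    set β' : ℚ⟮β⟯ := ⟨β, mem_adjoin_simple_self ℚ β⟩ with hβ'
    have h1 : aeval (φ β') f = 0 := by
      have h2 : aeval β' f = 0 := by
        apply Subtype.ext
        have h3 := aeval_algHom_apply ((ℚ⟮β⟯).val.restrictScalars ℤ) β' f
        show ((aeval β' f : ℚ⟮β⟯) : Qb) = 0
        exact h3.symm.trans hβ
      have h3 := aeval_algHom_apply (φ.toIntAlgHom) β' f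
      rw [h2, map_zero] at h3
      exact h3
    have h2 : ((φ β').re : ℂ) = φ β' := by
      rw [← Complex.conj_eq_iff_re]
      have h3 := RingHom.congr_fun hφ β'
      exact h3
    rw [← h2] at h1
    have h3 : aeval (((φ β').re : ℝ) : ℂ) f = ((aeval (φ β').re f : ℝ) : ℂ) := by
      have h4 := aeval_algebraMap_apply ℂ (φ β').re f
      exact h4
    rw [h3] at h1
    have h4 := hfp (φ β').re
    rw [Complex.ofReal_eq_zero] at h1
    rw [h1] at h4
    exact lt_irrefl _ h4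
  · intro g'
    have hgβ : aeval (g' β) f = 0 := by
      have h1 := aeval_algHom_apply ((g' : Qb →ₐ[ℚ] Qb).restrictScalars ℤ) β f
      rw [hβ, map_zero] at h1
      exact h1
    have hmp : ∀ x : Qb, aeval x f = 0 → minpoly N x = f.map (algebraMap ℤ N) := by
      intro x hx
      refine (minpoly.eq_of_irreducible_of_monic hfi ?_ (hfm.map _)).symm
      rw [aeval_map_algebraMap]
      exact hx
    have hconj' : IsConjRoot N β (g' β) := by
      show minpoly N β = minpoly N (g' β)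
      rw [hmp β hβ, hmp _ hgβ]
    obtain ⟨τ, hτ⟩ := (isConjRoot_iff_exists_algEquiv (K := N) (x := β) (y := g' β)).1 hconj'
    -- `β = τ (g' β)`
    set τ' : Gal(Qb/ℚ) := τ.restrictScalars ℚ with hτ'
    have hτN : τ' ∈ N.fixingSubgroup := by
      rw [IntermediateField.mem_fixingSubgroup_iff]
      intro x hx
      exact τ.commutes (⟨x, hx⟩ : N)
    refine ⟨τ'⁻¹, inv_mem hτN, τ' * g', ?_, by rw [inv_mul_cancel_left]⟩
    rw [IntermediateField.mem_fixingSubgroup_iff]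
    have h1 : (τ' * g') β = β := hτ
    intro x hx
    have h2 : ℚ⟮β⟯ ≤ fixedField (Subgroup.zpowers (τ' * g')) := by
      rw [adjoin_simple_le_iff, mem_fixedField_iff]
      have h3 : Subgroup.zpowers (τ' * g') ≤ MulAction.stabilizer Gal(Qb/ℚ) β := by
        rw [Subgroup.zpowers_le]
        exact h1
      exact fun f hf => h3 hf
    exact (mem_fixedField_iff _ _).1 (h2 hx) _ (Subgroup.mem_zpowers _)
  · intro A hA
    apply hmain A
    rw [hM]
    push_cast
    rw [mul_comm]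
    exact mul_nonunits hA (natCast_mem A c)
  · rintro A σ ⟨hσ, hσK⟩
    by_contra hcon
    have h1 := hc A σ hσ hcon
    apply hcon
    refine hmain A ?_ σ hσK hσ.1
    rw [hM]
    push_cast
    exact mul_nonunits h1 (natCast_mem A q)

end Pool.Agent.J4.H58.MUR
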