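import Pool.Agent.J4.H58.MUR.Base

/-!
# Polynomials with real roots only
-/

set_option autoImplicit false

namespace Pool.Agent.J4.H58.MUR

open Polynomial Finset

theorem prod_neg {k j : ℕ} (hj : j < k) :
    (∏ i ∈ range k, ((j : ℝ) - i - 1 / 2)) * (∏ i ∈ range k, (((j + 1 : ℕ) : ℝ) - i - 1 / 2)) < 0 := by
  rw [← prod_mul_distrib, ← mul_prod_erase _ _ (mem_range.2 hj)]
  refine mul_neg_of_neg_of_pos ?_ (prod_pos fun i hi => ?_)
  · push_cast
    norm_num
  · have hij : i ≠ j := ne_of_mem_erase hi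
    have h1 : ((j : ℝ) - i - 1 / 2) * (((j + 1 : ℕ) : ℝ) - i - 1 / 2) =
        ((j : ℝ) - i) ^ 2 - 1 / 4 := by
      push_cast
      ring
    have h2 : (1 : ℝ) ≤ ((j : ℝ) - i) ^ 2 := by
      have h3 : (1 : ℤ) ≤ ((j : ℤ) - i) ^ 2 := by
        have h4 : ((j : ℤ) - i) ≠ 0 := sub_ne_zero.2 (by exact_mod_cast hij.symm)
        have h5 := Int.one_le_abs h4
        nlinarith [sq_abs ((j : ℤ) - i)]
      exact_mod_cast h3
    rw [h1]
    linarith

/-- many real roots -/
theorem exists_roots {k : ℕ} (r : ℝ[X]) (hr : r.degree < k) :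
    ∃ T0 : ℝ, ∀ T ≥ T0, ∃ x : ℕ → ℝ, (∀ i j, i < j → j < k → x i < x j) ∧
      ∀ j < k, (∏ i ∈ range k, (X - C ((i : ℝ) * T)) + r).eval (x j) = 0 := by
  set q : ℕ → ℝ := fun j => ∏ i ∈ range k, ((j : ℝ) - i - 1 / 2) with hq
  have hqq : ∀ j < k, q j * q (j + 1) < 0 := fun j hj => prod_neg hj
  have hq0 : ∀ j ≤ k, k ≠ 0 → q j ≠ 0 := by
    intro j hj hk
    rcases Nat.lt_or_ge j k with h | h
    · intro h0
      have := hqq j h
      rw [h0, zero_mul] at this
      exact lt_irrefl _ this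
    · have hjk : j = k := le_antisymm hj h
      obtain ⟨m, rfl⟩ := Nat.exists_eq_succ_of_ne_zero hk
      intro h0
      have := hqq m (Nat.lt_succ_self m)
      rw [hjk] at h0
      have h0' : q (m + 1) = 0 := h0
      rw [h0', mul_zero] at this
      exact lt_irrefl _ this
  have hev : ∀ j : ℕ, ∀ᶠ T : ℝ in Filter.atTop, q j ≠ 0 →
      0 < q j * (∏ i ∈ range k, (X - C ((i : ℝ) * T)) + r).eval (((j : ℝ) - 1 / 2) * T) := by
    intro j
    set P : ℝ[X] := r.comp (C ((j : ℝ) - 1 / 2) * X) with hP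
    have hPd : P.degree < (X ^ k : ℝ[X]).degree := by
      rw [degree_X_pow]
      by_cases hr0 : r = 0
      · rw [hP, hr0, zero_comp, degree_zero]
        exact WithBot.bot_lt_coe _
      · have h1 : P.natDegree ≤ r.natDegree := by
          refine natDegree_comp_le.trans ?_
          refine (Nat.mul_le_mul_left _ ((natDegree_C_mul_le _ _).trans natDegree_X_le)).trans ?_
          rw [mul_one]
        refine lt_of_le_of_lt degree_le_natDegree ?_
        rw [degree_eq_natDegree hr0] at hr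
        have h2 : r.natDegree < k := by exact_mod_cast hr
        exact_mod_cast lt_of_le_of_lt h1 h2
    have h1 := div_tendsto_atTop_zero_of_degree_lt P (X ^ k) hPd
    by_cases hqj : q j = 0
    · exact Filter.Eventually.of_forall fun T h => absurd hqj h
    have h2 : ∀ᶠ T : ℝ in Filter.atTop, |P.eval T / (X ^ k : ℝ[X]).eval T| < |q j| := by
      have h3 := (tendsto_zero_iff_abs_tendsto_zero _).1 h1
      exact (h3.eventually (gt_mem_nhds (abs_pos.2 hqj)))
    filter_upwards [h2, Filter.eventually_gt_atTop (0 : ℝ)] with T hT hT0 _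
    rw [eval_pow, eval_X] at hT
    have hTk : 0 < T ^ k := pow_pos hT0 k
    have h3 : (∏ i ∈ range k, (X - C ((i : ℝ) * T)) + r).eval (((j : ℝ) - 1 / 2) * T) =
        T ^ k * (q j + P.eval T / T ^ k) := by
      rw [eval_add, eval_prod, mul_add, mul_div_cancel₀ _ hTk.ne', hP, eval_comp, eval_mul, eval_C,
        eval_X]
      congr 1
      rw [hq, ← Finset.card_range k, ← Finset.prod_const, Finset.card_range, ← prod_mul_distrib]
      refine prod_congr rfl fun i _ => ?_
      rw [eval_sub, eval_X, eval_C]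
      ring
    rw [h3]
    have h4 : 0 < q j * (q j + P.eval T / T ^ k) := by
      have h5 : |q j * (P.eval T / T ^ k)| < q j * q j := by
        rw [abs_mul, ← abs_mul_abs_self (q j)]
        exact mul_lt_mul_of_pos_left hT (abs_pos.2 hqj)
      have h6 := neg_abs_le (q j * (P.eval T / T ^ k))
      rw [mul_add]
      linarith
    have h5 : q j * (T ^ k * (q j + P.eval T / T ^ k)) = T ^ k * (q j * (q j + P.eval T / T ^ k)) := by
      ring
    rw [h5]
    exact mul_pos hTk h4
  have hall : ∀ᶠ T : ℝ in Filter.atTop, 0 < T ∧ ∀ j ∈ range (k + 1), q j ≠ 0 →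
      0 < q j * (∏ i ∈ range k, (X - C ((i : ℝ) * T)) + r).eval (((j : ℝ) - 1 / 2) * T) :=
    (Filter.eventually_gt_atTop (0 : ℝ)).and ((Filter.eventually_all_finset _).2 fun j _ => hev j)
  obtain ⟨T0, hT0⟩ := Filter.eventually_atTop.1 hall
  refine ⟨T0, fun T hT => ?_⟩
  obtain ⟨hTpos, hT1⟩ := hT0 T hT
  set F : ℝ → ℝ := fun y => (∏ i ∈ range k, (X - C ((i : ℝ) * T)) + r).eval y with hF
  have hFc : Continuous F := Polynomial.continuous _
  have hroot : ∀ j, ∃ y, j < k → F y = 0 ∧ ((j : ℝ) - 1 / 2) * T < y ∧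
      y < (((j + 1 : ℕ) : ℝ) - 1 / 2) * T := by
    intro j
    by_cases hj : j < k
    · have hk : k ≠ 0 := by omega
      have h1 := hT1 j (mem_range.2 (by omega)) (hq0 j hj.le hk)
      have h2 := hT1 (j + 1) (mem_range.2 (by omega)) (hq0 (j + 1) hj hk)
      have h3 := hqq j hj
      set a := ((j : ℝ) - 1 / 2) * T with ha
      set b := (((j + 1 : ℕ) : ℝ) - 1 / 2) * T with hb
      have hab : a ≤ b := by
        rw [ha, hb]
        push_cast
        nlinarith
      have h4 : F a * F b < 0 := by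
        have h5 : 0 < (q j * F a) * (q (j + 1) * F b) := mul_pos h1 h2
        have h6 : (q j * F a) * (q (j + 1) * F b) = (q j * q (j + 1)) * (F a * F b) := by ring
        rw [h6] at h5
        by_contra h7
        rw [not_lt] at h7
        exact absurd h5 (not_lt.2 (mul_nonpos_of_nonpos_of_nonneg h3.le h7))
      have h5 : ∃ y ∈ Set.Icc a b, F y = 0 := by
        rcases mul_neg_iff.1 h4 with ⟨h6, h7⟩ | ⟨h6, h7⟩
        · exact intermediate_value_Icc' hab hFc.continuousOn ⟨h7.le, h6.le⟩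
        · exact intermediate_value_Icc hab hFc.continuousOn ⟨h6.le, h7.le⟩
      obtain ⟨y, hy, hy0⟩ := h5
      refine ⟨y, fun _ => ⟨hy0, lt_of_le_of_ne hy.1 ?_, lt_of_le_of_ne hy.2 ?_⟩⟩
      · rintro rfl
        rw [hy0, zero_mul] at h4
        exact lt_irrefl _ h4
      · rintro rfl
        rw [hy0, mul_zero] at h4
        exact lt_irrefl _ h4
    · exact ⟨0, fun h => absurd h hj⟩
  choose x hx using hroot
  refine ⟨x, fun i j hij hj => ?_, fun j hj => (hx j hj).1⟩
  have h1 := (hx i (hij.trans hj)).2.2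
  have h2 := (hx j hj).2.1
  have h3 : (((i + 1 : ℕ) : ℝ) - 1 / 2) * T ≤ ((j : ℝ) - 1 / 2) * T := by
    refine mul_le_mul_of_nonneg_right ?_ hTpos.le
    have h4 : ((i + 1 : ℕ) : ℝ) ≤ j := by exact_mod_cast hij
    linarith
  linarith

/-- a real polynomial with many real roots has real roots only -/
theorem real_of_roots {P : ℝ[X]} (hP : P.Monic) {x : ℕ → ℝ}
    (hx : ∀ i j, i < j → j < P.natDegree → x i < x j) (h0 : ∀ j < P.natDegree, P.eval (x j) = 0)
    {z : ℂ} (hz : aeval z P = 0) : ∃ y : ℝ, (y : ℂ) = z := by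
  classical
  set k := P.natDegree with hk
  have hinj : Set.InjOn x (range k : Set ℕ) := by
    intro i hi j hj hij
    rcases lt_trichotomy i j with h | h | h
    · exact absurd hij (hx i j h (mem_range.1 hj)).ne
    · exact h
    · exact absurd hij (hx j i h (mem_range.1 hi)).ne'
  have h1 : (range k).image x ⊆ P.roots.toFinset := by
    intro y hy
    obtain ⟨j, hj, rfl⟩ := mem_image.1 hy
    rw [Multiset.mem_toFinset, mem_roots hP.ne_zero]
    exact h0 j (mem_range.1 hj)
  have h2 : k ≤ Multiset.card P.roots := by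
    calc k = ((range k).image x).card := by rw [card_image_of_injOn hinj, card_range]
      _ ≤ P.roots.toFinset.card := card_le_card h1
      _ ≤ Multiset.card P.roots := P.roots.toFinset_card_le
  have h3 : Multiset.card P.roots = P.natDegree := le_antisymm (card_roots' P) h2
  have h4 := prod_multiset_X_sub_C_of_monic_of_roots_card_eq hP h3
  rw [← h4, aeval_def, eval₂_multiset_prod] at hz
  obtain ⟨y, hy, hyz⟩ := Multiset.mem_map.1 (Multiset.prod_eq_zero_iff.1 hz)
  obtain ⟨w, -, rfl⟩ := Multiset.mem_map.1 hy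
  rw [eval₂_sub, eval₂_X, eval₂_C, sub_eq_zero] at hyz
  exact ⟨w, hyz.symm⟩

/-- **The auxiliary polynomial**, with real roots only. -/
theorem exists_poly_real (F : Type) [Field F] [NumberField F] {h : ℤ[X]} (hh : h.Monic)
    (hpos : 0 < h.natDegree) {Mo : ℤ} (hMo : Mo ≠ 0) :
    ∃ g : ℤ[X], (h + C Mo * g).Monic ∧ (h + C Mo * g).natDegree = h.natDegree ∧
      Irreducible ((h + C Mo * g).map (algebraMap ℤ F)) ∧
      ∀ z : ℂ, aeval z (h + C Mo * g) = 0 → ∃ y : ℝ, (y : ℂ) = z := by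
  classical
  set k := h.natDegree with hk
  obtain ⟨ℓ, hℓge, hℓ⟩ := Nat.exists_infinite_primes (Mo.natAbs + (NumberField.discr F).natAbs + 1)
  have hpr : Prime (ℓ : ℤ) := Nat.prime_iff_prime_int.1 hℓ
  have hnd : ∀ z : ℤ, z ≠ 0 → z.natAbs < ℓ → ¬ (ℓ : ℤ) ∣ z := by
    intro z hz hlt hdvd
    have h1 := Int.natAbs_dvd_natAbs.2 hdvd
    rw [Int.natAbs_natCast] at h1
    exact absurd (Nat.le_of_dvd (Int.natAbs_pos.2 hz) h1) (not_le.2 hlt)
  have hℓMo : ¬ (ℓ : ℤ) ∣ Mo := hnd Mo hMo (by omega)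
  have hℓd : ¬ (ℓ : ℤ) ∣ NumberField.discr F := hnd _ (NumberField.discr_ne_zero F) (by omega)
  have hcop : IsCoprime Mo ((ℓ : ℤ) ^ 2) :=
    ((hpr.coprime_iff_not_dvd.2 hℓMo).symm).pow_right
  obtain ⟨u, v, huv⟩ := hcop
  set R1 : ℤ[X] := X ^ k + C (ℓ : ℤ) - h with hR1
  have hR1d : R1.degree < k := by
    have h1 : R1 = C (ℓ : ℤ) - (h - X ^ k) := by rw [hR1]; ring
    rw [h1]
    refine (degree_sub_le _ _).trans_lt (max_lt ?_ ?_)
    · exact degree_C_le.trans_lt (by exact_mod_cast hpos)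
    · have h2 : (h - X ^ k).degree < h.degree := by
        refine degree_sub_lt_left ?_ hh.ne_zero ?_
        · rw [degree_X_pow, degree_eq_natDegree hh.ne_zero]
        · rw [hh.leadingCoeff, leadingCoeff_X_pow]
      rwa [degree_eq_natDegree hh.ne_zero] at h2
  have hf0eq : ∀ B : ℤ[X], h + C Mo * (C u * R1 + C ((ℓ : ℤ) ^ 2 * Mo) * B) =
      X ^ k + C (ℓ : ℤ) * (1 + C (ℓ : ℤ) * (C (Mo ^ 2) * B - C v * R1)) := by
    intro B
    have h1 : C Mo * C u = 1 - C v * C ((ℓ : ℤ)) ^ 2 := by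
      rw [← C_mul, ← C_pow, ← C_mul, ← C_1, ← C_sub]
      congr 1
      linear_combination huv
    have h2 : h = X ^ k + C (ℓ : ℤ) - R1 := by rw [hR1]; ring
    have h3 : C Mo * (C u * R1 + C ((ℓ : ℤ) ^ 2 * Mo) * B) =
        (C Mo * C u) * R1 + C (ℓ : ℤ) ^ 2 * (C (Mo ^ 2) * B) := by
      simp only [C_mul, C_pow]
      ring
    rw [h3, h1]
    conv_lhs => rw [h2]
    ring
  have hC : ∀ (c : ℤ) (P : ℤ[X]), P.degree < k → (C c * P).degree < k := fun c P hP => by
    refine ((degree_mul_le _ _).trans (add_le_add degree_C_le le_rfl)).trans_lt ?_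
    rwa [zero_add]
  have hdeg : ∀ B : ℤ[X], B.degree < k →
      (C (ℓ : ℤ) * (1 + C (ℓ : ℤ) * (C (Mo ^ 2) * B - C v * R1))).degree < k := by
    intro B hB
    refine hC _ _ ((degree_add_le _ _).trans_lt (max_lt ?_ (hC _ _ ?_)))
    · rw [← C_1]
      exact degree_C_le.trans_lt (by exact_mod_cast hpos)
    · exact (degree_sub_le _ _).trans_lt (max_lt (hC _ _ hB) (hC _ _ hR1d))
  have hmon : ∀ B : ℤ[X], B.degree < k →
      (h + C Mo * (C u * R1 + C ((ℓ : ℤ) ^ 2 * Mo) * B)).Monic := fun B hB => by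
    rw [hf0eq]
    exact monic_X_pow_add (hdeg B hB)
  have hnat : ∀ B : ℤ[X], B.degree < k →
      (h + C Mo * (C u * R1 + C ((ℓ : ℤ) ^ 2 * Mo) * B)).natDegree = k := fun B hB => by
    rw [hf0eq, natDegree_add_eq_left_of_degree_lt (by
      rw [degree_X_pow]
      exact hdeg B hB), natDegree_X_pow]
  -- the polynomial with the roots `0, T, 2T, …`
  set c : ℤ := Mo ^ 2 * (ℓ : ℤ) ^ 2 with hc
  have hc1 : 1 ≤ c := by
    have h4 : c ≠ 0 := by
      have : (ℓ : ℤ) ≠ 0 := hpr.ne_zero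
      positivity
    have h5 : 0 ≤ c := by positivity
    omega
  have hprod : ∀ (s : ℤ) (n : ℕ), ∃ B : ℤ[X], ∏ i ∈ range n, (X - C ((i : ℤ) * (c * s))) =
      X ^ n + C c * B := by
    intro s n
    induction n with
    | zero => exact ⟨0, by simp⟩
    | succ n ih =>
      obtain ⟨B, hB⟩ := ih
      refine ⟨X * B - C ((n : ℤ) * s) * (X ^ n + C c * B), ?_⟩
      rw [prod_range_succ, hB]
      have h1 : C ((n : ℤ) * (c * s)) = C c * C ((n : ℤ) * s) := by
        rw [← C_mul]
        congr 1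
        ring
      rw [h1]
      ring
  have hprodm : ∀ T : ℤ, (∏ i ∈ range k, (X - C ((i : ℤ) * T))).Monic := fun T =>
    monic_prod_of_monic _ _ fun i _ => monic_X_sub_C _
  have hprodn : ∀ T : ℤ, (∏ i ∈ range k, (X - C ((i : ℤ) * T))).natDegree = k := fun T => by
    rw [natDegree_prod_of_monic _ _ fun i _ => monic_X_sub_C _,
      sum_congr rfl fun i _ => natDegree_X_sub_C _, sum_const, card_range, smul_eq_mul, mul_one]
  have hprodB : ∀ s : ℤ, ∃ B : ℤ[X], B.degree < k ∧
      ∏ i ∈ range k, (X - C ((i : ℤ) * (c * s))) = X ^ k + C c * B := by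
    intro s
    obtain ⟨B, hB⟩ := hprod s k
    refine ⟨B, ?_, hB⟩
    have h1 : (∏ i ∈ range k, (X - C ((i : ℤ) * (c * s))) - X ^ k).degree <
        (∏ i ∈ range k, (X - C ((i : ℤ) * (c * s)))).degree := by
      refine degree_sub_lt_left ?_ (hprodm _).ne_zero ?_
      · rw [degree_X_pow, degree_eq_natDegree (hprodm _).ne_zero, hprodn]
      · rw [(hprodm _).leadingCoeff, leadingCoeff_X_pow]
    rw [degree_eq_natDegree (hprodm _).ne_zero, hprodn, hB, add_sub_cancel_left, degree_mul,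
      degree_C (by omega), zero_add] at h1
    exact h1
  set f0 : ℤ[X] := h + C Mo * (C u * R1 + C ((ℓ : ℤ) ^ 2 * Mo) * 0) with hf0
  have hr : ((f0 - X ^ k).map (algebraMap ℤ ℝ)).degree < (k : WithBot ℕ) := by
    refine lt_of_le_of_lt degree_map_le ?_
    rw [hf0, hf0eq, add_sub_cancel_left]
    exact hdeg 0 (by rw [degree_zero]; exact WithBot.bot_lt_coe k)
  obtain ⟨T0, hT0⟩ := exists_roots _ hr
  obtain ⟨s, hs⟩ := exists_nat_ge T0
  obtain ⟨B, hBd, hB⟩ := hprodB s
  have hfeq : h + C Mo * (C u * R1 + C ((ℓ : ℤ) ^ 2 * Mo) * B) =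
      ∏ i ∈ range k, (X - C ((i : ℤ) * (c * s))) + (f0 - X ^ k) := by
    rw [hB, hf0, hf0eq, hf0eq, hc]
    simp only [C_mul, C_pow]
    ring
  refine ⟨C u * R1 + C ((ℓ : ℤ) ^ 2 * Mo) * B, hmon B hBd, hnat B hBd, ?_, fun z hz => ?_⟩
  · -- Eisenstein
    have hmax : (Ideal.span {(ℓ : ℤ)} : Ideal ℤ).IsMaximal :=
      PrincipalIdealRing.isMaximal_of_irreducible hpr.irreducible
    obtain ⟨P, hPm, hPl⟩ := Ideal.exists_maximal_ideal_liesOver_of_isIntegral
      (S := NumberField.RingOfIntegers F) (Ideal.span {(ℓ : ℤ)} : Ideal ℤ)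
    have hPp : P.IsPrime := hPm.isPrime
    have hℓP : ((ℓ : ℤ) : NumberField.RingOfIntegers F) ∈ P := by
      have h1 : (ℓ : ℤ) ∈ P.under ℤ := by
        rw [← hPl.over]
        exact Ideal.mem_span_singleton_self _
      exact h1
    have hsq := not_mem_sq hℓ hℓd hPp hℓP
    set f := h + C Mo * (C u * R1 + C ((ℓ : ℤ) ^ 2 * Mo) * B) with hf
    have hfm : (f.map (algebraMap ℤ (NumberField.RingOfIntegers F))).Monic := (hmon B hBd).map _
    have hfn : (f.map (algebraMap ℤ (NumberField.RingOfIntegers F))).natDegree = k := by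
      rw [(hmon B hBd).natDegree_map, hnat B hBd]
    have hcoe : ∀ i < k, f.coeff i = (ℓ : ℤ) *
        (1 + C (ℓ : ℤ) * (C (Mo ^ 2) * B - C v * R1)).coeff i := by
      intro i hi
      rw [hf, hf0eq, coeff_add, coeff_X_pow, if_neg (by omega), zero_add, coeff_C_mul]
    have heis : (f.map (algebraMap ℤ (NumberField.RingOfIntegers F))).IsEisensteinAt P := by
      refine ⟨?_, ?_, ?_⟩
      · rw [hfm.leadingCoeff]
        exact fun h1 => hPp.ne_top ((Ideal.eq_top_iff_one _).2 h1)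
      · intro i hi
        rw [hfn] at hi
        rw [coeff_map, hcoe i hi, map_mul]
        exact P.mul_mem_right _ hℓP
      · rw [coeff_map, hcoe 0 hpos]
        intro h1
        apply hsq
        have h2 : (1 + C (ℓ : ℤ) * (C (Mo ^ 2) * B - C v * R1)).coeff 0 =
            1 + (ℓ : ℤ) * (C (Mo ^ 2) * B - C v * R1).coeff 0 := by
          rw [coeff_add, coeff_one_zero, coeff_C_mul]
        rw [h2] at h1
        have h3 : ((ℓ : ℤ) : NumberField.RingOfIntegers F) =
            algebraMap ℤ (NumberField.RingOfIntegers F) ((ℓ : ℤ) *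
            (1 + (ℓ : ℤ) * (C (Mo ^ 2) * B - C v * R1).coeff 0)) -
            ((ℓ : ℤ) : NumberField.RingOfIntegers F) ^ 2 *
              algebraMap ℤ (NumberField.RingOfIntegers F) ((C (Mo ^ 2) * B - C v * R1).coeff 0) := by
          simp only [map_mul, map_add, map_one]
          have h4 : algebraMap ℤ (NumberField.RingOfIntegers F) (ℓ : ℤ) =
              ((ℓ : ℤ) : NumberField.RingOfIntegers F) := rfl
          rw [h4]
          ring
        rw [h3]
        exact Ideal.sub_mem _ h1 (Ideal.mul_mem_right _ _ (Ideal.pow_mem_pow hℓP 2))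
    have hirr := heis.irreducible hPp hfm.isPrimitive (by rw [hfn]; exact hpos)
    have h1 := (hfm.irreducible_iff_irreducible_map_fraction_map (K := F)).1 hirr
    rw [Polynomial.map_map] at h1
    exact h1
  · set f := h + C Mo * (C u * R1 + C ((ℓ : ℤ) ^ 2 * Mo) * B) with hf
    have hTs : ((c * s : ℤ) : ℝ) ≥ T0 := by
      refine le_trans hs ?_
      push_cast
      have h1 : (1 : ℝ) ≤ (c : ℝ) := by exact_mod_cast hc1
      nlinarith [(Nat.cast_nonneg s : (0 : ℝ) ≤ s)]
    obtain ⟨x, hx1, hx2⟩ := hT0 _ hTs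
    have hmap : f.map (algebraMap ℤ ℝ) = ∏ i ∈ range k, (X - C ((i : ℝ) * ((c * s : ℤ) : ℝ))) +
        (f0 - X ^ k).map (algebraMap ℤ ℝ) := by
      rw [hfeq, Polynomial.map_add, Polynomial.map_prod]
      congr 1
      refine prod_congr rfl fun i _ => ?_
      rw [Polynomial.map_sub, map_X, map_C]
      push_cast
      simp
    refine real_of_roots (P := f.map (algebraMap ℤ ℝ)) ((hmon B hBd).map _) (x := x) ?_ ?_ ?_
    · rw [(hmon B hBd).natDegree_map, hnat B hBd]
      exact hx1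
    · rw [(hmon B hBd).natDegree_map, hnat B hBd]
      intro j hj
      rw [hmap]
      exact hx2 j hj
    · rw [aeval_map_algebraMap]
      exact hz

end Pool.Agent.J4.H58.MUR
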