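import Pool.Agent.J4.H58.MUR.Base2
import Pool.Agent.J4.H58.MUR.Real
import Pool.Agent.W5h77.MB.Fld

/-!
# The auxiliary field: a totally real one
-/

set_option autoImplicit false

namespace Pool.Agent.J4.H58.MUR

open Pool.Agent.Q60.MU Polynomial IntermediateField NumberField
open Pool.Agent.W5h77.MB (realSub mem_realSub)
open scoped Pointwise

/-- **The auxiliary field**, totally real. -/
theorem exists_base_real (N : IntermediateField ℚ Qb) [FiniteDimensional ℚ N] [hNg : IsGalois ℚ N]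
    {q : ℕ} (hq : q ≠ 0) :
    ∃ K' : IntermediateField ℚ Qb, FiniteDimensional ℚ K' ∧
      (∀ ι : Qb →+* ℂ, K' ≤ realSub ι) ∧
      (∀ g : Gal(Qb/ℚ), ∃ k ∈ N.fixingSubgroup, ∃ a ∈ K'.fixingSubgroup, g = k * a) ∧
      (∀ A : ValuationSubring Qb, (q : Qb) ∈ A.nonunits → ∀ σ ∈ K'.fixingSubgroup,
        σ • A = A → σ ∈ N.fixingSubgroup) ∧
      ∀ A, inertia A ⊓ K'.fixingSubgroup ≤ N.fixingSubgroup := by
  classical
  have hNn : N.fixingSubgroup.Normal := (InfiniteGalois.normal_iff_isGalois N).2 hNg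
  obtain ⟨c, hc0, hc⟩ := exists_bad N
  obtain ⟨θ, hθ0, hθi, hθ⟩ := exists_prim N
  -- the polynomial
  set h0 : ℤ[X] := minpoly ℤ θ with hh0
  have hh0m : h0.Monic := minpoly.monic hθi
  have hh0Q : h0.map (algebraMap ℤ ℚ) = minpoly ℚ θ :=
    (minpoly.isIntegrallyClosed_eq_field_fractions' ℚ hθi).symm
  set h : ℤ[X] := expand ℤ 2 h0 with hh
  have hhm : h.Monic := hh0m.expand (by norm_num)
  have hhn : h.natDegree = h0.natDegree * 2 := natDegree_expand 2 h0
  have hh0n : 0 < h0.natDegree := minpoly.natDegree_pos hθi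
  have hev : ∀ γ : Qb, aeval γ h = aeval (γ ^ 2) h0 := fun γ => expand_aeval 2 h0 γ
  have hconj : ∀ γ : Qb, aeval γ h = 0 → ∃ τ : Gal(Qb/ℚ), γ ^ 2 = τ θ := by
    intro γ hγ
    rw [hev] at hγ
    have h1 : aeval (γ ^ 2) (minpoly ℚ θ) = 0 := by
      rw [← hh0Q, aeval_map_algebraMap]
      exact hγ
    have h2 : minpoly ℚ θ = minpoly ℚ (γ ^ 2) :=
      minpoly.eq_of_irreducible_of_monic (minpoly.irreducible hθi.tower_top) h1
        (minpoly.monic hθi.tower_top)
    obtain ⟨τ, hτ⟩ := (isConjRoot_iff_exists_algEquiv (K := ℚ) (x := γ ^ 2) (y := θ)).1 h2.symm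
    exact ⟨τ, hτ.symm⟩
  have hfix : ∀ γ : Qb, aeval γ h = 0 → ∀ σ : Gal(Qb/ℚ), σ γ = γ → σ ∈ N.fixingSubgroup := by
    intro γ hγ σ hσ
    obtain ⟨τ, hτ⟩ := hconj γ hγ
    have h1 : (τ⁻¹ * σ * τ) θ = θ := by
      have h2 : σ (τ θ) = τ θ := by
        rw [← hτ, map_pow, hσ]
      rw [AlgEquiv.mul_apply, AlgEquiv.mul_apply, h2, ← AlgEquiv.mul_apply, inv_mul_cancel,
        AlgEquiv.one_apply]
    have h3 := hNn.conj_mem _ (hθ _ h1) τ
    have h4 : τ * (τ⁻¹ * σ * τ) * τ⁻¹ = σ := by group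
    rwa [h4] at h3
  have hder : ∀ γ : Qb, aeval γ h = 0 → aeval γ (derivative h) ≠ 0 := by
    intro γ hγ
    have h1 : aeval γ (derivative h) = aeval (γ ^ 2) (derivative h0) * (2 * γ) := by
      rw [hh, derivative_expand, map_mul, expand_aeval, map_mul, map_natCast, map_pow, aeval_X]
      norm_num
    obtain ⟨τ, hτ⟩ := hconj γ hγ
    rw [hev] at hγ
    rw [h1]
    refine mul_ne_zero ?_ (mul_ne_zero two_ne_zero ?_)
    · have h2 : aeval (γ ^ 2) (derivative h0) = aeval (γ ^ 2) (derivative (minpoly ℚ θ)) := by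
        rw [← hh0Q, derivative_map, aeval_map_algebraMap]
      have h3 : aeval (γ ^ 2) (minpoly ℚ θ) = 0 := by
        rw [← hh0Q, aeval_map_algebraMap]
        exact hγ
      rw [h2]
      exact (minpoly.irreducible hθi.tower_top).separable.aeval_derivative_ne_zero h3
    · rintro rfl
      apply hθ0
      apply τ.injective
      rw [← hτ, map_zero]
      norm_num
  -- the constant
  obtain ⟨d, hd0, hd⟩ := exists_mult ((h.map (algebraMap ℤ Qb)).roots.toFinset)
    (fun γ => aeval γ (derivative h)) (by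
      intro γ hγ
      rw [Multiset.mem_toFinset, mem_roots (hhm.map _).ne_zero, IsRoot.def, eval_map,
        ← aeval_def] at hγ
      exact hder γ hγ)
  have hd' : ∀ γ : Qb, aeval γ h = 0 → ∃ w, IsIntegral ℤ w ∧
      (d : Qb) = aeval γ (derivative h) * w := by
    intro γ hγ
    apply hd
    rw [Multiset.mem_toFinset, mem_roots (hhm.map _).ne_zero, IsRoot.def, eval_map, ← aeval_def]
    exact hγ
  set M : ℤ := ((c * q : ℕ) : ℤ) with hM
  have hM0 : M ≠ 0 := by
    rw [hM]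
    exact_mod_cast mul_ne_zero hc0 hq
  have hMo : M * d ^ h.natDegree ≠ 0 := mul_ne_zero hM0 (pow_ne_zero _ hd0)
  have hnf : NumberField N := ⟨⟩
  obtain ⟨g, hfm, hfn, hfi, hfp⟩ := exists_poly_real N hhm (by rw [hhn]; omega) hMo
  set f := h + C (M * d ^ h.natDegree) * g with hf
  obtain ⟨β, hβ⟩ := IsAlgClosed.exists_aeval_eq_zero Qb f (by
    rw [degree_eq_natDegree hfm.ne_zero, hfn, hhn]
    have : h0.natDegree * 2 ≠ 0 := by omega
    exact_mod_cast this)
  have hβi : IsIntegral ℤ β := ⟨f, hfm, by rw [← aeval_def]; exact hβ⟩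
  have hfixβ : ∀ σ : Gal(Qb/ℚ), σ ∈ (ℚ⟮β⟯).fixingSubgroup → σ β = β := fun σ hσ =>
    (mem_fixingSubgroup_iff _ _).1 hσ β (mem_adjoin_simple_self ℚ β)
  have hmain : ∀ A : ValuationSubring Qb, (M : Qb) ∈ A.nonunits → ∀ σ ∈ (ℚ⟮β⟯).fixingSubgroup,
      σ • A = A → σ ∈ N.fixingSubgroup := by
    intro A hA σ hσ hσA
    obtain ⟨γ, hγ, hσγ⟩ := krasner hhm hd0 hA hd' hf hβ hβi hσA (hfixβ σ hσ)
    exact hfix γ hγ σ hσγ
  refine ⟨ℚ⟮β⟯, adjoin.finiteDimensional hβi.tower_top, ?_, ?_, ?_, ?_⟩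
  · intro ι
    rw [adjoin_simple_le_iff, mem_realSub]
    have h1 : aeval (ι β) f = 0 := by
      have h3 := aeval_algHom_apply (ι.toIntAlgHom) β f
      rw [hβ, map_zero] at h3
      exact h3
    obtain ⟨y, hy⟩ := hfp _ h1
    rw [← hy]
    exact Complex.conj_ofReal y
  · intro g'
    have hgβ : aeval (g' β) f = 0 := by
      have h1 := aeval_algHom_apply ((g' : Qb →ₐ[ℚ] Qb).restrictScalars ℤ) β f
      rw [hβ, map_zero] at h1
      exact h1
    have hmp : ∀ x : Qb, aeval x f = 0 → minpoly N x = f.map (algebraMap ℤ N) := by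
      intro x hx
      refine (minpoly.eq_of_irreducible_of_monic hfi ?_ (hfm.map _)).symm
      rw [aeval_map_algebraMap]
      exact hx
    have hconj' : IsConjRoot N β (g' β) := by
      show minpoly N β = minpoly N (g' β)
      rw [hmp β hβ, hmp _ hgβ]
    obtain ⟨τ, hτ⟩ := (isConjRoot_iff_exists_algEquiv (K := N) (x := β) (y := g' β)).1 hconj'
    -- `β = τ (g' β)`
    set τ' : Gal(Qb/ℚ) := τ.restrictScalars ℚ with hτ'
    have hτN : τ' ∈ N.fixingSubgroup := by
      rw [IntermediateField.mem_fixingSubgroup_iff]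
      intro x hx
      exact τ.commutes (⟨x, hx⟩ : N)
    refine ⟨τ'⁻¹, inv_mem hτN, τ' * g', ?_, by rw [inv_mul_cancel_left]⟩
    rw [IntermediateField.mem_fixingSubgroup_iff]
    have h1 : (τ' * g') β = β := hτ
    intro x hx
    have h2 : ℚ⟮β⟯ ≤ fixedField (Subgroup.zpowers (τ' * g')) := by
      rw [adjoin_simple_le_iff, mem_fixedField_iff]
      have h3 : Subgroup.zpowers (τ' * g') ≤ MulAction.stabilizer Gal(Qb/ℚ) β := by
        rw [Subgroup.zpowers_le]
        exact h1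
      exact fun f hf => h3 hf
    exact (mem_fixedField_iff _ _).1 (h2 hx) _ (Subgroup.mem_zpowers _)
  · intro A hA
    apply hmain A
    rw [hM]
    push_cast
    rw [mul_comm]
    exact mul_nonunits hA (natCast_mem A c)
  · rintro A σ ⟨hσ, hσK⟩
    by_contra hcon
    have h1 := hc A σ hσ hcon
    apply hcon
    refine hmain A ?_ σ hσK hσ.1
    rw [hM]
    push_cast
    exact mul_nonunits h1 (natCast_mem A q)

end Pool.Agent.J4.H58.MUR
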