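import Pool.Agent.J4.H58.MUR.Grp
import Pool.Agent.J4.H53.IW.Defs

/-!
# Unramified cyclic extensions of prime degree: translation to number fields
-/

set_option autoImplicit false

namespace Pool.Agent.J4.H58.MUR

open Subgroup Module IntermediateField Pool.Agent.Q60.MU
open scoped Pointwise commutatorElement

/-- The automorphisms over `K` map `M` to itself. -/
def Stable (K M : IntermediateField ℚ Qb) : Prop := ∀ σ ∈ K.fixingSubgroup, ∀ x ∈ M, σ x ∈ M

/-- The automorphisms over `L` commute on `M` and their `p`-th powers are trivial on `M`. -/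
def ElemAb (p : ℕ) (L M : IntermediateField ℚ Qb) : Prop :=
  (∀ σ ∈ L.fixingSubgroup, ∀ τ ∈ L.fixingSubgroup, ∀ x ∈ M, σ (τ x) = τ (σ x)) ∧
    ∀ σ ∈ L.fixingSubgroup, ∀ x ∈ M, (σ ^ p) x = x

/-- The inertia groups over `K` act trivially on `L`. -/
def Unram (K L : IntermediateField ℚ Qb) : Prop :=
  ∀ A, ∀ σ ∈ inertia A, σ ∈ K.fixingSubgroup → ∀ x ∈ L, σ x = x

/-- The automorphisms over `K` commute with those over `L` only on the elements of `L`. -/
def NoTrivial (K L M : IntermediateField ℚ Qb) : Prop :=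
  ∀ x ∈ M, (∀ σ ∈ K.fixingSubgroup, ∀ τ ∈ L.fixingSubgroup, σ (τ x) = τ (σ x)) → x ∈ L

/-- Every finite extension `M` of `L` which is Galois over `L` with abelian Galois group of
exponent `p`, unramified over `L` at all finite primes, stable under the automorphisms over `K`,
and in which the automorphisms over `K` commute with those over `L` on the elements of `L` only,
has degree at most `C` over `L`. -/
def RelDegLe (p : ℕ) (K L : IntermediateField ℚ Qb) (C : ℕ) : Prop :=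
  ∀ M : IntermediateField ℚ Qb, L ≤ M → FiniteDimensional ℚ M → Stable K M → ElemAb p L M →
    Unram L M → NoTrivial K L M → finrank ℚ M ≤ C * finrank ℚ L

/-- The degrees of `RelDegLe` are bounded in the tower `K R₀ ≤ L R₀, K R₁ ≤ L R₁, …`. -/
def RelBounded (p : ℕ) (R : ℕ → IntermediateField ℚ Qb) (K L : IntermediateField ℚ Qb) : Prop :=
  ∃ C, ∀ m, RelDegLe p (K ⊔ R m) (L ⊔ R m) C

/-- `L` is a Galois extension of `K` of degree `l`, unramified at all finite primes. -/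
def UnramifiedStep (l : ℕ) (K L : IntermediateField ℚ Qb) : Prop :=
  K ≤ L ∧ finrank ℚ L = l * finrank ℚ K ∧ Stable K L ∧ Unram K L

/-- The decomposition groups over `K` of all places where `q` is not a unit act trivially on `E`. -/
def LocallyContains (q : ℕ) (K E : IntermediateField ℚ Qb) : Prop :=
  ∀ A : ValuationSubring Qb, (q : Qb) ∈ A.nonunits → ∀ σ ∈ K.fixingSubgroup, σ • A = A →
    ∀ x ∈ E, σ x = x

theorem RelLe.mono {𝔾 : Type} [Group 𝔾] [TopologicalSpace 𝔾] {p : ℕ} {Ω : Type}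
    {I : Ω → Subgroup 𝔾} {B A : Subgroup 𝔾} {C C' : ℕ} (h : RelLe p I B A C) (hC : C ≤ C') :
    RelLe p I B A C' := fun W h1 h2 h3 h4 h5 h6 => (h W h1 h2 h3 h4 h5 h6).trans hC

theorem relLe_of {p : ℕ} {K L : IntermediateField ℚ Qb} [FiniteDimensional ℚ L] (hKL : K ≤ L)
    {C : ℕ} (h : RelDegLe p K L C) : RelLe p inertia K.fixingSubgroup L.fixingSubgroup C := by
  intro W hWA hWo hWf hg hWB hQ
  have hLK : L.fixingSubgroup ≤ K.fixingSubgroup := fixingSubgroup_le hKL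
  have hL0 := index_ne_zero' L
  have hmul := relIndex_mul_index hWA
  have hW0 : W.index ≠ 0 := by
    rw [← hmul]
    exact mul_ne_zero hWf hL0
  have hfix := fix_fixed hWo
  have hLM : L ≤ fixedField W := (le_iff_le _ _).2 hWA
  have hfd := finite_fixed hWo hW0
  have hmem : ∀ x, x ∈ fixedField W ↔ ∀ w ∈ W, w x = x := fun x => mem_fixedField_iff _ _
  have h5 := h (fixedField W) hLM hfd (by
    intro σ hσ x hx
    rw [hmem] at hx ⊢
    intro w hw
    have h1 : σ⁻¹ * w * σ⁻¹⁻¹ ∈ W := hWB _ (inv_mem hσ) w hw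
    have h2 : w (σ x) = σ ((σ⁻¹ * w * σ⁻¹⁻¹) x) := by
      rw [← AlgEquiv.mul_apply, ← AlgEquiv.mul_apply]
      congr 1
      group
    rw [h2, hx _ h1]) ⟨(by
    intro σ hσ τ hτ x hx
    rw [hmem] at hx
    have h1 : ⁅σ⁻¹, τ⁻¹⁆ ∈ W := hg (Or.inl (Or.inr ⟨σ⁻¹, inv_mem hσ, τ⁻¹, inv_mem hτ, rfl⟩))
    have h2 : σ (τ x) = τ (σ (⁅σ⁻¹, τ⁻¹⁆ x)) := by
      rw [← AlgEquiv.mul_apply, ← AlgEquiv.mul_apply, ← AlgEquiv.mul_apply]
      congr 1
      rw [commutatorElement_def]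
      group
    rw [h2, hx _ h1]), (by
    intro σ hσ x hx
    rw [hmem] at hx
    exact hx _ (hg (Or.inl (Or.inl ⟨σ, hσ, rfl⟩))))⟩ (by
    intro A σ hσA hσ x hx
    rw [hmem] at hx
    exact hx _ (hg (Or.inr ⟨hσ, A, hσA⟩))) (by
    intro x hx hcomm
    rw [hmem] at hx
    have h1 : L.fixingSubgroup ≤ MulAction.stabilizer Gal(Qb/ℚ) x := by
      apply hQ
      · intro w hw
        exact hx w hw
      · intro b hb a ha
        have h2 := hcomm b⁻¹ (inv_mem hb) a⁻¹ (inv_mem ha)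
        have h3 : ⁅b, a⁆ x = b (a (b⁻¹ (a⁻¹ x))) := rfl
        show ⁅b, a⁆ x = x
        rw [h3, h2]
        have h4 : a (a⁻¹ (b⁻¹ x)) = b⁻¹ x := by
          rw [← AlgEquiv.mul_apply, mul_inv_cancel, AlgEquiv.one_apply]
        have h5 : b (b⁻¹ x) = x := by
          rw [← AlgEquiv.mul_apply, mul_inv_cancel, AlgEquiv.one_apply]
        rw [h4, h5]
    rw [← InfiniteGalois.fixedField_fixingSubgroup L, mem_fixedField_iff]
    intro f hf
    exact h1 hf)
  rw [finrank_eq_fixingSubgroup_index, finrank_eq_fixingSubgroup_index, hfix, ← hmul] at h5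
  exact Nat.le_of_mul_le_mul_right h5 (Nat.pos_of_ne_zero hL0)

theorem relBounded_of {p : ℕ} {R : ℕ → IntermediateField ℚ Qb} {K L : IntermediateField ℚ Qb}
    (hKL : K ≤ L) (h : MuZero p R L) : RelBounded p R K L := by
  obtain ⟨C, hC⟩ := h
  refine ⟨C, fun m M hLM hM h1 h2 h4 _ => hC m M hLM hM ?_ h2.1 h2.2 h4⟩
  intro σ hσ
  exact h1 σ (fixingSubgroup_le (sup_le_sup_right hKL _) hσ)

/-- orders of powers -/
theorem relIndex_zpowers {G : Type} [Group G] {b : G} {l s : ℕ} (hb : orderOf b = l * s)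
    (hl : l ≠ 0) (hs : s ≠ 0) : (zpowers (b ^ l)).relIndex (zpowers b) = l := by
  have h1 : orderOf (b ^ l) = s := by
    rw [orderOf_pow_of_dvd hl ⟨s, hb⟩, hb, Nat.mul_div_cancel_left _ (Nat.pos_of_ne_zero hl)]
  have hle : zpowers (b ^ l) ≤ zpowers b := by
    rw [zpowers_le]
    exact (zpowers b).pow_mem (mem_zpowers b) l
  have h2 : Nat.card (zpowers (b ^ l)) * (zpowers (b ^ l)).relIndex (zpowers b) =
      Nat.card (zpowers b) := by
    have h3 := ((zpowers (b ^ l)).subgroupOf (zpowers b)).card_mul_index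
    have h4 : Nat.card ((zpowers (b ^ l)).subgroupOf (zpowers b)) = Nat.card (zpowers (b ^ l)) :=
      Nat.card_congr (Subgroup.subgroupOfEquivOfLe hle).toEquiv
    rw [h4] at h3
    exact h3
  rw [Nat.card_zpowers, Nat.card_zpowers, h1, hb, mul_comm l s] at h2
  exact Nat.eq_of_mul_eq_mul_left (Nat.pos_of_ne_zero hs) h2

theorem relIndex_cy {𝔾 : Type} [Group 𝔾] {Kn A' : Subgroup 𝔾} [Kn.Normal] {a : 𝔾} (ha : a ∈ A')
    {j l s : ℕ} (hj : j * l * s = orderOf (a : 𝔾 ⧸ Kn)) (hjl : j * l * s ≠ 0) :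
    (cy Kn (a ^ (j * l)) ⊓ A').relIndex (cy Kn (a ^ j) ⊓ A') = l := by
  have hj0 : j ≠ 0 := by rintro rfl; simp at hjl
  have hl0 : l ≠ 0 := by rintro rfl; simp at hjl
  have hs0 : s ≠ 0 := by rintro rfl; simp at hjl
  set f : ↥(cy Kn (a ^ j) ⊓ A') →* 𝔾 ⧸ Kn :=
    (QuotientGroup.mk' Kn).comp (cy Kn (a ^ j) ⊓ A').subtype with hf
  have h1 := Subgroup.index_comap (zpowers ((a : 𝔾 ⧸ Kn) ^ (j * l))) f
  have h2 : (zpowers ((a : 𝔾 ⧸ Kn) ^ (j * l))).comap f =
      (cy Kn (a ^ (j * l)) ⊓ A').subgroupOf (cy Kn (a ^ j) ⊓ A') := by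
    ext x
    rw [mem_comap, mem_subgroupOf]
    constructor
    · intro h
      exact ⟨h, x.2.2⟩
    · intro h
      exact h.1
  have h3 : f.range = zpowers ((a : 𝔾 ⧸ Kn) ^ j) := by
    apply le_antisymm
    · rintro _ ⟨x, rfl⟩
      exact x.2.1
    · rw [zpowers_le]
      exact ⟨⟨a ^ j, self_mem_cy, A'.pow_mem ha j⟩, rfl⟩
  rw [h2, h3, pow_mul ((a : 𝔾 ⧸ Kn))] at h1
  have h4 : orderOf ((a : 𝔾 ⧸ Kn) ^ j) = l * s := by
    rw [orderOf_pow_of_dvd hj0 ⟨l * s, by rw [← hj]; ring⟩, ← hj, mul_assoc,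
      Nat.mul_div_cancel_left _ (Nat.pos_of_ne_zero hj0)]
  rw [relIndex_zpowers h4 hl0 hs0] at h1
  exact h1

end Pool.Agent.J4.H58.MUR
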