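import Pool.Agent.J4.H58.MUR.Base3
import Pool.Agent.J4.H58.MUR.Tr
import Pool.Agent.J4.H53.IW.Main

/-!
# Totally real fields and CM fields
-/

set_option autoImplicit false

namespace Pool.Agent.J4.H58.MUR

open IntermediateField Module Pool.Agent.Q60.MU NumberField
open Pool.Agent.W5h77.MB (realSub mem_realSub fix_real exists_conj)
open Pool.Agent.J4.H53.IW (isCM_of_conj extend_emb IsFin)
open scoped Pointwise ComplexConjugate

/-- All embeddings of `F` into the complex numbers are real. -/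
def TotReal (F : IntermediateField ℚ Qb) : Prop := ∀ φ : F →+* ℂ, ComplexEmbedding.IsReal φ

/-- Complex conjugation commutes with all automorphisms on `F`. -/
def Cen (c : Gal(Qb/ℚ)) (F : IntermediateField ℚ Qb) : Prop :=
  ∀ g : Gal(Qb/ℚ), c⁻¹ * g⁻¹ * c * g ∈ F.fixingSubgroup

variable {c : Gal(Qb/ℚ)} {F F' : IntermediateField ℚ Qb}

theorem Cen.comm (h : Cen c F) (g : Gal(Qb/ℚ)) {x : Qb} (hx : x ∈ F) : c (g x) = g (c x) := by
  have h1 := (mem_fixingSubgroup_iff _ _).1 (h g) x hx
  have h2 : (c⁻¹ * g⁻¹ * c * g) x = c⁻¹ (g⁻¹ (c (g x))) := rfl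
  rw [h2] at h1
  have h3 : g (c (c⁻¹ (g⁻¹ (c (g x))))) = c (g x) := by
    have h4 : ∀ y, c (c⁻¹ y) = y := fun y => by
      rw [← AlgEquiv.mul_apply, mul_inv_cancel, AlgEquiv.one_apply]
    have h5 : ∀ y, g (g⁻¹ y) = y := fun y => by
      rw [← AlgEquiv.mul_apply, mul_inv_cancel, AlgEquiv.one_apply]
    rw [h4, h5]
  rw [← h3, h1]

theorem cen_of_comm (h : ∀ (g : Gal(Qb/ℚ)) (x : Qb), x ∈ F → c (g x) = g (c x)) : Cen c F := by
  intro g
  rw [IntermediateField.mem_fixingSubgroup_iff]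
  intro x hx
  show c⁻¹ (g⁻¹ (c (g x))) = x
  have h4 : ∀ (f : Gal(Qb/ℚ)) (y : Qb), f⁻¹ (f y) = y := fun f y => by
    rw [← AlgEquiv.mul_apply, inv_mul_cancel, AlgEquiv.one_apply]
  rw [h g x hx, h4, h4]

theorem Cen.sup (h : Cen c F) (h' : Cen c F') : Cen c (F ⊔ F') := by
  intro g
  rw [fixingSubgroup_sup]
  exact ⟨h g, h' g⟩

theorem Cen.mono (hF : F ≤ F') (h : Cen c F') : Cen c F := fun g => fixingSubgroup_le hF (h g)

section

variable {ι : Qb →+* ℂ} (hc : ∀ x, ι (c x) = conj (ι x))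

include hc in
theorem mem_realSub' {x : Qb} : x ∈ realSub ι ↔ c x = x := by
  rw [mem_realSub, ← hc]
  exact ι.injective.eq_iff

include hc in
theorem totReal_iff : TotReal F ↔ ∀ (g : Gal(Qb/ℚ)) (x : Qb), x ∈ F → c (g x) = g x := by
  constructor
  · intro h g x hx
    have h1 := h ((ι.comp (g : Qb →+* Qb)).comp (algebraMap F Qb))
    have h2 : conj (ι (g x)) = ι (g x) := RingHom.congr_fun h1 ⟨x, hx⟩
    apply ι.injective
    rw [hc, h2]
  · intro h φ
    obtain ⟨g, hg⟩ := extend_emb ι φ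
    refine RingHom.ext fun x => ?_
    show conj (φ x) = φ x
    rw [hg, ← hc, h g x x.2]

include hc in
theorem cen_of_real (h : TotReal F) : Cen c F := by
  rw [totReal_iff hc] at h
  refine cen_of_comm fun g x hx => ?_
  have h1 := h 1 x hx
  rw [AlgEquiv.one_apply] at h1
  rw [h g x hx, h1]

include hc in
theorem real_of_cen (h : Cen c F) (h1 : ∀ x ∈ F, c x = x) : TotReal F := by
  rw [totReal_iff hc]
  intro g x hx
  rw [h.comm g hx, h1 x hx]

theorem TotReal.mono (hF : F ≤ F') (h : TotReal F') : TotReal F := by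
  obtain ⟨ι⟩ := Pool.Agent.J4.H53.IW.nonempty_iota
  obtain ⟨c, hc, -⟩ := exists_conj ι
  rw [totReal_iff hc] at h ⊢
  exact fun g x hx => h g x (hF hx)

theorem TotReal.sup (h : TotReal F) (h' : TotReal F') : TotReal (F ⊔ F') := by
  obtain ⟨ι⟩ := Pool.Agent.J4.H53.IW.nonempty_iota
  obtain ⟨c, hc, -⟩ := exists_conj ι
  have h1 : F ⊔ F' ≤ realSub ι := by
    refine sup_le (fun x hx => (mem_realSub' hc).2 ?_) (fun x hx => (mem_realSub' hc).2 ?_)
    · exact (totReal_iff hc).1 h 1 x hx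
    · exact (totReal_iff hc).1 h' 1 x hx
  exact real_of_cen hc ((cen_of_real hc h).sup (cen_of_real hc h'))
    fun x hx => (mem_realSub' hc).1 (h1 hx)

include hc in
theorem real_iff_le (h : ∀ ι : Qb →+* ℂ, F ≤ realSub ι) : TotReal F := by
  rw [totReal_iff hc]
  intro g x hx
  have h1 := h (ι.comp (g : Qb →+* Qb)) hx
  rw [mem_realSub] at h1
  have h2 : conj (ι (g x)) = ι (g x) := h1
  apply ι.injective
  rw [hc, h2]

theorem Cen.map_mem (h : Cen c F) {x : Qb} (hx : x ∈ F) : c x ∈ F := by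
  rw [← InfiniteGalois.fixedField_fixingSubgroup F, mem_fixedField_iff]
  intro f hf
  rw [← h.comm f hx, (mem_fixingSubgroup_iff _ _).1 hf x hx]

include hc in
theorem isCM_of_cen (hF : IsFin F) (h : Cen c F) {x : Qb} (hx : x ∈ F) (hcx : c x ≠ x) :
    IsCMField F := by
  have hFf : FiniteDimensional ℚ F := hF
  have hnf : NumberField F := ⟨⟩
  have hmaps : ∀ y : F, c y ∈ F := fun y => h.map_mem y.2
  let f : F →ₐ[ℚ] F := ((c : Qb →ₐ[ℚ] Qb).comp F.val).codRestrict F.toSubalgebra hmaps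
  have hfb : Function.Bijective f := Algebra.IsAlgebraic.algHom_bijective f
  let σ : F ≃ₐ[ℚ] F := AlgEquiv.ofBijective f hfb
  have hσ : ∀ y : F, ((σ y : F) : Qb) = c y := fun y => rfl
  refine isCM_of_conj F (σ := σ) ?_ ?_
  · intro h1
    apply hcx
    have h2 := hσ ⟨x, hx⟩
    rw [h1] at h2
    exact h2.symm
  · intro φ
    obtain ⟨g, hg⟩ := extend_emb ι φ
    refine RingHom.ext fun y => ?_
    show conj (φ y) = φ (σ y)
    rw [hg, hg, hσ, ← h.comm g y.2, hc]

include hc in
theorem cen_of_isCM (hF : IsFin F) (h : IsCMField F) : Cen c F ∧ ∃ x ∈ F, c x ≠ x := by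
  have hFf : FiniteDimensional ℚ F := hF
  have hnf : NumberField F := ⟨⟩
  have key : ∀ (g : Gal(Qb/ℚ)) (x : F),
      c (g (x : Qb)) = g ((IsCMField.complexConj F x : F) : Qb) := by
    intro g x
    have h1 := IsCMField.complexEmbedding_complexConj F
      ((ι.comp (g : Qb →+* Qb)).comp (algebraMap F Qb)) x
    have h2 : ι (g ((IsCMField.complexConj F x : F) : Qb)) = conj (ι (g (x : Qb))) := h1
    apply ι.injective
    rw [hc, h2]
  have h1 : ∀ x : F, c (x : Qb) = ((IsCMField.complexConj F x : F) : Qb) := fun x => by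
    have := key 1 x
    rwa [AlgEquiv.one_apply, AlgEquiv.one_apply] at this
  refine ⟨cen_of_comm fun g x hx => ?_, ?_⟩
  · rw [key g ⟨x, hx⟩, h1 ⟨x, hx⟩]
  · by_contra hcon
    apply IsCMField.complexConj_ne_one F
    refine AlgEquiv.ext fun x => Subtype.ext ?_
    rw [← h1]
    by_contra h2
    exact hcon ⟨x, x.2, h2⟩

end

/-- Galois closures. -/
theorem exists_galois_cen (hF : IsFin F) (h : Cen c F) :
    ∃ N : IntermediateField ℚ Qb, FiniteDimensional ℚ N ∧ IsGalois ℚ N ∧ F ≤ N ∧ Cen c N := by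
  have hFf : FiniteDimensional ℚ F := hF
  have hUf : F.fixingSubgroup.FiniteIndex := ⟨index_ne_zero' F⟩
  set K := F.fixingSubgroup.normalCore with hKdef
  have hKn : K.Normal := Subgroup.normalCore_normal _
  have hKo : IsOpen (K : Set Gal(Qb/ℚ)) :=
    isOpen_normalCore F.fixingSubgroup_isOpen (index_ne_zero' F)
  have hKf : K.index ≠ 0 := by
    have : K.FiniteIndex := F.fixingSubgroup.finiteIndex_normalCore
    exact Subgroup.FiniteIndex.index_ne_zero
  have hfix := fix_fixed hKo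
  refine ⟨fixedField K, finite_fixed hKo hKf,
    (InfiniteGalois.normal_iff_isGalois (fixedField K)).1 (by rw [hfix]; exact hKn),
    (le_iff_le _ _).2 (Subgroup.normalCore_le _), fun g => ?_⟩
  rw [hfix, hKdef]
  intro b
  have h1 : b * (c⁻¹ * g⁻¹ * c * g) * b⁻¹ =
      (c⁻¹ * (b⁻¹)⁻¹ * c * b⁻¹)⁻¹ * (c⁻¹ * (g * b⁻¹)⁻¹ * c * (g * b⁻¹)) := by
    group
  rw [h1]
  exact F.fixingSubgroup.mul_mem (F.fixingSubgroup.inv_mem (h b⁻¹)) (h (g * b⁻¹))

/-- The automorphisms over the real subfield. -/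
theorem mem_fix_real {ι : Qb →+* ℂ} (hc : ∀ x, ι (c x) = conj (ι x)) (hcc : c * c = 1)
    [FiniteDimensional ℚ F] (h : Cen c F) {σ : Gal(Qb/ℚ)} :
    σ ∈ (F ⊓ realSub ι).fixingSubgroup ↔ σ ∈ F.fixingSubgroup ∨ c * σ ∈ F.fixingSubgroup := by
  have hinv : c⁻¹ = c := inv_eq_of_mul_eq_one_left hcc
  have hn : ∀ u ∈ F.fixingSubgroup, c * u * c ∈ F.fixingSubgroup := by
    intro u hu
    rw [IntermediateField.mem_fixingSubgroup_iff] at hu ⊢
    intro x hx
    show c (u (c x)) = x
    rw [hu _ (h.map_mem hx), ← AlgEquiv.mul_apply, hcc, AlgEquiv.one_apply]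
  rw [fix_real hc]
  constructor
  · intro hσ
    let V : Subgroup Gal(Qb/ℚ) :=
      { carrier := {x | x ∈ F.fixingSubgroup ∨ c * x ∈ F.fixingSubgroup}
        mul_mem' := by
          rintro a b (ha | ha) (hb | hb)
          · exact Or.inl (mul_mem ha hb)
          · right
            have h1 : c * (a * b) = (c * a * c) * (c * b) := by
              rw [mul_assoc (c * a) c (c * b), ← mul_assoc c c b, hcc, one_mul, mul_assoc]
            rw [h1]
            exact mul_mem (hn a ha) hb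
          · right
            rw [← mul_assoc]
            exact mul_mem ha hb
          · left
            have h1 : a * b = (c * (c * a) * c) * (c * b) := by
              rw [← mul_assoc c c a, hcc, one_mul, mul_assoc a c (c * b), ← mul_assoc c c b, hcc,
                one_mul]
            rw [h1]
            exact mul_mem (hn _ ha) hb
        one_mem' := Or.inl (one_mem _)
        inv_mem' := by
          rintro a (ha | ha)
          · exact Or.inl (inv_mem ha)
          · right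
            have h1 : c * a⁻¹ = c * (c * a)⁻¹ * c := by
              rw [mul_inv_rev, hinv, mul_assoc, mul_assoc, hcc, mul_one]
            rw [h1]
            exact hn _ (inv_mem ha) }
    have hV : F.fixingSubgroup ⊔ Subgroup.zpowers c ≤ V := by
      refine sup_le (fun x hx => Or.inl hx) ?_
      rw [Subgroup.zpowers_le]
      right
      rw [hcc]
      exact one_mem _
    exact hV hσ
  · rintro (h1 | h1)
    · exact Subgroup.mem_sup_left h1
    · have h2 : σ = c * (c * σ) := by rw [← mul_assoc, hcc, one_mul]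
      rw [h2]
      exact mul_mem (Subgroup.mem_sup_right (Subgroup.mem_zpowers c)) (Subgroup.mem_sup_left h1)

end Pool.Agent.J4.H58.MUR
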