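import Pool.Agent.J4.H58.MUR.Main3

/-!
# The choice of the base field
-/

set_option autoImplicit false

namespace Pool.Agent.J4.H58.MUR

open Module IntermediateField Pool.Agent.Q60.MU
open scoped Pointwise

/-- The degree of `M` over `E` is prime to the primes in `S`, and no proper subfield of `M/E` which
is Galois over `E` has index a power of `p` in `M`: for `M/E` Galois, this says that the order of
`Gal(M/E)` is prime to the primes in `S` and that `Gal(M/E)` has no nontrivial normal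
`p`-subgroup. -/
def Reduced (p : ℕ) (S : Set ℕ) (E M : IntermediateField ℚ Qb) : Prop :=
  (∀ l ∈ S, l.Prime → ¬ l ∣ finrank ℚ M / finrank ℚ E) ∧
    ∀ M' : IntermediateField ℚ Qb, E ≤ M' → M' ≤ M → Stable E M' →
      (∃ a : ℕ, finrank ℚ M = p ^ a * finrank ℚ M') → M' = M

section Grp

variable {𝔾 : Type} [Group 𝔾] {H Kn : Subgroup 𝔾}

theorem exists_min {p : ℕ} [hp : Fact p.Prime] {S : Set ℕ} [hKn : Kn.Normal] (hKH : Kn ≤ H)
    (hKi : Kn.index ≠ 0) (Cl : Subgroup 𝔾) (hCl : Cl = Subgroup.closure {g | g ∈ H ∧ ∃ e : ℕ, e ≠ 0 ∧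
      (∀ l : ℕ, l.Prime → l ∣ e → l ∈ S) ∧ g ^ e ∈ Kn}) :
    ∃ X : Subgroup 𝔾, X ≤ H ∧ Cl ≤ X ∧ Kn ≤ X ∧ (∀ h ∈ H, ∀ x ∈ X, h * x * h⁻¹ ∈ X) ∧
      (∀ x ∈ X, ∃ s, x ^ p ^ s ∈ Cl) ∧ (∀ l ∈ S, l.Prime → ¬ l ∣ X.relIndex H) ∧
      ∀ Y : Subgroup 𝔾, X ≤ Y → Y ≤ H → (∀ h ∈ H, ∀ x ∈ Y, h * x * h⁻¹ ∈ Y) →
        (∃ a, X.relIndex Y = p ^ a) → Y = X := by
  classical
  have hgen : ∀ g, g ∈ H → (∃ e : ℕ, e ≠ 0 ∧ (∀ l : ℕ, l.Prime → l ∣ e → l ∈ S) ∧ g ^ e ∈ Kn) →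
      g ∈ Cl := fun g h1 h2 => by
    rw [hCl]
    exact Subgroup.subset_closure ⟨h1, h2⟩
  have hKCl : Kn ≤ Cl := fun g hg => hgen g (hKH hg) ⟨1, one_ne_zero, fun l hl h =>
    absurd h hl.not_dvd_one, by rwa [pow_one]⟩
  have hClH : Cl ≤ H := by
    rw [hCl, Subgroup.closure_le]
    exact fun g hg => hg.1
  have hCln : ∀ h ∈ H, ∀ x ∈ Cl, h * x * h⁻¹ ∈ Cl := by
    intro h hh x hx
    have h1 : Cl ≤ Cl.comap (MulAut.conj h).toMonoidHom := by
      conv_lhs => rw [hCl]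
      rw [Subgroup.closure_le]
      rintro g ⟨hg, e, he, heS, hge⟩
      show h * g * h⁻¹ ∈ Cl
      refine hgen _ (mul_mem (mul_mem hh hg) (inv_mem hh)) ⟨e, he, heS, ?_⟩
      rw [conj_pow]
      exact hKn.conj_mem _ hge h
    exact h1 hx
  let Q : Subgroup 𝔾 → Prop := fun X => X ≤ H ∧ Cl ≤ X ∧ (∀ h ∈ H, ∀ x ∈ X, h * x * h⁻¹ ∈ X) ∧
    ∀ x ∈ X, ∃ s, x ^ p ^ s ∈ Cl
  have hex : ∃ n, ∃ X, Q X ∧ X.index = n := ⟨_, Cl, ⟨hClH, le_rfl, hCln, fun x hx =>
    ⟨0, by rwa [pow_zero, pow_one]⟩⟩, rfl⟩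
  obtain ⟨X, hQ, hXn⟩ := Nat.find_spec hex
  have hmin : ∀ Y, Q Y → X.index ≤ Y.index := fun Y hY => by
    rw [hXn]
    exact Nat.find_min' hex ⟨Y, hY, rfl⟩
  obtain ⟨hXH, hClX, hXc, hXp⟩ := hQ
  have hKX : Kn ≤ X := hKCl.trans hClX
  have hXi : X.index ≠ 0 := fun h => hKi (Nat.eq_zero_of_zero_dvd (h ▸ Subgroup.index_dvd_of_le hKX))
  refine ⟨X, hXH, hClX, hKX, hXc, hXp, ?_, ?_⟩
  · intro l hlS hl hd
    have hXn' : (X.subgroupOf H).Normal := ⟨fun n hn g => hXc g g.2 n hn⟩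
    have hXf : (X.subgroupOf H).FiniteIndex := ⟨fun h0 =>
      hXi (Subgroup.index_eq_zero_of_relIndex_eq_zero h0)⟩
    have hfin : Finite (H ⧸ X.subgroupOf H) := inferInstance
    have hlf : Fact l.Prime := ⟨hl⟩
    obtain ⟨q, hq⟩ := exists_prime_orderOf_dvd_card' (G := H ⧸ X.subgroupOf H) l hd
    obtain ⟨g, rfl⟩ := QuotientGroup.mk_surjective q
    have hfK : Kn.FiniteIndex := ⟨hKi⟩
    have hfinK : Finite (𝔾 ⧸ Kn) := inferInstance
    have hn0 : orderOf ((g : 𝔾) : 𝔾 ⧸ Kn) ≠ 0 := (orderOf_pos _).ne'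
    obtain ⟨a, b, hb, hab⟩ := Nat.exists_eq_pow_mul_and_not_dvd hn0 l hl.ne_one
    have h1 : (g : 𝔾) ^ b ∈ Cl := by
      refine hgen _ (H.pow_mem g.2 b) ⟨l ^ a, pow_ne_zero _ hl.ne_zero, fun l' hl' hd' => ?_, ?_⟩
      · rw [(Nat.prime_dvd_prime_iff_eq hl' hl).1 (hl'.dvd_of_dvd_pow hd')]
        exact hlS
      · rw [← pow_mul, mul_comm b, ← hab, ← QuotientGroup.eq_one_iff, QuotientGroup.mk_pow,
          pow_orderOf_eq_one]
    have h2 : ((g ^ b : H) : H ⧸ X.subgroupOf H) = 1 := (QuotientGroup.eq_one_iff _).2 (hClX h1)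
    rw [QuotientGroup.mk_pow] at h2
    have h3 := orderOf_dvd_of_pow_eq_one h2
    rw [hq] at h3
    exact hb h3
  · rintro Y hXY hYH hYc ⟨a, ha⟩
    have hXn' : (X.subgroupOf Y).Normal := ⟨fun n hn g => hXc g (hYH g.2) n hn⟩
    have hQY : Q Y := by
      refine ⟨hYH, hClX.trans hXY, hYc, fun y hy => ?_⟩
      have h1 := (X.subgroupOf Y).pow_index_mem ⟨y, hy⟩
      have h2 : (X.subgroupOf Y).index = p ^ a := ha
      rw [h2] at h1
      obtain ⟨s, hs⟩ := hXp _ (show y ^ p ^ a ∈ X from h1)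
      refine ⟨a + s, ?_⟩
      rw [pow_add, pow_mul]
      exact hs
    have h1 := hmin Y hQY
    have h2 := Subgroup.relIndex_mul_index hXY
    have hY0 : 0 < Y.index := Nat.pos_of_ne_zero fun h0 => hXi (by rw [← h2, h0, mul_zero])
    have h3 : X.relIndex Y = 1 := by
      have h4 : X.relIndex Y ≤ 1 := by
        by_contra h5
        have h6 : 2 * Y.index ≤ X.relIndex Y * Y.index := Nat.mul_le_mul_right _ (by omega)
        omega
      have h5 : X.relIndex Y ≠ 0 := by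
        rw [ha]
        exact pow_ne_zero _ hp.out.ne_zero
      omega
    exact le_antisymm (Subgroup.relIndex_eq_one.1 h3) hXY

end Grp

theorem exists_base_field {p : ℕ} [hp : Fact p.Prime] {S : Set ℕ} {E N : IntermediateField ℚ Qb}
    [hNf : FiniteDimensional ℚ N] [hNg : IsGalois ℚ N] (hEN : E ≤ N) :
    ∃ M : IntermediateField ℚ Qb, E ≤ M ∧ M ≤ N ∧ Stable E M ∧ Reduced p S E M ∧
      ∀ x ∈ M.fixingSubgroup, ∃ s, x ^ p ^ s ∈ Subgroup.closure (SEl S M N) := by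
  classical
  have hKnn : N.fixingSubgroup.Normal := (InfiniteGalois.normal_iff_isGalois N).2 hNg
  have hEf : FiniteDimensional ℚ E :=
    Submodule.finiteDimensional_of_le (S₁ := Subalgebra.toSubmodule E.toSubalgebra)
      (S₂ := Subalgebra.toSubmodule N.toSubalgebra) hEN
  obtain ⟨X, hXH, hClX, hKX, hXc, hXp, hXS, hXm⟩ := exists_min (p := p) (S := S)
    (H := E.fixingSubgroup) (Kn := N.fixingSubgroup) (fixingSubgroup_le hEN) (index_ne_zero' N)
    (Subgroup.closure (SEl S E N)) rfl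
  have hXo : IsOpen (X : Set Gal(Qb/ℚ)) := Subgroup.isOpen_mono hKX N.fixingSubgroup_isOpen
  have hXi : X.index ≠ 0 := fun h =>
    index_ne_zero' N (Nat.eq_zero_of_zero_dvd (h ▸ Subgroup.index_dvd_of_le hKX))
  have hfix := fix_fixed hXo
  have hfd := finite_fixed hXo hXi
  have hEM : E ≤ fixedField X := (le_iff_le _ _).2 hXH
  have hMN : fixedField X ≤ N := by
    rw [← InfiniteGalois.fixedField_fixingSubgroup N]
    exact fixedField_antitone hKX
  refine ⟨fixedField X, hEM, hMN, ?_, ⟨?_, ?_⟩, ?_⟩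
  · intro σ hσ x hx
    rw [mem_fixedField_iff] at hx ⊢
    intro w hw
    have h1 : σ⁻¹ * w * σ⁻¹⁻¹ ∈ X := hXc _ (inv_mem hσ) w hw
    have h2 : w (σ x) = σ ((σ⁻¹ * w * σ⁻¹⁻¹) x) := by
      rw [← AlgEquiv.mul_apply, ← AlgEquiv.mul_apply]
      congr 1
      group
    rw [h2, hx _ h1]
  · intro l hlS hl hd
    apply hXS l hlS hl
    rw [finrank_eq_fixingSubgroup_index, finrank_eq_fixingSubgroup_index, hfix,
      ← Subgroup.relIndex_mul_index hXH, Nat.mul_div_cancel _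
        (Nat.pos_of_ne_zero (index_ne_zero' E))] at hd
    exact hd
  · rintro M' hEM' hM'M hst ⟨a, ha⟩
    have hM'f : FiniteDimensional ℚ M' :=
      Submodule.finiteDimensional_of_le (S₁ := Subalgebra.toSubmodule M'.toSubalgebra)
        (S₂ := Subalgebra.toSubmodule (fixedField X).toSubalgebra) hM'M
    have hXY : X ≤ M'.fixingSubgroup := by
      rw [← hfix]
      exact fixingSubgroup_le hM'M
    have h1 := hXm M'.fixingSubgroup hXY (fixingSubgroup_le hEM') (by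
      intro h hh x hx
      rw [IntermediateField.mem_fixingSubgroup_iff] at hx ⊢
      intro y hy
      show h (x (h⁻¹ y)) = y
      rw [hx _ (hst _ (inv_mem hh) y hy), ← AlgEquiv.mul_apply, mul_inv_cancel,
        AlgEquiv.one_apply]) ⟨a, by
        rw [finrank_eq_fixingSubgroup_index, finrank_eq_fixingSubgroup_index, hfix,
          ← Subgroup.relIndex_mul_index hXY] at ha
        exact Nat.eq_of_mul_eq_mul_right (Nat.pos_of_ne_zero (index_ne_zero' M')) ha⟩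
    rw [← InfiniteGalois.fixedField_fixingSubgroup M', h1]
  · intro x hx
    rw [hfix] at hx
    obtain ⟨s, hs⟩ := hXp x hx
    refine ⟨s, ?_⟩
    have hle : Subgroup.closure (SEl S E N) ≤ Subgroup.closure (SEl S (fixedField X) N) := by
      rw [Subgroup.closure_le]
      intro g hg
      refine Subgroup.subset_closure ⟨?_, hg.2⟩
      rw [hfix]
      exact hClX (Subgroup.subset_closure hg)
    exact hle hs

end Pool.Agent.J4.H58.MUR
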