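import Pool.Agent.J4.H58.MUR.Cen
import Pool.Agent.J4.H58.MUR.Sel

/-!
# `μ = 0` for CM fields and for totally real fields
-/

set_option autoImplicit false

namespace Pool.Agent.J4.H58.MUR

open IntermediateField Module Pool.Agent.Q60.MU NumberField
open Pool.Agent.W5h77.MB (realSub mem_realSub fix_real exists_conj)
open Pool.Agent.J4.H53.IW (IsFin)
open scoped Pointwise ComplexConjugate

variable {c : Gal(Qb/ℚ)} {F F' : IntermediateField ℚ Qb}

theorem fd_of_le (h : F ≤ F') [hF' : FiniteDimensional ℚ F'] : FiniteDimensional ℚ F :=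
  Submodule.finiteDimensional_of_le (S₁ := Subalgebra.toSubmodule F.toSubalgebra)
    (S₂ := Subalgebra.toSubmodule F'.toSubalgebra) h

theorem conj_fix (hcc : c * c = 1) (h : Cen c F) {u : Gal(Qb/ℚ)} (hu : u ∈ F.fixingSubgroup) :
    c * u * c ∈ F.fixingSubgroup := by
  rw [IntermediateField.mem_fixingSubgroup_iff] at hu ⊢
  intro x hx
  show c (u (c x)) = x
  rw [hu _ (h.map_mem hx), ← AlgEquiv.mul_apply, hcc, AlgEquiv.one_apply]

/-- Galois closures of totally real fields. -/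
theorem exists_galois_real (hF : IsFin F) (h : TotReal F) :
    ∃ N : IntermediateField ℚ Qb, FiniteDimensional ℚ N ∧ IsGalois ℚ N ∧ F ≤ N ∧ TotReal N := by
  obtain ⟨ι⟩ := Pool.Agent.J4.H53.IW.nonempty_iota
  obtain ⟨c, hc, -⟩ := exists_conj ι
  have hFf : FiniteDimensional ℚ F := hF
  have hUf : F.fixingSubgroup.FiniteIndex := ⟨index_ne_zero' F⟩
  set K := F.fixingSubgroup.normalCore with hKdef
  have hKn : K.Normal := Subgroup.normalCore_normal _
  have hKo : IsOpen (K : Set Gal(Qb/ℚ)) :=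
    isOpen_normalCore F.fixingSubgroup_isOpen (index_ne_zero' F)
  have hKf : K.index ≠ 0 := by
    have : K.FiniteIndex := F.fixingSubgroup.finiteIndex_normalCore
    exact Subgroup.FiniteIndex.index_ne_zero
  have hfix := fix_fixed hKo
  refine ⟨fixedField K, finite_fixed hKo hKf,
    (InfiniteGalois.normal_iff_isGalois (fixedField K)).1 (by rw [hfix]; exact hKn),
    (le_iff_le _ _).2 (Subgroup.normalCore_le _), ?_⟩
  rw [totReal_iff hc] at h ⊢
  intro g x hx
  have h1 : g⁻¹ * c * g ∈ K := by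
    intro b
    rw [IntermediateField.mem_fixingSubgroup_iff]
    intro y hy
    have h2 := h (g * b⁻¹) y hy
    have h4 : b * (g⁻¹ * c * g) * b⁻¹ = (g * b⁻¹)⁻¹ * (c * (g * b⁻¹)) := by group
    have h3 : (b * (g⁻¹ * c * g) * b⁻¹) y = (g * b⁻¹)⁻¹ (c ((g * b⁻¹) y)) := by
      rw [h4]
      rfl
    rw [h3, h2, ← AlgEquiv.mul_apply, inv_mul_cancel, AlgEquiv.one_apply]
  rw [mem_fixedField_iff] at hx
  have h2 := hx _ h1
  have h3 : c (g x) = g ((g⁻¹ * c * g) x) := by
    rw [← AlgEquiv.mul_apply, ← AlgEquiv.mul_apply]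
    congr 1
    group
  rw [h3, h2]

theorem exists_galois' (hF : IsFin F) :
    ∃ N : IntermediateField ℚ Qb, FiniteDimensional ℚ N ∧ IsGalois ℚ N ∧ F ≤ N := by
  have hFf : FiniteDimensional ℚ F := hF
  have hUf : F.fixingSubgroup.FiniteIndex := ⟨index_ne_zero' F⟩
  set K := F.fixingSubgroup.normalCore with hKdef
  have hKn : K.Normal := Subgroup.normalCore_normal _
  have hKo : IsOpen (K : Set Gal(Qb/ℚ)) :=
    isOpen_normalCore F.fixingSubgroup_isOpen (index_ne_zero' F)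
  have hKf : K.index ≠ 0 := by
    have : K.FiniteIndex := F.fixingSubgroup.finiteIndex_normalCore
    exact Subgroup.FiniteIndex.index_ne_zero
  have hfix := fix_fixed hKo
  exact ⟨fixedField K, finite_fixed hKo hKf,
    (InfiniteGalois.normal_iff_isGalois (fixedField K)).1 (by rw [hfix]; exact hKn),
    (le_iff_le _ _).2 (Subgroup.normalCore_le _)⟩

/-- degrees of real subfields -/
theorem finrank_real {ι : Qb →+* ℂ} (hc : ∀ x, ι (c x) = conj (ι x)) (hcc : c * c = 1)
    [FiniteDimensional ℚ F] (h : Cen c F) (hcF : c ∉ F.fixingSubgroup) :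
    finrank ℚ F = 2 * finrank ℚ ↥(F ⊓ realSub ι) := by
  have hle : F.fixingSubgroup ≤ (F ⊓ realSub ι).fixingSubgroup := fixingSubgroup_le inf_le_left
  rw [finrank_eq_fixingSubgroup_index, finrank_eq_fixingSubgroup_index,
    ← Subgroup.relIndex_mul_index hle]
  congr 1
  rw [Subgroup.relIndex_eq_two_iff]
  have hcm : c * c ∈ F.fixingSubgroup := by rw [hcc]; exact one_mem _
  refine ⟨c, (mem_fix_real hc hcc h).2 (Or.inr hcm), fun b hb => ?_⟩
  rcases (mem_fix_real hc hcc h).1 hb with h1 | h1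
  · refine Or.inr ⟨h1, fun h2 => hcF ?_⟩
    have h3 : c = b⁻¹ * (b * c) := by rw [inv_mul_cancel_left]
    rw [h3]
    exact mul_mem (inv_mem h1) h2
  · refine Or.inl ⟨?_, fun h2 => hcF ?_⟩
    · have h3 := conj_fix hcc h h1
      rwa [← mul_assoc, hcc, one_mul] at h3
    · have h3 : c = (c * b) * b⁻¹ := by rw [mul_inv_cancel_right]
      rw [h3]
      exact mul_mem h1 (inv_mem h2)

theorem sup_real {ι : Qb →+* ℂ} (hc : ∀ x, ι (c x) = conj (ι x)) (hcc : c * c = 1)
    [FiniteDimensional ℚ F] (h : Cen c F) {E : IntermediateField ℚ Qb} (hE : E ≤ F)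
    (hcE : c ∉ E.fixingSubgroup) : F ⊓ realSub ι ⊔ E = F := by
  have h1 : (F ⊓ realSub ι ⊔ E).fixingSubgroup = F.fixingSubgroup := by
    rw [fixingSubgroup_sup]
    apply le_antisymm
    · rintro x ⟨hx1, hx2⟩
      rcases (mem_fix_real hc hcc h).1 hx1 with h2 | h2
      · exact h2
      · exfalso
        apply hcE
        have h3 : c = (c * x) * x⁻¹ := by rw [mul_inv_cancel_right]
        rw [h3]
        exact mul_mem (fixingSubgroup_le hE h2) (inv_mem hx2)
    · exact le_inf (fixingSubgroup_le inf_le_left) (fixingSubgroup_le hE)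
  rw [← InfiniteGalois.fixedField_fixingSubgroup (F ⊓ realSub ι ⊔ E), h1,
    InfiniteGalois.fixedField_fixingSubgroup]

/-- The extensions `L/K` of totally real fields, of degree `l ∈ S`, of the theorem on CM fields. -/
def RealStep (S : Set ℕ) (q : ℕ) (E k : IntermediateField ℚ Qb) (l : ℕ)
    (K L : IntermediateField ℚ Qb) : Prop :=
  l.Prime ∧ l ∈ S ∧ IsFin L ∧ TotReal L ∧ (∀ F ≤ E, TotReal F → F ≤ K) ∧ UnramifiedStep l K L ∧
    LocallyContains q K (L ⊔ E ⊔ k)

theorem cm_mu {p : ℕ} (hp : p.Prime) (hp2 : p ≠ 2) {R : ℕ → IntermediateField ℚ Qb}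
    (hR : ∀ m, Pool.Agent.W5h77.MB.IsLayer p m (R m)) {S : Set ℕ} (hS : p ∉ S)
    {E k : IntermediateField ℚ Qb}
    (hE : IsFin E) (hEcm : IsCMField E) (hk : IsFin k) {q : ℕ} (hq : q ≠ 0)
    (hmu : ∀ M : IntermediateField ℚ Qb, IsFin M → IsCMField M → E ≤ M → Stable E M →
      Reduced p S E M → MuZero p R M)
    (h : ∀ l K L, RealStep S q E k l K L → RelBounded p R (K ⊔ E) (L ⊔ E))
    (hF : IsFin F) (hFcm : IsCMField F) : MuZero p R F := by
  obtain ⟨ι⟩ := Pool.Agent.J4.H53.IW.nonempty_iota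
  obtain ⟨c, hc, hcc⟩ := exists_conj ι
  obtain ⟨hEc, x₀, hx₀, hcx₀⟩ := cen_of_isCM hc hE hEcm
  obtain ⟨hFc, -⟩ := cen_of_isCM hc hF hFcm
  have hcE : c ∉ E.fixingSubgroup := fun h1 =>
    hcx₀ ((IntermediateField.mem_fixingSubgroup_iff _ _).1 h1 _ hx₀)
  have hEf : FiniteDimensional ℚ E := hE
  have hFf : FiniteDimensional ℚ F := hF
  have hkf : FiniteDimensional ℚ k := hk
  obtain ⟨N, hNf, hNg, hFEN, hNc⟩ := exists_galois_cen (c := c)
    (show IsFin (F ⊔ E) from IntermediateField.finiteDimensional_sup F E) (hFc.sup hEc)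
  have hEN : E ≤ N := le_sup_right.trans hFEN
  obtain ⟨G, hGf, hGg, hG⟩ := exists_galois'
    (show IsFin (N ⊔ k) from IntermediateField.finiteDimensional_sup N k)
  obtain ⟨K', hK'f, hreal, hgen, hdec, hun⟩ := exists_base_real G hq
  have hK'r : TotReal K' := real_iff_le hc hreal
  have hGNk : G.fixingSubgroup ≤ (N ⊔ k).fixingSubgroup := fixingSubgroup_le hG
  have hGN : G.fixingSubgroup ≤ N.fixingSubgroup := fixingSubgroup_le (le_sup_left.trans hG)
  have hGk : G.fixingSubgroup ≤ k.fixingSubgroup := fixingSubgroup_le (le_sup_right.trans hG)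
  have hGE : G.fixingSubgroup ≤ E.fixingSubgroup := hGN.trans (fixingSubgroup_le hEN)
  have hNKc : Cen c (N ⊔ K') := hNc.sup (cen_of_real hc hK'r)
  have hpf : Fact p.Prime := ⟨hp⟩
  obtain ⟨M, hEM, hMN, hst, hred, hMS⟩ := exists_base_field (p := p) (S := S) hEN
  have hMf : FiniteDimensional ℚ M := fd_of_le hMN
  have hGM : G.fixingSubgroup ≤ M.fixingSubgroup := hGN.trans (fixingSubgroup_le hMN)
  have hMcm : IsCMField M := isCM_of_cen hc hMf (hNc.mono hMN) (hEM hx₀) hcx₀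
  have hK'M : FiniteDimensional ℚ ↥(K' ⊔ M) := IntermediateField.finiteDimensional_sup K' M
  have hNK' : FiniteDimensional ℚ ↥(N ⊔ K') := IntermediateField.finiteDimensional_sup N K'
  have hEq : N ⊔ (K' ⊔ M) = N ⊔ K' :=
    le_antisymm (sup_le le_sup_left (sup_le le_sup_right (hMN.trans le_sup_left)))
      (sup_le_sup_left le_sup_left _)
  have hmuN : MuZero p R N := by
    refine mu_of_steps_sel hp hp2 hR (E := M) (K' := K' ⊔ M) hMN le_sup_right (fun g hg => ?_)
      (fun A σ hσ => ?_) (hmu M hMf hMcm hEM hst hred) hS hMS ?_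
    · obtain ⟨n, hn, a, ha, hna⟩ := hgen g
      refine ⟨n, hGN hn, a, ?_, hna⟩
      rw [fixingSubgroup_sup]
      refine ⟨ha, ?_⟩
      have h1 : a = n⁻¹ * g := by rw [hna, inv_mul_cancel_left]
      rw [h1]
      exact M.fixingSubgroup.mul_mem (M.fixingSubgroup.inv_mem (hGM hn)) hg
    · refine hGN (hun A ⟨hσ.1, ?_⟩)
      have h1 := hσ.2
      rw [fixingSubgroup_sup] at h1
      exact h1.1
    · intro l K₁ L₁ hl hlp hK hL hs
      rw [hEq] at hL
      have hKL : K₁ ≤ L₁ := hs.1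
      have hL₁f : FiniteDimensional ℚ L₁ := fd_of_le hL
      have hK₁f : FiniteDimensional ℚ K₁ := fd_of_le hKL
      have hEK₁ : E ≤ K₁ := hEM.trans (le_sup_right.trans hK)
      have hK'K₁ : K' ≤ K₁ := le_sup_left.trans hK
      have hL₁c : Cen c L₁ := hNKc.mono hL
      have hK₁c : Cen c K₁ := hL₁c.mono hKL
      have hcK₁ : c ∉ K₁.fixingSubgroup := fun h1 => hcE (fixingSubgroup_le hEK₁ h1)
      have hcL₁ : c ∉ L₁.fixingSubgroup := fun h1 => hcK₁ (fixingSubgroup_le hKL h1)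
      have hmem : ∀ {x : Qb}, x ∈ realSub ι ↔ c x = x := fun {x} => mem_realSub' hc
      have hK'K₀ : K' ≤ K₁ ⊓ realSub ι := le_inf hK'K₁ (hreal ι)
      have hL₀r : TotReal (L₁ ⊓ realSub ι) :=
        real_of_cen hc (hL₁c.mono inf_le_left) fun x hx => hmem.1 hx.2
      have e1 := sup_real hc hcc hK₁c hEK₁ hcE
      have e2 := sup_real hc hcc hL₁c (hEK₁.trans hKL) hcE
      rw [← e1, ← e2]
      have hfixL : ∀ σ ∈ K'.fixingSubgroup, σ ∈ G.fixingSubgroup →
          σ ∈ (L₁ ⊓ realSub ι).fixingSubgroup := by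
        intro σ hσ hσG
        have h1 : σ ∈ (N ⊔ K').fixingSubgroup := by
          rw [fixingSubgroup_sup]
          exact ⟨hGN hσG, hσ⟩
        exact fixingSubgroup_le (inf_le_left.trans hL) h1
      refine h l (K₁ ⊓ realSub ι) (L₁ ⊓ realSub ι) ⟨hl, hlp, fd_of_le inf_le_left, hL₀r, ?_,
        ⟨inf_le_inf_right _ hKL, ?_, ?_, ?_⟩, ?_⟩
      · intro F₁ hF₁ hF₁r
        refine le_inf (hF₁.trans hEK₁) fun x hx => hmem.2 ?_
        have h1 := (totReal_iff hc).1 hF₁r 1 x hx
        rwa [AlgEquiv.one_apply] at h1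
      · have h1 := hs.2.1
        rw [finrank_real hc hcc hK₁c hcK₁, finrank_real hc hcc hL₁c hcL₁] at h1
        have h2 : 2 * finrank ℚ ↥(L₁ ⊓ realSub ι) = 2 * (l * finrank ℚ ↥(K₁ ⊓ realSub ι)) := by
          rw [h1]
          ring
        exact Nat.eq_of_mul_eq_mul_left two_pos h2
      · intro σ hσ x hx
        have key : ∀ u ∈ K₁.fixingSubgroup, u x ∈ L₁ ⊓ realSub ι := by
          intro u hu
          refine ⟨hs.2.2.1 u hu x hx.1, hmem.2 ?_⟩
          rw [hL₁c.comm u hx.1, hmem.1 hx.2]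
        rcases (mem_fix_real hc hcc hK₁c).1 hσ with h1 | h1
        · exact key σ h1
        · have h2 := key _ h1
          have h3 : c ((c * σ) x) = σ x := by
            rw [← AlgEquiv.mul_apply, ← mul_assoc, hcc, one_mul]
          have h4 := hmem.1 h2.2
          rw [h3] at h4
          rw [h4]
          exact h2
      · intro A σ hσA hσ x hx
        have hσ' : σ ∈ K'.fixingSubgroup := fixingSubgroup_le hK'K₀ hσ
        exact (IntermediateField.mem_fixingSubgroup_iff _ _).1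
          (hfixL σ hσ' (hun A ⟨hσA, hσ'⟩)) x hx
      · intro A hA σ hσ hσA x hx
        have hσ' : σ ∈ K'.fixingSubgroup := fixingSubgroup_le hK'K₀ hσ
        have hσG := hdec A hA σ hσ' hσA
        have h3 : σ ∈ (L₁ ⊓ realSub ι ⊔ E ⊔ k).fixingSubgroup := by
          rw [fixingSubgroup_sup, fixingSubgroup_sup]
          exact ⟨⟨hfixL σ hσ' hσG, hGE hσG⟩, hGk hσG⟩
        exact (IntermediateField.mem_fixingSubgroup_iff _ _).1 h3 x hx
  have hRf : ∀ m, FiniteDimensional ℚ (R m) := fun m => Pool.Agent.W5h77.MB.layer_fd hp (hR m)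
  have hDo : ∀ m, IsOpen ((R m).fixingSubgroup : Set Gal(Qb/ℚ)) := fun m => by
    have := hRf m
    exact (R m).fixingSubgroup_isOpen
  have hKn : N.fixingSubgroup.Normal := (InfiniteGalois.normal_iff_isGalois N).2 hNg
  rw [← mu_iff hRf]
  exact Mu0.of_le hDo hKn (fixingSubgroup_le (le_sup_left.trans hFEN)) N.fixingSubgroup_isOpen
    (index_ne_zero' N) ((mu_iff hRf N).2 hmuN)

/-- The composite of a totally real field and a CM field. -/
theorem isCM_sup {E L : IntermediateField ℚ Qb} (hE : IsFin E) (hEcm : IsCMField E)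
    (hL : IsFin L) (hLr : TotReal L) : IsCMField ↥(L ⊔ E) := by
  obtain ⟨ι⟩ := Pool.Agent.J4.H53.IW.nonempty_iota
  obtain ⟨c, hc, hcc⟩ := exists_conj ι
  obtain ⟨hEc, x₀, hx₀, hcx₀⟩ := cen_of_isCM hc hE hEcm
  have hEf : FiniteDimensional ℚ E := hE
  have hLf : FiniteDimensional ℚ L := hL
  exact isCM_of_cen hc (show IsFin (L ⊔ E) from IntermediateField.finiteDimensional_sup L E)
    ((cen_of_real hc hLr).sup hEc) ((le_sup_right : E ≤ L ⊔ E) hx₀) hcx₀

end Pool.Agent.J4.H58.MUR
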