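import Pool.Agent.J4.H58.MUR.Step2

/-!
# The group theoretical theorem
-/

set_option autoImplicit false

namespace Pool.Agent.J4.H58.MUR

open Module Subgroup Pool.Agent.Q60.MU
open scoped commutatorElement

variable {𝔾 : Type} [Group 𝔾]

section

variable {p : ℕ} [hp : Fact p.Prime] {K D W : Subgroup 𝔾} (r : RepData p K D W)

include r in
theorem RepData.relIndex_self (hWK : W ≤ K) : W.relIndex K = p ^ finrank (ZMod p) r.V := by
  have h1 := r.relIndex_pre (A₁ := K) le_rfl (X := ⊥) bot_le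
  have h2 : r.img K = ⊤ := by
    rw [eq_top_iff]
    intro v _
    obtain ⟨x, rfl⟩ := r.hs v
    exact ⟨x, x.2, rfl⟩
  have h3 : r.pre K ⊥ = W := by
    apply le_antisymm
    · rintro x ⟨_, h4, h5⟩
      exact (r.h0 ⟨x, h4⟩).1 ((Submodule.mem_bot _).1 h5)
    · intro x hx
      exact ⟨hWK hx, hWK hx, (Submodule.mem_bot _).2 ((r.h0 _).2 hx)⟩
  rw [h2, h3, finrank_bot, pow_zero, mul_one, finrank_top] at h1
  exact h1

theorem RepData.le_of_index {X : Submodule (ZMod p) r.V} {c : ℕ}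
    (h : (r.pre K X).relIndex K ≤ c) : finrank (ZMod p) r.V ≤ finrank (ZMod p) X + c := by
  have h1 := r.relIndex_pre (A₁ := K) le_rfl (X := X) (by
    intro v _
    obtain ⟨x, rfl⟩ := r.hs v
    exact ⟨x, x.2, rfl⟩)
  have h2 : r.img K = ⊤ := by
    rw [eq_top_iff]
    intro v _
    obtain ⟨x, rfl⟩ := r.hs v
    exact ⟨x, x.2, rfl⟩
  rw [h2, finrank_top] at h1
  have hp1 : 1 < p := hp.out.one_lt
  have h3 : p ^ finrank (ZMod p) r.V ≤ p ^ (finrank (ZMod p) X + c) := by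
    rw [← h1, pow_add, mul_comm]
    refine Nat.mul_le_mul_left _ (h.trans (Nat.lt_pow_self hp1).le)
  exact (Nat.pow_le_pow_iff_right hp1).1 h3

end

/-- **The group theoretical theorem.** -/
theorem group_main {p : ℕ} [hp : Fact p.Prime] [TopologicalSpace 𝔾] [ContinuousMul 𝔾] {Ω : Type}
    [MulAction 𝔾 Ω] {I : Ω → Subgroup 𝔾}
    (hI : ∀ (g : 𝔾) (w : Ω), ∀ x ∈ I w, g * x * g⁻¹ ∈ I (g • w))
    {Kn D A' : Subgroup 𝔾} [hKnn : Kn.Normal] [hDn : D.Normal]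
    (hKf : Kn.index ≠ 0) {m : ℕ} (hDi : D.index = p ^ m)
    (hAo : IsOpen (A' : Set 𝔾)) (hAi : A'.index ≠ 0)
    (hgen : ∀ g : 𝔾, ∃ k ∈ Kn, ∃ a ∈ A', g = k * a) (hun : ∀ w, I w ⊓ A' ≤ Kn)
    {t : ℕ} (T : Finset Ω) (hTt : T.card ≤ t)
    (hT : ∀ w, I w ⊓ D ≤ Kn ∨ ∃ u ∈ T, ∃ d ∈ D, w = d • u) {C : ℕ}
    (hrel : ∀ a ∈ A', ∀ j l s : ℕ, l.Prime → j * l * s = orderOf (a : 𝔾 ⧸ Kn) →
      ¬ p ∣ orderOf (a : 𝔾 ⧸ Kn) →
      RelLe p I ((cy Kn (a ^ j) ⊓ A') ⊓ D) ((cy Kn (a ^ (j * l)) ⊓ A') ⊓ D) C)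
    {C0 : ℕ} (hC0 : RankLe p I D C0) :
    RankLe p I (Kn ⊓ D) (p ^ (Kn.index * (Kn.index * C + A'.index) +
      Kn.index * (cst Kn.index t * C0))) := by
  classical
  intro W₀ hW₀K hW₀o hW₀f hg₀
  have hp1 : 1 < p := hp.out.one_lt
  have hKD : Kn ⊓ D ≤ D := inf_le_right
  have hKc : ∀ d ∈ D, ∀ x ∈ Kn ⊓ D, d * x * d⁻¹ ∈ Kn ⊓ D := fun d hd x hx =>
    ⟨hKnn.conj_mem x hx.1 d, D.mul_mem (D.mul_mem hd hx.2) (D.inv_mem hd)⟩
  have h1 : (Kn ⊓ D).relIndex D = Kn.relIndex D := inf_relIndex_right Kn D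
  have h2 : Kn.relIndex D ∣ Kn.index := relIndex_dvd_index_of_normal Kn D
  have h3 : (Kn ⊓ D).relIndex D ≠ 0 := by
    rw [h1]
    intro h
    rw [h] at h2
    exact hKf (Nat.eq_zero_of_zero_dvd h2)
  have h4 : (Kn ⊓ D).relIndex D ≤ Kn.index := by
    rw [h1]
    exact Nat.le_of_dvd (Nat.pos_of_ne_zero hKf) h2
  obtain ⟨W, hWW₀, hWo, hWf, hg, hWn⟩ := exists_core hI hKc h3 hW₀K hW₀o hW₀f hg₀
  have hWK : W ≤ Kn ⊓ D := hWW₀.trans hW₀K
  refine (relIndex_le_of_le_left hWW₀ hWf).trans ?_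
  obtain ⟨V, i1, i2, i3, ρ, π, hs, ha, h0, hρ⟩ := exists_rep hKD hKc hWf hg hWn
  let r : RepData p (Kn ⊓ D) D W :=
    { hKD := hKD, hKn := hKc, V := V, i1 := i1, i2 := i2, i3 := i3, ρ := ρ, π := π, hs := hs,
      ha := ha, h0 := h0, hρ := hρ }
  rw [r.relIndex_self hWK]
  refine Nat.pow_le_pow_right hp1.le ?_
  have hKDi : (Kn ⊓ D).index ≠ 0 := index_inf_ne_zero hKf (by
    rw [hDi]
    exact pow_ne_zero _ hp.out.ne_zero)
  have hWi : W.index ≠ 0 := by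
    rw [← relIndex_mul_index hWK]
    exact mul_ne_zero hWf hKDi
  have htriv : ∀ g : D, (g : 𝔾) ∈ Kn → ∀ v, r.ρ g v = v := fun g hgK v =>
    triv_of_gens r hg ⟨hgK, g.2⟩ v
  -- the bound for one element
  have hone : ∀ (g : D) (e : ℕ), ¬ p ∣ e → g ^ e ∈ (Kn ⊓ D).subgroupOf D →
      finrank (ZMod p) (LinearMap.range (r.ρ g - 1)) ≤ Kn.index * C + A'.index := by
    intro g e hpe hge
    set e0 : ℕ := orderOf ((g : 𝔾) : 𝔾 ⧸ Kn) with he0
    have hge' : (g : 𝔾) ^ e ∈ Kn := hge.1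
    have he0e : e0 ∣ e := by
      rw [he0, orderOf_dvd_iff_pow_eq_one, ← QuotientGroup.mk_pow, QuotientGroup.eq_one_iff]
      exact hge'
    have hpe0 : ¬ p ∣ e0 := fun h => hpe (h.trans he0e)
    have he00 : e0 ≠ 0 := by
      intro h
      rw [h] at hpe0
      exact hpe0 (dvd_zero p)
    have he0n : e0 ≤ Kn.index := by
      have hfi : Kn.FiniteIndex := ⟨hKf⟩
      have hfin : Finite (𝔾 ⧸ Kn) := inferInstance
      exact Nat.le_of_dvd (Nat.pos_of_ne_zero hKf) (orderOf_dvd_natCard _)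
    obtain ⟨k, hk, a0, ha0, hka⟩ := hgen g
    set tt : ℕ := m * Nat.totient e0 with htt
    have htm : m ≤ tt := Nat.le_mul_of_pos_right _ (Nat.totient_pos.2 (Nat.pos_of_ne_zero he00))
    set a : 𝔾 := a0 ^ p ^ tt with hadef
    have haA : a ∈ A' := A'.pow_mem ha0 _
    have haD : a ∈ D := by
      obtain ⟨u, hu⟩ := Nat.exists_eq_add_of_le htm
      rw [hadef, hu, pow_add, pow_mul, ← hDi]
      exact D.pow_mem (D.pow_index_mem a0) _
    have hq0 : ((a0 : 𝔾) : 𝔾 ⧸ Kn) = ((g : 𝔾) : 𝔾 ⧸ Kn) := by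
      rw [hka, QuotientGroup.mk_mul, (QuotientGroup.eq_one_iff k).2 hk, one_mul]
    have hmod : p ^ tt ≡ 1 [MOD e0] := by
      have h5 : p ^ Nat.totient e0 ≡ 1 [MOD e0] :=
        Nat.ModEq.pow_totient ((Nat.Prime.coprime_iff_not_dvd hp.out).2 hpe0)
      have h6 := h5.pow m
      rw [one_pow, ← pow_mul, mul_comm (Nat.totient e0) m] at h6
      exact h6
    have hqa : ((a : 𝔾) : 𝔾 ⧸ Kn) = ((g : 𝔾) : 𝔾 ⧸ Kn) := by
      rw [hadef, QuotientGroup.mk_pow, hq0]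
      conv_rhs => rw [← pow_one (((g : 𝔾) : 𝔾 ⧸ Kn))]
      exact pow_eq_pow_iff_modEq.2 hmod
    have hae : a ^ e0 ∈ Kn := by
      rw [← QuotientGroup.eq_one_iff, QuotientGroup.mk_pow, hqa, he0, pow_orderOf_eq_one]
    have horda : orderOf ((a : 𝔾) : 𝔾 ⧸ Kn) = e0 := by rw [hqa]
    have hρga : r.ρ g = r.ρ ⟨a, haD⟩ := by
      have h5 : (g : 𝔾) * a⁻¹ ∈ Kn := by
        rw [← QuotientGroup.eq_one_iff, QuotientGroup.mk_mul, QuotientGroup.mk_inv, hqa,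
          mul_inv_cancel]
      have h6 : g = (g * (⟨a, haD⟩ : D)⁻¹) * ⟨a, haD⟩ := by rw [inv_mul_cancel_right]
      ext v
      conv_lhs => rw [h6]
      rw [map_mul, Module.End.mul_apply]
      exact htriv _ h5 _
    rw [hρga]
    set S := r.ρ ⟨a, haD⟩ with hS
    set A₁ : Subgroup 𝔾 := Kn ⊓ D ⊓ A' with hA₁
    set V1 := r.img A₁ with hV1
    have hek : (e0 : ZMod p) ≠ 0 := by
      rw [Ne, ZMod.natCast_eq_zero_iff]
      exact hpe0
    have hSe : S ^ e0 = 1 := by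
      ext v
      rw [hS, ← map_pow]
      exact htriv (⟨a, haD⟩ ^ e0) hae v
    have hSV : ∀ v ∈ V1, S v ∈ V1 := by
      rintro _ ⟨x, hx, rfl⟩
      rw [hS, r.hρ]
      exact ⟨_, ⟨⟨hKnn.conj_mem _ hx.1.1 a, hDn.conj_mem _ hx.1.2 a⟩,
        A'.mul_mem (A'.mul_mem haA hx.2) (A'.inv_mem haA)⟩, rfl⟩
    have hstep : ∀ j l s : ℕ, l.Prime → j * l * s = e0 →
        finrank (ZMod p) (V1.map (S ^ j - 1)) ≤
          finrank (ZMod p) (V1.map (S ^ (j * l) - 1)) + C := by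
      intro j l s hl hjl
      have h5 := step_bound r hg hWK hWo hWi hAo hAi hun haA haD hpe0 hae ⟨s, hjl⟩
        (hrel a haA j l s hl (by rw [horda, hjl]) (by rw [horda]; exact hpe0))
      have h6 : finrank (ZMod p) V1 ≤ finrank (ZMod p) (stepX S V1 j (j * l)) + C := by
        refine (Nat.pow_le_pow_iff_right hp1).1 (h5.trans ?_)
        rw [pow_add, mul_comm]
        exact Nat.mul_le_mul_left _ (Nat.lt_pow_self hp1).le
      have h7 := finrank_step hek hSe hSV j l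
      omega
    have h5 := finrank_le_of_steps hSe he00 hstep
    have h6 := finrank_map_le (S - 1) V1
    have h7 : finrank (ZMod p) r.V ≤ finrank (ZMod p) V1 + A'.index := by
      apply r.le_of_index
      have h8 : A₁ ≤ r.pre (Kn ⊓ D) V1 := fun x hx => ⟨hx.1, hx.1, ⟨⟨x, hx.1⟩, hx, rfl⟩⟩
      have h9 : A₁.relIndex (Kn ⊓ D) = A'.relIndex (Kn ⊓ D) := by
        rw [hA₁, inf_comm]
        exact inf_relIndex_right A' (Kn ⊓ D)
      have h10 : A'.relIndex (Kn ⊓ D) ≠ 0 := fun h =>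
        hAi (index_eq_zero_of_relIndex_eq_zero h)
      have hfiA : A'.FiniteIndex := ⟨hAi⟩
      calc (r.pre (Kn ⊓ D) V1).relIndex (Kn ⊓ D) ≤ A₁.relIndex (Kn ⊓ D) :=
            relIndex_le_of_le_left h8 (by rw [h9]; exact h10)
        _ = A'.relIndex (Kn ⊓ D) := h9
        _ ≤ A'.index := by
          rw [← relIndex_top_right A']
          exact relIndex_le_of_le_right le_top (by rw [relIndex_top_right]; exact hAi)
    have h8 := V1.finrank_quotient_add_finrank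
    calc finrank (ZMod p) (LinearMap.range (S - 1)) ≤ e0 * C + A'.index := by omega
      _ ≤ Kn.index * C + A'.index := Nat.add_le_add_right (Nat.mul_le_mul_right _ he0n) _
  -- the coinvariants
  set c := coinv r.ρ ⊤ with hc
  have hcoinv : finrank (ZMod p) (r.V ⧸ c) ≤ cst Kn.index t * C0 := by
    set Q := r.pre (Kn ⊓ D) c with hQ
    have hQK : Q ≤ Kn ⊓ D := fun x hx => hx.1
    have hWQ : W ≤ Q := by
      intro x hx
      refine ⟨hWK hx, hWK hx, ?_⟩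
      rw [(r.h0 ⟨x, hWK hx⟩).2 hx]
      exact c.zero_mem
    have hQf : Q.relIndex (Kn ⊓ D) ≠ 0 := by
      intro h
      have h5 := relIndex_mul_relIndex W Q (Kn ⊓ D) hWQ hQK
      rw [h, mul_zero] at h5
      exact hWf h5.symm
    have hcc : ∀ l ∈ D, ∀ k ∈ Kn ⊓ D, ⁅l, k⁆ ∈ Q := by
      intro l hl k hk
      have hm : ⁅l, k⁆ ∈ Kn ⊓ D := by
        rw [commutatorElement_def]
        exact (Kn ⊓ D).mul_mem (hKc l hl k hk) ((Kn ⊓ D).inv_mem hk)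
      refine ⟨hm, hm, ?_⟩
      have h1 : r.π ⟨⁅l, k⁆, hm⟩ + r.π ⟨k, hk⟩ = r.ρ ⟨l, hl⟩ (r.π ⟨k, hk⟩) := by
        rw [r.hρ, ← r.ha]
        congr 1
        apply Subtype.ext
        show ⁅l, k⁆ * k = l * k * l⁻¹
        rw [commutatorElement_def]
        group
      have h2 : r.π ⟨⁅l, k⁆, hm⟩ = r.ρ ⟨l, hl⟩ (r.π ⟨k, hk⟩) - r.π ⟨k, hk⟩ := by
        rw [← h1, add_sub_cancel_right]
      rw [h2]
      exact Submodule.subset_span ⟨⟨l, hl⟩, mem_top _, _, rfl⟩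
    have h5 := genus hI (K := Kn ⊓ D) (L := D) (Q := Q) hKD h3 hQK (isOpen_mono hWQ hWo) hQf
      (fun x hx => hWQ (hg hx)) hcc T (fun w => (hT w).imp (fun h => le_inf h inf_le_right) id) hC0
    have h6 : Q.relIndex (Kn ⊓ D) ≤ cst Kn.index t * C0 :=
      h5.trans (Nat.mul_le_mul_right _ (cst_mono (Nat.pos_of_ne_zero h3) h4 hTt))
    have h7 := r.le_of_index h6
    have h8 := c.finrank_quotient_add_finrank
    omega
  have hidx : ((Kn ⊓ D).subgroupOf D).index = (Kn ⊓ D).relIndex D := rfl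
  have hb := rep_bound r.ρ (K₀ := (Kn ⊓ D).subgroupOf D) h3
    ⟨fun q hq l => hKc l l.2 q hq⟩ (fun g hgK x => htriv g hgK.1 x) hone hcoinv
  refine hb.trans ?_
  rw [hidx]
  exact Nat.add_le_add (Nat.mul_le_mul_right _ h4) (Nat.mul_le_mul_right _ h4)

end Pool.Agent.J4.H58.MUR
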