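import Pool.Agent.J4.H58.MUR.Grp
import Pool.Agent.J4.H58.MUR.Rep2

/-!
# The group theoretical theorem, for a set of primes
-/

set_option autoImplicit false

namespace Pool.Agent.J4.H58.MUR

open Module Subgroup Pool.Agent.Q60.MU
open scoped commutatorElement

variable {𝔾 : Type} [Group 𝔾]

/-- the prime divisors of the order of `g` modulo `Kn` belong to `S` -/
def IsSel (S : Set ℕ) (Kn : Subgroup 𝔾) [Kn.Normal] (g : 𝔾) : Prop :=
  ∀ l : ℕ, l.Prime → l ∣ orderOf (g : 𝔾 ⧸ Kn) → l ∈ S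

section sel

variable {S : Set ℕ} {Kn : Subgroup 𝔾} [Kn.Normal]

theorem IsSel.congr {g h : 𝔾} (hg : IsSel S Kn g) (he : (g : 𝔾 ⧸ Kn) = (h : 𝔾 ⧸ Kn)) :
    IsSel S Kn h := by
  intro l hl hd
  rw [← he] at hd
  exact hg l hl hd

theorem isSel_of_mem {g : 𝔾} (hg : g ∈ Kn) : IsSel S Kn g := by
  intro l hl hd
  rw [(QuotientGroup.eq_one_iff g).2 hg, orderOf_one] at hd
  exact absurd hd hl.not_dvd_one

theorem IsSel.conj {g : 𝔾} (x : 𝔾) (hg : IsSel S Kn g) : IsSel S Kn (x * g * x⁻¹) := by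
  intro l hl hd
  have h1 : orderOf ((x * g * x⁻¹ : 𝔾) : 𝔾 ⧸ Kn) = orderOf (g : 𝔾 ⧸ Kn) := by
    rw [orderOf_eq_orderOf_iff]
    intro n
    rw [QuotientGroup.mk_mul, QuotientGroup.mk_mul, QuotientGroup.mk_inv, conj_pow,
      conj_eq_one_iff]
  rw [h1] at hd
  exact hg l hl hd

/-- powers -/
theorem exists_pow_eq {p : ℕ} [hp : Fact p.Prime] {g : 𝔾} (hg : IsSel S Kn g) (hpS : p ∉ S)
    (m : ℕ) : ∃ t, m ≤ t ∧ ((g ^ p ^ t : 𝔾) : 𝔾 ⧸ Kn) = (g : 𝔾 ⧸ Kn) := by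
  have hpe : ¬ p ∣ orderOf (g : 𝔾 ⧸ Kn) := fun h => hpS (hg p hp.out h)
  have h0 : orderOf (g : 𝔾 ⧸ Kn) ≠ 0 := by
    intro h
    rw [h] at hpe
    exact hpe (dvd_zero p)
  refine ⟨m * Nat.totient (orderOf (g : 𝔾 ⧸ Kn)),
    Nat.le_mul_of_pos_right _ (Nat.totient_pos.2 (Nat.pos_of_ne_zero h0)), ?_⟩
  rw [QuotientGroup.mk_pow]
  conv_rhs => rw [← pow_one (g : 𝔾 ⧸ Kn)]
  apply pow_eq_pow_iff_modEq.2
  have h5 : p ^ Nat.totient (orderOf (g : 𝔾 ⧸ Kn)) ≡ 1 [MOD orderOf (g : 𝔾 ⧸ Kn)] :=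
    Nat.ModEq.pow_totient ((Nat.Prime.coprime_iff_not_dvd hp.out).2 hpe)
  have h6 := h5.pow m
  rwa [one_pow, ← pow_mul, mul_comm (Nat.totient _) m] at h6

end sel

/-- **The group theoretical theorem.** -/
theorem group_main' {p : ℕ} [hp : Fact p.Prime] [TopologicalSpace 𝔾] [ContinuousMul 𝔾] {Ω : Type}
    [MulAction 𝔾 Ω] {I : Ω → Subgroup 𝔾}
    (hI : ∀ (g : 𝔾) (w : Ω), ∀ x ∈ I w, g * x * g⁻¹ ∈ I (g • w))
    {Kn D A' : Subgroup 𝔾} [hKnn : Kn.Normal] [hDn : D.Normal]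
    (hKf : Kn.index ≠ 0) {m : ℕ} (hDi : D.index = p ^ m)
    (hAo : IsOpen (A' : Set 𝔾)) (hAi : A'.index ≠ 0)
    (hgen : ∀ g : 𝔾, ∃ k ∈ Kn, ∃ a ∈ A', g = k * a) (hun : ∀ w, I w ⊓ A' ≤ Kn)
    {t : ℕ} (T : Finset Ω) (hTt : T.card ≤ t)
    (hT : ∀ w, I w ⊓ D ≤ Kn ∨ ∃ u ∈ T, ∃ d ∈ D, w = d • u) {C : ℕ} {S : Set ℕ} (hpS : p ∉ S)
    (hS : ∀ x : 𝔾, ∃ s, x ^ p ^ s ∈ Subgroup.closure {g | IsSel S Kn g})
    (hrel : ∀ a ∈ A', ∀ j l s : ℕ, l.Prime → l ∈ S → j * l * s = orderOf (a : 𝔾 ⧸ Kn) →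
      RelLe p I ((cy Kn (a ^ j) ⊓ A') ⊓ D) ((cy Kn (a ^ (j * l)) ⊓ A') ⊓ D) C)
    {C0 : ℕ} (hC0 : RankLe p I D C0) :
    RankLe p I (Kn ⊓ D) (p ^ (Kn.index * (Kn.index * C + A'.index) +
      Kn.index * (cst Kn.index t * C0))) := by
  classical
  intro W₀ hW₀K hW₀o hW₀f hg₀
  have hp1 : 1 < p := hp.out.one_lt
  have hKD : Kn ⊓ D ≤ D := inf_le_right
  have hKc : ∀ d ∈ D, ∀ x ∈ Kn ⊓ D, d * x * d⁻¹ ∈ Kn ⊓ D := fun d hd x hx =>
    ⟨hKnn.conj_mem x hx.1 d, D.mul_mem (D.mul_mem hd hx.2) (D.inv_mem hd)⟩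
  have h1 : (Kn ⊓ D).relIndex D = Kn.relIndex D := inf_relIndex_right Kn D
  have h2 : Kn.relIndex D ∣ Kn.index := relIndex_dvd_index_of_normal Kn D
  have h3 : (Kn ⊓ D).relIndex D ≠ 0 := by
    rw [h1]
    intro h
    rw [h] at h2
    exact hKf (Nat.eq_zero_of_zero_dvd h2)
  have h4 : (Kn ⊓ D).relIndex D ≤ Kn.index := by
    rw [h1]
    exact Nat.le_of_dvd (Nat.pos_of_ne_zero hKf) h2
  obtain ⟨W, hWW₀, hWo, hWf, hg, hWn⟩ := exists_core hI hKc h3 hW₀K hW₀o hW₀f hg₀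
  have hWK : W ≤ Kn ⊓ D := hWW₀.trans hW₀K
  refine (relIndex_le_of_le_left hWW₀ hWf).trans ?_
  obtain ⟨V, i1, i2, i3, ρ, π, hs, ha, h0, hρ⟩ := exists_rep hKD hKc hWf hg hWn
  let r : RepData p (Kn ⊓ D) D W :=
    { hKD := hKD, hKn := hKc, V := V, i1 := i1, i2 := i2, i3 := i3, ρ := ρ, π := π, hs := hs,
      ha := ha, h0 := h0, hρ := hρ }
  rw [r.relIndex_self hWK]
  refine Nat.pow_le_pow_right hp1.le ?_
  have hKDi : (Kn ⊓ D).index ≠ 0 := index_inf_ne_zero hKf (by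
    rw [hDi]
    exact pow_ne_zero _ hp.out.ne_zero)
  have hWi : W.index ≠ 0 := by
    rw [← relIndex_mul_index hWK]
    exact mul_ne_zero hWf hKDi
  have htriv : ∀ g : D, (g : 𝔾) ∈ Kn → ∀ v, r.ρ g v = v := fun g hgK v =>
    triv_of_gens r hg ⟨hgK, g.2⟩ v
  -- the bound for one element
  have hone : ∀ g : D, IsSel S Kn (g : 𝔾) →
      finrank (ZMod p) (LinearMap.range (r.ρ g - 1)) ≤ Kn.index * C + A'.index := by
    intro g hsel
    set e0 : ℕ := orderOf ((g : 𝔾) : 𝔾 ⧸ Kn) with he0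
    have hpe0 : ¬ p ∣ e0 := fun h => hpS (hsel p hp.out h)
    have he00 : e0 ≠ 0 := by
      intro h
      rw [h] at hpe0
      exact hpe0 (dvd_zero p)
    have he0n : e0 ≤ Kn.index := by
      have hfi : Kn.FiniteIndex := ⟨hKf⟩
      have hfin : Finite (𝔾 ⧸ Kn) := inferInstance
      exact Nat.le_of_dvd (Nat.pos_of_ne_zero hKf) (orderOf_dvd_natCard _)
    obtain ⟨k, hk, a0, ha0, hka⟩ := hgen g
    have hq0 : ((a0 : 𝔾) : 𝔾 ⧸ Kn) = ((g : 𝔾) : 𝔾 ⧸ Kn) := by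
      rw [hka, QuotientGroup.mk_mul, (QuotientGroup.eq_one_iff k).2 hk, one_mul]
    obtain ⟨tt, htm, hqa0⟩ := exists_pow_eq (hsel.congr hq0.symm) hpS m
    set a : 𝔾 := a0 ^ p ^ tt with hadef
    have haA : a ∈ A' := A'.pow_mem ha0 _
    have haD : a ∈ D := by
      obtain ⟨u, hu⟩ := Nat.exists_eq_add_of_le htm
      rw [hadef, hu, pow_add, pow_mul, ← hDi]
      exact D.pow_mem (D.pow_index_mem a0) _
    have hqa : ((a : 𝔾) : 𝔾 ⧸ Kn) = ((g : 𝔾) : 𝔾 ⧸ Kn) := hqa0.trans hq0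
    have hae : a ^ e0 ∈ Kn := by
      rw [← QuotientGroup.eq_one_iff, QuotientGroup.mk_pow, hqa, he0, pow_orderOf_eq_one]
    have horda : orderOf ((a : 𝔾) : 𝔾 ⧸ Kn) = e0 := by rw [hqa]
    have hρga : r.ρ g = r.ρ ⟨a, haD⟩ := by
      have h5 : (g : 𝔾) * a⁻¹ ∈ Kn := by
        rw [← QuotientGroup.eq_one_iff, QuotientGroup.mk_mul, QuotientGroup.mk_inv, hqa,
          mul_inv_cancel]
      have h6 : g = (g * (⟨a, haD⟩ : D)⁻¹) * ⟨a, haD⟩ := by rw [inv_mul_cancel_right]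
      ext v
      conv_lhs => rw [h6]
      rw [map_mul, Module.End.mul_apply]
      exact htriv _ h5 _
    rw [hρga]
    set Sg := r.ρ ⟨a, haD⟩ with hSg
    set A₁ : Subgroup 𝔾 := Kn ⊓ D ⊓ A' with hA₁
    set V1 := r.img A₁ with hV1
    have hek : (e0 : ZMod p) ≠ 0 := by
      rw [Ne, ZMod.natCast_eq_zero_iff]
      exact hpe0
    have hSe : Sg ^ e0 = 1 := by
      ext v
      rw [hSg, ← map_pow]
      exact htriv (⟨a, haD⟩ ^ e0) hae v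
    have hSV : ∀ v ∈ V1, Sg v ∈ V1 := by
      rintro _ ⟨x, hx, rfl⟩
      rw [hSg, r.hρ]
      exact ⟨_, ⟨⟨hKnn.conj_mem _ hx.1.1 a, hDn.conj_mem _ hx.1.2 a⟩,
        A'.mul_mem (A'.mul_mem haA hx.2) (A'.inv_mem haA)⟩, rfl⟩
    have hstep : ∀ j l s : ℕ, l.Prime → j * l * s = e0 →
        finrank (ZMod p) (V1.map (Sg ^ j - 1)) ≤
          finrank (ZMod p) (V1.map (Sg ^ (j * l) - 1)) + C := by
      intro j l s hl hjl
      have h5 := step_bound r hg hWK hWo hWi hAo hAi hun haA haD hpe0 hae ⟨s, hjl⟩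
        (hrel a haA j l s hl (hsel l hl (by
          rw [← he0, ← hjl]
          exact Dvd.dvd.mul_right (Dvd.intro_left j rfl) s)) (by rw [horda, hjl]))
      have h6 : finrank (ZMod p) V1 ≤ finrank (ZMod p) (stepX Sg V1 j (j * l)) + C := by
        refine (Nat.pow_le_pow_iff_right hp1).1 (h5.trans ?_)
        rw [pow_add, mul_comm]
        exact Nat.mul_le_mul_left _ (Nat.lt_pow_self hp1).le
      have h7 := finrank_step hek hSe hSV j l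
      omega
    have h5 := finrank_le_of_steps hSe he00 hstep
    have h6 := finrank_map_le (Sg - 1) V1
    have h7 : finrank (ZMod p) r.V ≤ finrank (ZMod p) V1 + A'.index := by
      apply r.le_of_index
      have h8 : A₁ ≤ r.pre (Kn ⊓ D) V1 := fun x hx => ⟨hx.1, hx.1, ⟨⟨x, hx.1⟩, hx, rfl⟩⟩
      have h9 : A₁.relIndex (Kn ⊓ D) = A'.relIndex (Kn ⊓ D) := by
        rw [hA₁, inf_comm]
        exact inf_relIndex_right A' (Kn ⊓ D)
      have h10 : A'.relIndex (Kn ⊓ D) ≠ 0 := fun h =>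
        hAi (index_eq_zero_of_relIndex_eq_zero h)
      have hfiA : A'.FiniteIndex := ⟨hAi⟩
      calc (r.pre (Kn ⊓ D) V1).relIndex (Kn ⊓ D) ≤ A₁.relIndex (Kn ⊓ D) :=
            relIndex_le_of_le_left h8 (by rw [h9]; exact h10)
        _ = A'.relIndex (Kn ⊓ D) := h9
        _ ≤ A'.index := by
          rw [← relIndex_top_right A']
          exact relIndex_le_of_le_right le_top (by rw [relIndex_top_right]; exact hAi)
    have h8 := V1.finrank_quotient_add_finrank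
    calc finrank (ZMod p) (LinearMap.range (Sg - 1)) ≤ e0 * C + A'.index := by omega
      _ ≤ Kn.index * C + A'.index := Nat.add_le_add_right (Nat.mul_le_mul_right _ he0n) _
  -- the coinvariants
  set c := coinv r.ρ ⊤ with hc
  have hcoinv : finrank (ZMod p) (r.V ⧸ c) ≤ cst Kn.index t * C0 := by
    set Q := r.pre (Kn ⊓ D) c with hQ
    have hQK : Q ≤ Kn ⊓ D := fun x hx => hx.1
    have hWQ : W ≤ Q := by
      intro x hx
      refine ⟨hWK hx, hWK hx, ?_⟩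
      rw [(r.h0 ⟨x, hWK hx⟩).2 hx]
      exact c.zero_mem
    have hQf : Q.relIndex (Kn ⊓ D) ≠ 0 := by
      intro h
      have h5 := relIndex_mul_relIndex W Q (Kn ⊓ D) hWQ hQK
      rw [h, mul_zero] at h5
      exact hWf h5.symm
    have hcc : ∀ l ∈ D, ∀ k ∈ Kn ⊓ D, ⁅l, k⁆ ∈ Q := by
      intro l hl k hk
      have hm : ⁅l, k⁆ ∈ Kn ⊓ D := by
        rw [commutatorElement_def]
        exact (Kn ⊓ D).mul_mem (hKc l hl k hk) ((Kn ⊓ D).inv_mem hk)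
      refine ⟨hm, hm, ?_⟩
      have h1 : r.π ⟨⁅l, k⁆, hm⟩ + r.π ⟨k, hk⟩ = r.ρ ⟨l, hl⟩ (r.π ⟨k, hk⟩) := by
        rw [r.hρ, ← r.ha]
        congr 1
        apply Subtype.ext
        show ⁅l, k⁆ * k = l * k * l⁻¹
        rw [commutatorElement_def]
        group
      have h2 : r.π ⟨⁅l, k⁆, hm⟩ = r.ρ ⟨l, hl⟩ (r.π ⟨k, hk⟩) - r.π ⟨k, hk⟩ := by
        rw [← h1, add_sub_cancel_right]
      rw [h2]
      exact Submodule.subset_span ⟨⟨l, hl⟩, mem_top _, _, rfl⟩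
    have h5 := genus hI (K := Kn ⊓ D) (L := D) (Q := Q) hKD h3 hQK (isOpen_mono hWQ hWo) hQf
      (fun x hx => hWQ (hg hx)) hcc T (fun w => (hT w).imp (fun h => le_inf h inf_le_right) id) hC0
    have h6 : Q.relIndex (Kn ⊓ D) ≤ cst Kn.index t * C0 :=
      h5.trans (Nat.mul_le_mul_right _ (cst_mono (Nat.pos_of_ne_zero h3) h4 hTt))
    have h7 := r.le_of_index h6
    have h8 := c.finrank_quotient_add_finrank
    omega
  have hidx : ((Kn ⊓ D).subgroupOf D).index = (Kn ⊓ D).relIndex D := rfl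
  have hb := rep_bound' r.ρ (K₀ := (Kn ⊓ D).subgroupOf D) h3
    (fun g hgK x => htriv g hgK.1 x) (P := fun g => IsSel S Kn (g : 𝔾))
    (fun g x hx => hx.conj (g : 𝔾))
    (fun g k hk hg => hg.congr (QuotientGroup.mk_mul_of_mem (g : 𝔾) hk.1).symm) hone ?_ hcoinv
  · refine hb.trans ?_
    rw [hidx]
    exact Nat.add_le_add (Nat.mul_le_mul_right _ h4) (Nat.mul_le_mul_right _ h4)
  · intro K₁ hK₁n hK₁ hP g
    have hle : Subgroup.closure {g | IsSel S Kn g} ≤ Kn ⊔ K₁.map D.subtype := by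
      rw [Subgroup.closure_le]
      intro x hx
      obtain ⟨tt, htm, hxt⟩ := exists_pow_eq hx hpS m
      have hxD : x ^ p ^ tt ∈ D := by
        obtain ⟨u, hu⟩ := Nat.exists_eq_add_of_le htm
        rw [hu, pow_add, pow_mul, ← hDi]
        exact D.pow_mem (D.pow_index_mem x) _
      have h5 : (⟨x ^ p ^ tt, hxD⟩ : D) ∈ K₁ := hP ⟨x ^ p ^ tt, hxD⟩ (IsSel.congr hx hxt.symm)
      have h6 : x * (x ^ p ^ tt)⁻¹ ∈ Kn := by
        rw [← QuotientGroup.eq_one_iff, QuotientGroup.mk_mul, QuotientGroup.mk_inv, hxt,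
          mul_inv_cancel]
      have h7 : x = (x * (x ^ p ^ tt)⁻¹) * x ^ p ^ tt := by rw [inv_mul_cancel_right]
      rw [h7]
      exact mul_mem (mem_sup_left h6) (mem_sup_right ⟨_, h5, rfl⟩)
    obtain ⟨s, hs⟩ := hS (g : 𝔾)
    refine ⟨s, ?_⟩
    have h5 := hle hs
    rw [← SetLike.mem_coe, Subgroup.normal_mul] at h5
    obtain ⟨κ, hκ, _, ⟨d, hd, rfl⟩, hκd⟩ := h5
    have h6 : κ * (d : 𝔾) = (g : 𝔾) ^ p ^ s := hκd
    have hκD : κ ∈ D := by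
      have h7 : κ = (g : 𝔾) ^ p ^ s * (d : 𝔾)⁻¹ := by rw [← h6, mul_inv_cancel_right]
      rw [h7]
      exact D.mul_mem (D.pow_mem g.2 _) (D.inv_mem d.2)
    have h8 : (⟨κ, hκD⟩ : D) ∈ K₁ := hK₁ ⟨hκ, hκD⟩
    have h9 : g ^ p ^ s = ⟨κ, hκD⟩ * d := Subtype.ext h6.symm
    rw [h9]
    exact mul_mem h8 hd

end Pool.Agent.J4.H58.MUR
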