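import Mathlib
import Pool.Agent.Q60.MU.Ram

/-!
# Fields which contain a given field locally (Krasner's lemma)
-/

set_option autoImplicit false

namespace Pool.Agent.J4.H58.MUR

open Pool.Agent.Q60.MU Polynomial
open scoped Pointwise

/-- nonunits are stable under the stabiliser -/
theorem smul_nonunits {A : ValuationSubring Qb} {σ : Gal(Qb/ℚ)} (hσ : σ • A = A) {x : Qb}
    (hx : x ∈ A.nonunits) : σ x ∈ A.nonunits := by
  rw [ValuationSubring.mem_nonunits_iff_or] at hx ⊢
  rcases hx with h | h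
  · left
    rw [h, map_zero]
  · right
    intro h7
    apply h
    have h8 : (σ x)⁻¹ = σ • x⁻¹ := by
      show (σ x)⁻¹ = σ x⁻¹
      rw [map_inv₀]
    rw [h8, ← hσ] at h7
    exact ValuationSubring.smul_mem_pointwise_smul_iff.1 h7

theorem aeval_mem (A : ValuationSubring Qb) (q : ℤ[X]) {x : Qb} (hx : x ∈ A) : aeval x q ∈ A := by
  have h1 : aeval x q = ((aeval (⟨x, hx⟩ : A) q : A) : Qb) := by
    rw [aeval_def, aeval_def]
    show _ = A.subtype (eval₂ _ _ q)
    rw [hom_eval₂]
    congr 1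
  rw [h1]
  exact (aeval (⟨x, hx⟩ : A) q).2

/-- the distance of two roots is at least the value of the derivative -/
theorem deriv_le {A : ValuationSubring Qb} {h : ℤ[X]} {γ γ' : Qb} (hγ : γ ∈ A) (hγ' : γ' ∈ A)
    (h1 : aeval γ h = 0) (h2 : aeval γ' h = 0) (hne : γ' ≠ γ) :
    ∃ k ∈ A, aeval γ (derivative h) = (γ' - γ) * k := by
  have hcoe : ∀ (q : ℤ[X]) (x : A), (((q.map (Int.castRingHom A)).eval x : A) : Qb) =
      aeval (x : Qb) q := by
    intro q x
    rw [eval_map, aeval_def]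
    show A.subtype (eval₂ _ x q) = _
    rw [hom_eval₂]
    congr 1
  obtain ⟨k, hk⟩ := binomExpansion (h.map (Int.castRingHom A)) ⟨γ, hγ⟩
    ⟨γ' - γ, sub_mem hγ' hγ⟩
  have h3 : (h.map (Int.castRingHom A)).eval (⟨γ, hγ⟩ : A) = 0 := by
    apply Subtype.ext
    rw [hcoe]
    exact h1
  have h4 : (h.map (Int.castRingHom A)).eval ((⟨γ, hγ⟩ : A) + ⟨γ' - γ, sub_mem hγ' hγ⟩) = 0 := by
    apply Subtype.ext
    rw [hcoe]
    show aeval (γ + (γ' - γ)) h = 0
    rw [add_sub_cancel]
    exact h2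
  rw [h3, h4, zero_add] at hk
  have h5 := congrArg (fun z : A => (z : Qb)) hk
  have h6 : (0 : Qb) = aeval γ (derivative h) * (γ' - γ) + k * (γ' - γ) ^ 2 := by
    have h7 : (((derivative (h.map (Int.castRingHom A))).eval (⟨γ, hγ⟩ : A) : A) : Qb) =
        aeval γ (derivative h) := by
      rw [derivative_map, hcoe]
    rw [← h7]
    exact h5
  refine ⟨-k, neg_mem k.2, ?_⟩
  have h7 : (γ' - γ) * (aeval γ (derivative h) + k * (γ' - γ)) = 0 := by
    rw [h6]
    ring
  have h8 := (mul_eq_zero.1 h7).resolve_left (sub_ne_zero.2 hne)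
  linear_combination h8

/-- **Krasner's lemma.** -/
theorem krasner {A : ValuationSubring Qb} {h f : ℤ[X]} (hh : h.Monic) {M d : ℤ} (hd0 : d ≠ 0)
    (hM : (M : Qb) ∈ A.nonunits)
    (hd : ∀ γ : Qb, aeval γ h = 0 → ∃ w, IsIntegral ℤ w ∧ (d : Qb) = aeval γ (derivative h) * w)
    {g : ℤ[X]} (hf : f = h + C (M * d ^ h.natDegree) * g)
    {β : Qb} (hβ : aeval β f = 0) (hβi : IsIntegral ℤ β) {σ : Gal(Qb/ℚ)} (hσ : σ • A = A)
    (hσβ : σ β = β) : ∃ γ : Qb, aeval γ h = 0 ∧ σ γ = γ := by
  classical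
  have hβA : β ∈ A := integral_mem A hβi
  have hdQ : (d : Qb) ≠ 0 := by exact_mod_cast hd0
  have hroots : ∀ γ : Qb, aeval γ h = 0 → IsIntegral ℤ γ := fun γ hγ => ⟨h, hh, by
    rw [← aeval_def]
    exact hγ⟩
  -- the value of `h` at `β`
  have h1 : aeval β h = (M : Qb) * (d : Qb) ^ h.natDegree * (-(aeval β g)) := by
    have h2 := hβ
    rw [hf, map_add, map_mul, aeval_C] at h2
    have h3 : algebraMap ℤ Qb (M * d ^ h.natDegree) = (M : Qb) * (d : Qb) ^ h.natDegree := by
      rw [map_mul, map_pow]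
      rfl
    rw [h3] at h2
    linear_combination h2
  set s : Multiset Qb := (h.map (algebraMap ℤ Qb)).roots with hs
  have hmon : (h.map (algebraMap ℤ Qb)).Monic := hh.map _
  have hsplit : (h.map (algebraMap ℤ Qb)).Splits := IsAlgClosed.splits _
  have hcard : Multiset.card s = h.natDegree := by
    rw [hs, ← hsplit.natDegree_eq_card_roots, hh.natDegree_map]
  have h2 : aeval β h = (s.map (fun γ => β - γ)).prod := by
    have h3 : aeval β h = (h.map (algebraMap ℤ Qb)).eval β := by
      rw [eval_map, aeval_def]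
    rw [h3]
    conv_lhs => rw [hsplit.eq_prod_roots_of_monic hmon]
    rw [eval_multiset_prod, Multiset.map_map]
    simp [hs]
  have hmem : ∀ γ ∈ s, aeval γ h = 0 := by
    intro γ hγ
    have h3 := (mem_roots hmon.ne_zero).1 hγ
    rw [IsRoot.def, eval_map, ← aeval_def] at h3
    exact h3
  -- some root is close
  have hclose : ∃ γ ∈ s, (β - γ) / d ∈ A.nonunits := by
    by_contra hcon
    push Not at hcon
    have h3 : ∀ t : Multiset Qb, (∀ γ ∈ t, γ ∈ s) →
        (d : Qb) ^ Multiset.card t / (t.map (fun γ => β - γ)).prod ∈ A ∧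
          (t.map (fun γ => β - γ)).prod ≠ 0 := by
      intro t
      induction t using Multiset.induction_on with
      | empty => intro _; simp
      | cons γ t ih =>
        intro ht
        obtain ⟨ih1, ih2⟩ := ih fun γ' hγ' => ht γ' (Multiset.mem_cons_of_mem hγ')
        have h4 := hcon γ (ht γ (Multiset.mem_cons_self _ _))
        rw [ValuationSubring.mem_nonunits_iff_or, not_or, not_not] at h4
        have h5 : β - γ ≠ 0 := by
          intro h6
          apply h4.1
          rw [h6, zero_div]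
        rw [Multiset.map_cons, Multiset.prod_cons, Multiset.card_cons]
        refine ⟨?_, mul_ne_zero h5 ih2⟩
        have h6 : (d : Qb) ^ (Multiset.card t + 1) / ((β - γ) * (t.map (fun γ => β - γ)).prod) =
            ((β - γ) / d)⁻¹ * ((d : Qb) ^ Multiset.card t / (t.map (fun γ => β - γ)).prod) := by
          rw [inv_div]
          field_simp
          ring
        rw [h6]
        exact A.mul_mem _ _ h4.2 ih1
    obtain ⟨h4, h5⟩ := h3 s fun _ h => h
    rw [← h2, hcard] at h4
    rw [← h2] at h5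
    -- `d ^ n / h(β) ∈ A`, and `h(β) / d ^ n` is a nonunit
    have h6 : aeval β h / (d : Qb) ^ h.natDegree ∈ A.nonunits := by
      have h7 : aeval β h / (d : Qb) ^ h.natDegree = (M : Qb) * (-(aeval β g)) := by
        rw [h1]
        field_simp
      rw [h7]
      exact mul_nonunits hM (neg_mem (aeval_mem A g hβA))
    rw [ValuationSubring.mem_nonunits_iff_or] at h6
    rcases h6 with h6 | h6
    · rw [div_eq_zero_iff] at h6
      rcases h6 with h6 | h6
      · exact h5 h6
      · exact pow_ne_zero _ hdQ h6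
    · apply h6
      rw [inv_div]
      exact h4
  obtain ⟨γ, hγs, hγ⟩ := hclose
  have hγ0 := hmem γ hγs
  refine ⟨γ, hγ0, ?_⟩
  by_contra hne
  -- `σ γ` is another root close to `γ`
  have hσγ0 : aeval (σ γ) h = 0 := by
    have h3 := aeval_algHom_apply ((σ : Qb →ₐ[ℚ] Qb).restrictScalars ℤ) γ h
    rw [hγ0, map_zero] at h3
    exact h3
  have h3 : (β - σ γ) / d ∈ A.nonunits := by
    have h4 := smul_nonunits hσ hγ
    rw [map_div₀, map_sub, hσβ, map_intCast] at h4
    exact h4
  have h4 : (σ γ - γ) / d ∈ A.nonunits := by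
    have h5 : (σ γ - γ) / d = (β - γ) / d - (β - σ γ) / d := by ring
    rw [h5]
    exact sub_mem hγ h3
  obtain ⟨k, hk, hkd⟩ := deriv_le (integral_mem A (hroots γ hγ0))
    (integral_mem A (hroots _ hσγ0)) hγ0 hσγ0 hne
  obtain ⟨w, hw, hwd⟩ := hd γ hγ0
  -- `d = (σ γ - γ) k w`
  have h5 : (1 : Qb) = (σ γ - γ) / d * (k * w) := by
    rw [hkd] at hwd
    rw [eq_comm, div_mul_eq_mul_div, div_eq_iff hdQ, one_mul, hwd]
    ring
  have h6 : (1 : Qb) ∈ A.nonunits := by
    rw [h5]
    exact mul_nonunits h4 (A.mul_mem _ _ hk (integral_mem A hw))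
  rw [ValuationSubring.mem_nonunits_iff, map_one] at h6
  exact lt_irrefl _ h6

end Pool.Agent.J4.H58.MUR
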