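import Pool.Agent.J4.H53.IW.FinDec
import Pool.Agent.W5h77.MB.Mu
import Pool.Agent.W5h33.DF.Field
import Pool.Agent.W215.FM.Gen
import Pool.Agent.H124R3.Local

/-!
# The rational numbers
-/

set_option autoImplicit false

namespace Pool.Agent.J4.H58.MUR

open Pool.Agent.Q60.MU Pool.Agent.W569.FM NumberField
open scoped Pointwise commutatorElement

theorem inertia_of_ideal {P : Ideal (𝓞 Qb)} (hP : P.IsMaximal) {τ : Gal(Qb/ℚ)}
    (hτ : ∀ x : 𝓞 Qb, ∃ y ∈ P, τ x - x = (y : Qb)) : ∃ A, τ ∈ inertia A := by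
  classical
  -- a rational prime in `P`
  have hint : Algebra.IsIntegral ℤ (𝓞 Qb) := ⟨fun x => NumberField.RingOfIntegers.isIntegral x⟩
  have hm : (P.comap (algebraMap ℤ (𝓞 Qb))).IsMaximal :=
    Ideal.isMaximal_comap_of_isIntegral_of_isMaximal P
  have hne : P.comap (algebraMap ℤ (𝓞 Qb)) ≠ ⊥ := by
    intro h
    rw [h] at hm
    exact Ring.ne_bot_of_isMaximal_of_not_isField hm Int.not_isField rfl
  obtain ⟨n, hn, hn0⟩ := Submodule.exists_mem_ne_zero_of_ne_bot hne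
  rw [Ideal.mem_comap] at hn
  obtain ⟨B, hB1, hB2⟩ := Ideal.image_subset_nonunits_valuationSubring
    (A := (integralClosure ℤ Qb).toSubring) P hP.ne_top
  refine ⟨B, ?_⟩
  have hint' : ∀ a : ℤ, algebraMap ℤ Qb a ∈ B := fun a => intCast_mem B a
  have hne' : B.comap (algebraMap ℚ Qb) ≠ ⊤ := by
    intro h
    have h1 : ((n : ℚ))⁻¹ ∈ B.comap (algebraMap ℚ Qb) := by rw [h]; trivial
    rw [ValuationSubring.mem_comap, map_inv₀, map_intCast] at h1
    have h2 : ((n : ℤ) : Qb) ∈ B.nonunits := hB2 ⟨_, hn, rfl⟩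
    rw [ValuationSubring.mem_nonunits_iff_or] at h2
    rcases h2 with h3 | h3
    · exact hn0 (by exact_mod_cast h3)
    · exact h3 h1
  have h := Pool.Agent.H124R3.ZT.triv_of_int (A := ℤ) (K := ℚ) (L := Qb) B hint' hne' τ (by
    intro b hb
    obtain ⟨y, hy, hyb⟩ := hτ ⟨b, hb⟩
    have h3 : τ b - b = (y : Qb) := hyb
    rw [h3]
    exact (ValuationSubring.mem_nonunits_iff B).1 (hB2 ⟨y, hy, rfl⟩))
  refine ⟨?_, fun x hx => (ValuationSubring.mem_nonunits_iff B).2 (h.2 x hx)⟩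
  ext a
  rw [ValuationSubring.mem_pointwise_smul_iff_inv_smul_mem, h.1]
  have h4 : τ (τ⁻¹ • a) = a := by
    show τ (τ⁻¹ a) = a
    rw [← AlgEquiv.mul_apply, mul_inv_cancel, AlgEquiv.one_apply]
  rw [h4]

/-- Minkowski's theorem. -/
theorem rank_top (p : ℕ) : RankLe p inertia (⊤ : Subgroup Gal(Qb/ℚ)) 1 := by
  intro W _ hWo hWf hg
  have hWn : W.Normal := by
    refine ⟨fun n hn g => ?_⟩
    have h1 : ⁅g, n⁆ ∈ W := hg (Or.inl (Or.inr ⟨g, Subgroup.mem_top _, n, Subgroup.mem_top _, rfl⟩))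
    have h2 : g * n * g⁻¹ = ⁅g, n⁆ * n := by
      rw [commutatorElement_def]
      group
    rw [h2]
    exact W.mul_mem h1 hn
  have hW : W = ⊤ := by
    rw [eq_top_iff]
    intro g _
    let f : Gal(Qb/ℚ) →* Gal(Qb/ℚ) ⧸ W := QuotientGroup.mk' W
    have hk : f.ker = W := QuotientGroup.ker_mk' W
    have hf : ∀ g, f g = 1 ↔ g ∈ W := fun g => by
      rw [← MonoidHom.mem_ker, hk]
    have h1 := Pool.Agent.W215.FM.main (Gal(Qb/ℚ) ⧸ W) f
      (by
        have h2 : IsOpen (f.ker : Set Gal(Qb/ℚ)) := by rw [hk]; exact hWo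
        exact h2) (by
        intro P hP τ hτ
        obtain ⟨A, hA⟩ := inertia_of_ideal hP (τ := τ) (fun x => ⟨_, hτ x, rfl⟩)
        exact (hf τ).2 (hg (Or.inr ⟨Subgroup.mem_top _, A, hA⟩)))
    exact (hf g).1 (h1 g)
  rw [hW, Subgroup.relIndex_self]

/-- The class numbers of the layers are prime to `p`. -/
theorem rank_layer {p : ℕ} [hp : Fact p.Prime] {m : ℕ} {R : IntermediateField ℚ Qb}
    [FiniteDimensional ℚ R] [IsGalois ℚ R] (hR : Pool.Agent.W5h77.MB.IsLayer p m R) :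
    RankLe p inertia R.fixingSubgroup 1 := by
  have h1 : DegLe p (⊥ : IntermediateField ℚ Qb) 1 := by
    rw [← rankLe_iff, IntermediateField.fixingSubgroup_bot]
    exact rank_top p
  have h2 := Pool.Agent.W5h77.MB.one_prime ⊥ (Pool.Agent.W5h33.DF.onePrime_bot hp.out) h1 hR
  rw [bot_sup_eq] at h2
  exact (rankLe_iff R 1).2 h2

end Pool.Agent.J4.H58.MUR
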