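import Pool.Agent.J4.H58.MUR.Tr
import Pool.Agent.J4.H58.MUR.Q
import Pool.Agent.J4.H58.MUR.Base2

/-!
# `μ = 0` and the growth in unramified extensions
-/

set_option autoImplicit false

namespace Pool.Agent.J4.H58.MUR

open Subgroup Module IntermediateField Pool.Agent.Q60.MU
open scoped Pointwise commutatorElement

/-- **The main theorem.** -/
theorem mu_of_steps {p : ℕ} (hp : p.Prime) (hp2 : p ≠ 2) {R : ℕ → IntermediateField ℚ Qb}
    (hR : ∀ m, Pool.Agent.W5h77.MB.IsLayer p m (R m)) {N K' : IntermediateField ℚ Qb}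
    [hNf : FiniteDimensional ℚ N] [hNg : IsGalois ℚ N] [hKf' : FiniteDimensional ℚ K']
    (hgen : ∀ g : Gal(Qb/ℚ), ∃ k ∈ N.fixingSubgroup, ∃ a ∈ K'.fixingSubgroup, g = k * a)
    (hun : ∀ A, inertia A ⊓ K'.fixingSubgroup ≤ N.fixingSubgroup)
    (h : ∀ (l : ℕ) (K L : IntermediateField ℚ Qb), l.Prime → l ≠ p → K' ≤ K → L ≤ N ⊔ K' →
      UnramifiedStep l K L → RelBounded p R K L) : MuZero p R N := by
  classical
  have hpf : Fact p.Prime := ⟨hp⟩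
  have hRf : ∀ m, FiniteDimensional ℚ (R m) := fun m => Pool.Agent.W5h77.MB.layer_fd hp (hR m)
  have hRg : ∀ m, IsGalois ℚ (R m) := fun m => Pool.Agent.W5h77.MB.layer_galois hp (hR m)
  have hRn : ∀ m, (R m).fixingSubgroup.Normal := fun m =>
    (InfiniteGalois.normal_iff_isGalois (R m)).2 (hRg m)
  set Kn := N.fixingSubgroup with hKn
  have hKnn : Kn.Normal := (InfiniteGalois.normal_iff_isGalois N).2 hNg
  have hKo : IsOpen (Kn : Set Gal(Qb/ℚ)) := N.fixingSubgroup_isOpen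
  have hKf : Kn.index ≠ 0 := index_ne_zero' N
  set A' := K'.fixingSubgroup with hA'
  have hAo : IsOpen (A' : Set Gal(Qb/ℚ)) := K'.fixingSubgroup_isOpen
  have hAi : A'.index ≠ 0 := index_ne_zero' K'
  have hfi : Kn.FiniteIndex := ⟨hKf⟩
  have hfin : Finite (Gal(Qb/ℚ) ⧸ Kn) := inferInstance
  have hKAo : IsOpen ((Kn ⊓ A' : Subgroup Gal(Qb/ℚ)) : Set Gal(Qb/ℚ)) := hKo.inter hAo
  have hKAi : (Kn ⊓ A').index ≠ 0 := index_inf_ne_zero hKf hAi
  -- the subgroups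
  set B : Gal(Qb/ℚ) ⧸ Kn → Subgroup Gal(Qb/ℚ) := fun x =>
    (zpowers x).comap (QuotientGroup.mk' Kn) ⊓ A' with hB
  have hBle : ∀ x, Kn ⊓ A' ≤ B x := by
    intro x g hg
    refine ⟨⟨0, ?_⟩, hg.2⟩
    have h1 : (g : Gal(Qb/ℚ) ⧸ Kn) = 1 := (QuotientGroup.eq_one_iff g).2 hg.1
    show x ^ (0 : ℤ) = (g : Gal(Qb/ℚ) ⧸ Kn)
    rw [zpow_zero, h1]
  have hBo : ∀ x, IsOpen (B x : Set Gal(Qb/ℚ)) := fun x => isOpen_mono (hBle x) hKAo
  have hBi : ∀ x, (B x).index ≠ 0 := fun x h0 => by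
    have h1 := relIndex_mul_index (hBle x)
    rw [h0, mul_zero] at h1
    exact hKAi h1.symm
  -- the constants
  have hC : ∃ C, ∀ (x : Gal(Qb/ℚ) ⧸ Kn) (l : ℕ), l ≤ Kn.index →
      RelBounded p R (fixedField (B x)) (fixedField (B (x ^ l))) →
      ∀ m, RelLe p inertia (fixedField (B x) ⊔ R m).fixingSubgroup
        (fixedField (B (x ^ l)) ⊔ R m).fixingSubgroup C := by
    have h1 : ∀ (i : (Gal(Qb/ℚ) ⧸ Kn) × Fin (Kn.index + 1)), ∃ C,
        RelBounded p R (fixedField (B i.1)) (fixedField (B (i.1 ^ (i.2 : ℕ)))) →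
        ∀ m, RelLe p inertia (fixedField (B i.1) ⊔ R m).fixingSubgroup
          (fixedField (B (i.1 ^ (i.2 : ℕ))) ⊔ R m).fixingSubgroup C := by
      intro i
      by_cases hb : RelBounded p R (fixedField (B i.1)) (fixedField (B (i.1 ^ (i.2 : ℕ))))
      · obtain ⟨C, hC⟩ := hb
        refine ⟨C, fun _ m => ?_⟩
        have hfd := finite_fixed (hBo (i.1 ^ (i.2 : ℕ))) (hBi _)
        have hRm := hRf m
        refine relLe_of (sup_le_sup_right ?_ _) (hC m)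
        apply fixedField_antitone
        refine inf_le_inf_right _ ?_
        refine comap_mono ?_
        rw [zpowers_le]
        exact (zpowers i.1).pow_mem (mem_zpowers _) _
      · exact ⟨0, fun h => absurd h hb⟩
    choose c hc using h1
    obtain ⟨C, hC⟩ := Finite.exists_le c
    refine ⟨C, fun x l hl hb m => ?_⟩
    exact RelLe.mono (hc (x, ⟨l, Nat.lt_succ_of_le hl⟩) hb m) (hC _)
  obtain ⟨C, hC⟩ := hC
  obtain ⟨t, ht⟩ := ramified_of_finDec (Pool.Agent.J4.H53.IW.finDec hp hp2 hR) hKo hKf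
  rw [← mu_iff hRf]
  refine ⟨p ^ (Kn.index * (Kn.index * C + A'.index) + Kn.index * (cst Kn.index t * 1)),
    fun m => ?_⟩
  obtain ⟨T, hTt, hT⟩ := ht m
  have hRm := hRn m
  have hRmf := hRf m
  have hRmg := hRg m
  have hDi : ((R m).fixingSubgroup).index = p ^ m := by
    rw [← (hR m).1, finrank_eq_fixingSubgroup_index Qb (R m)]
  refine group_main (p := p) (I := inertia) inertia_conj (Kn := Kn) (D := (R m).fixingSubgroup)
    (A' := A') hKf hDi hAo hAi hgen hun T hTt hT (C := C) ?_ (rank_layer (hR m))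
  intro a ha j l s hl hjl hpo
  have hord : orderOf ((a : Gal(Qb/ℚ)) : Gal(Qb/ℚ) ⧸ Kn) ≠ 0 := (orderOf_pos _).ne'
  have hlo : l ∣ orderOf ((a : Gal(Qb/ℚ)) : Gal(Qb/ℚ) ⧸ Kn) := by
    rw [← hjl]
    exact Dvd.dvd.mul_right (Dvd.intro_left j rfl) s
  have hlp : l ≠ p := by
    rintro rfl
    exact hpo hlo
  have hln : l ≤ Kn.index := (Nat.le_of_dvd (Nat.pos_of_ne_zero hord) hlo).trans
    (Nat.le_of_dvd (Nat.pos_of_ne_zero hKf) (orderOf_dvd_natCard _))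
  have hB1 : cy Kn (a ^ j) ⊓ A' = B ((a : Gal(Qb/ℚ) ⧸ Kn) ^ j) := rfl
  have hB2 : cy Kn (a ^ (j * l)) ⊓ A' = B (((a : Gal(Qb/ℚ) ⧸ Kn) ^ j) ^ l) := by
    rw [← pow_mul]
    rfl
  have hf1 := fix_fixed (hBo ((a : Gal(Qb/ℚ) ⧸ Kn) ^ j))
  have hf2 := fix_fixed (hBo (((a : Gal(Qb/ℚ) ⧸ Kn) ^ j) ^ l))
  have hfd1 := finite_fixed (hBo ((a : Gal(Qb/ℚ) ⧸ Kn) ^ j)) (hBi _)
  have hfd2 := finite_fixed (hBo (((a : Gal(Qb/ℚ) ⧸ Kn) ^ j) ^ l)) (hBi _)
  have hle : B (((a : Gal(Qb/ℚ) ⧸ Kn) ^ j) ^ l) ≤ B ((a : Gal(Qb/ℚ) ⧸ Kn) ^ j) := by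
    refine inf_le_inf_right _ (comap_mono ?_)
    rw [zpowers_le]
    exact (zpowers _).pow_mem (mem_zpowers _) _
  have hidx : (B (((a : Gal(Qb/ℚ) ⧸ Kn) ^ j) ^ l)).relIndex (B ((a : Gal(Qb/ℚ) ⧸ Kn) ^ j)) = l := by
    rw [← hB1, ← hB2]
    exact relIndex_cy ha hjl (by rw [hjl]; exact hord)
  have hmem : ∀ (x : Gal(Qb/ℚ) ⧸ Kn) (y : Qb), y ∈ fixedField (B x) ↔ ∀ w ∈ B x, w y = y :=
    fun x y => mem_fixedField_iff _ _
  have hstep : UnramifiedStep l (fixedField (B ((a : Gal(Qb/ℚ) ⧸ Kn) ^ j)))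
      (fixedField (B (((a : Gal(Qb/ℚ) ⧸ Kn) ^ j) ^ l))) := by
    refine ⟨fixedField_antitone hle, ?_, ?_, ?_⟩
    · rw [finrank_eq_fixingSubgroup_index, finrank_eq_fixingSubgroup_index, hf1, hf2,
        ← relIndex_mul_index hle, hidx]
    · intro σ hσ x hx
      rw [hf1] at hσ
      rw [hmem] at hx ⊢
      intro w hw
      have h1 : σ⁻¹ * w * σ⁻¹⁻¹ ∈ B (((a : Gal(Qb/ℚ) ⧸ Kn) ^ j) ^ l) := by
        rw [← hB2] at hw ⊢
        rw [← hB1] at hσ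
        exact ⟨cy_conj (inv_mem hσ.1) hw.1, A'.mul_mem (A'.mul_mem (inv_mem hσ.2) hw.2)
          (inv_mem (inv_mem hσ.2))⟩
      have h2 : w (σ x) = σ ((σ⁻¹ * w * σ⁻¹⁻¹) x) := by
        rw [← AlgEquiv.mul_apply, ← AlgEquiv.mul_apply]
        congr 1
        group
      rw [h2, hx _ h1]
    · intro w σ hσw hσ x hx
      rw [hf1] at hσ
      rw [hmem] at hx
      exact hx σ (hBle _ ⟨hun w ⟨hσw, hσ.2⟩, hσ.2⟩)
  have hKK : K' ≤ fixedField (B ((a : Gal(Qb/ℚ) ⧸ Kn) ^ j)) := by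
    rw [le_iff_le]
    exact inf_le_right
  have hLL : fixedField (B (((a : Gal(Qb/ℚ) ⧸ Kn) ^ j) ^ l)) ≤ N ⊔ K' := by
    rw [← InfiniteGalois.fixedField_fixingSubgroup (N ⊔ K'), fixingSubgroup_sup]
    exact fixedField_antitone (hBle _)
  have hb := h l _ _ hl hlp hKK hLL hstep
  have hfinal := hC _ l hln hb m
  rw [fixingSubgroup_sup, fixingSubgroup_sup, hf1, hf2, ← hB1, ← hB2] at hfinal
  exact hfinal

end Pool.Agent.J4.H58.MUR
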