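import Pool.Agent.J4.H58.MUR.Grp

/-!
# Transfer to an open subgroup
-/

set_option autoImplicit false

namespace Pool.Agent.J4.H58.MUR

open Subgroup Pool.Agent.Q60.MU
open scoped commutatorElement

variable {𝔾 : Type} [Group 𝔾] {p : ℕ} {Ω : Type}

/-- the intersections with `H` -/
def sub (I : Ω → Subgroup 𝔾) (H : Subgroup 𝔾) (w : Ω) : Subgroup H := (I w).subgroupOf H

variable {I : Ω → Subgroup 𝔾} {H : Subgroup 𝔾}

theorem eq_sub (W : Subgroup H) : (W.map H.subtype).subgroupOf H = W :=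
  comap_map_eq_self_of_injective H.subtype_injective W

theorem map_le_self (W : Subgroup H) : W.map H.subtype ≤ H := by
  rintro _ ⟨x, _, rfl⟩
  exact x.2

theorem open_map [TopologicalSpace 𝔾] (hH : IsOpen (H : Set 𝔾)) {W : Subgroup H} (hW : IsOpen (W : Set H)) :
    IsOpen ((W.map H.subtype : Subgroup 𝔾) : Set 𝔾) := by
  rw [coe_map]
  exact (hH.isOpenEmbedding_subtypeVal).isOpenMap _ hW

theorem gens_sub {S W : Subgroup 𝔾} (hS : S ≤ H) :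
    gens p (sub I H) (S.subgroupOf H) ⊆ W.subgroupOf H ↔ gens p I S ⊆ W := by
  constructor
  · intro h
    rintro x ((⟨a, ha, rfl⟩ | ⟨a, ha, b, hb, rfl⟩) | ⟨hx, w, hw⟩)
    · exact h (Or.inl (Or.inl ⟨⟨a, hS ha⟩, ha, rfl⟩) : (⟨a, hS ha⟩ : H) ^ p ∈ _)
    · exact h (Or.inl (Or.inr ⟨⟨a, hS ha⟩, ha, ⟨b, hS hb⟩, hb, rfl⟩) :
        ⁅(⟨a, hS ha⟩ : H), ⟨b, hS hb⟩⁆ ∈ _)
    · exact h (Or.inr ⟨hx, w, hw⟩ : (⟨x, hS hx⟩ : H) ∈ _)
  · intro h
    rintro x ((⟨a, ha, rfl⟩ | ⟨a, ha, b, hb, rfl⟩) | ⟨hx, w, hw⟩)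
    · exact h (Or.inl (Or.inl ⟨a, ha, rfl⟩) : (a : 𝔾) ^ p ∈ _)
    · exact h (Or.inl (Or.inr ⟨a, ha, b, hb, rfl⟩) : ⁅(a : 𝔾), (b : 𝔾)⁆ ∈ _)
    · exact h (Or.inr ⟨hx, w, hw⟩ : (x : 𝔾) ∈ _)

theorem rankLe_of_sub [TopologicalSpace 𝔾] {S : Subgroup 𝔾} (hS : S ≤ H) {C : ℕ}
    (h : RankLe p (sub I H) (S.subgroupOf H) C) : RankLe p I S C := by
  intro W hWS hWo hWf hg
  rw [← relIndex_subgroupOf hS]
  refine h (W.subgroupOf H) (comap_mono hWS) (hWo.preimage continuous_subtype_val) ?_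
    ((gens_sub hS).2 hg)
  rw [relIndex_subgroupOf hS]
  exact hWf

theorem rankLe_sub [TopologicalSpace 𝔾] (hH : IsOpen (H : Set 𝔾)) {S : Subgroup 𝔾} (hS : S ≤ H) {C : ℕ}
    (h : RankLe p I S C) : RankLe p (sub I H) (S.subgroupOf H) C := by
  intro W' hWS hWo hWf hg
  rw [← eq_sub W'] at hWS hWf hg ⊢
  set W := W'.map H.subtype with hW
  have hWS' : W ≤ S := by
    intro x hx
    have hxH : x ∈ H := map_le_self W' hx
    exact hWS (show (⟨x, hxH⟩ : H) ∈ W.subgroupOf H from hx)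
  rw [relIndex_subgroupOf hS] at hWf ⊢
  exact h W hWS' (open_map hH hWo) hWf ((gens_sub hS).1 hg)

theorem relLe_sub [TopologicalSpace 𝔾] (hH : IsOpen (H : Set 𝔾)) {B A : Subgroup 𝔾} (hB : B ≤ H) (hA : A ≤ H) {C : ℕ}
    (h : RelLe p I B A C) : RelLe p (sub I H) (B.subgroupOf H) (A.subgroupOf H) C := by
  intro W' hWA hWo hWf hg hWB hQ
  rw [← eq_sub W'] at hWA hWf hg hWB hQ ⊢
  set W := W'.map H.subtype with hW
  have hWA' : W ≤ A := by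
    intro x hx
    have hxH : x ∈ H := map_le_self W' hx
    exact hWA (show (⟨x, hxH⟩ : H) ∈ W.subgroupOf H from hx)
  rw [relIndex_subgroupOf hA] at hWf ⊢
  refine h W hWA' (open_map hH hWo) hWf ((gens_sub hA).1 hg) ?_ ?_
  · intro b hb x hx
    exact hWB ⟨b, hB hb⟩ hb ⟨x, map_le_self W' hx⟩ hx
  · intro Q hWQ hbx x hx
    have h1 := hQ (Q.subgroupOf H) (comap_mono hWQ) (fun b hb y hy => hbx b hb y hy)
    exact h1 (show (⟨x, hA hx⟩ : H) ∈ A.subgroupOf H from hx)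

end Pool.Agent.J4.H58.MUR
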