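import Pool.Agent.J4.H58.MUR.Main2
import Pool.Agent.J4.H58.MUR.Grp2

/-!
# `μ = 0` and the growth in unramified extensions: steps of degree in a set of primes
-/

set_option autoImplicit false

namespace Pool.Agent.J4.H58.MUR

open Subgroup Module IntermediateField Pool.Agent.Q60.MU
open scoped Pointwise commutatorElement

/-- The automorphisms over `E` which have a power trivial on `N` with exponent a product of primes
in `S`. -/
def SEl (S : Set ℕ) (E N : IntermediateField ℚ Qb) : Set Gal(Qb/ℚ) :=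
  {g | g ∈ E.fixingSubgroup ∧ ∃ e : ℕ, e ≠ 0 ∧ (∀ l : ℕ, l.Prime → l ∣ e → l ∈ S) ∧
    g ^ e ∈ N.fixingSubgroup}

/-- **The main theorem.** -/
theorem mu_of_steps_sel {p : ℕ} (hp : p.Prime) (hp2 : p ≠ 2) {R : ℕ → IntermediateField ℚ Qb}
    (hR : ∀ m, Pool.Agent.W5h77.MB.IsLayer p m (R m)) {E N K' : IntermediateField ℚ Qb}
    [hEf : FiniteDimensional ℚ E] [hNf : FiniteDimensional ℚ N] [hNg : IsGalois ℚ N]
    [hKf' : FiniteDimensional ℚ K'] (hEN : E ≤ N) (hEK : E ≤ K')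
    (hgen : ∀ g ∈ E.fixingSubgroup, ∃ k ∈ N.fixingSubgroup, ∃ a ∈ K'.fixingSubgroup, g = k * a)
    (hun : ∀ A, inertia A ⊓ K'.fixingSubgroup ≤ N.fixingSubgroup) (hE : MuZero p R E)
    {S : Set ℕ} (hpS : p ∉ S)
    (hS : ∀ x ∈ E.fixingSubgroup, ∃ s, x ^ p ^ s ∈ Subgroup.closure (SEl S E N))
    (h : ∀ (l : ℕ) (K L : IntermediateField ℚ Qb), l.Prime → l ∈ S → K' ≤ K → L ≤ N ⊔ K' →
      UnramifiedStep l K L → RelBounded p R K L) : MuZero p R N := by
  classical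
  have hpf : Fact p.Prime := ⟨hp⟩
  have hRf : ∀ m, FiniteDimensional ℚ (R m) := fun m => Pool.Agent.W5h77.MB.layer_fd hp (hR m)
  have hRg : ∀ m, IsGalois ℚ (R m) := fun m => Pool.Agent.W5h77.MB.layer_galois hp (hR m)
  have hRn : ∀ m, (R m).fixingSubgroup.Normal := fun m =>
    (InfiniteGalois.normal_iff_isGalois (R m)).2 (hRg m)
  set H := E.fixingSubgroup with hHdef
  have hHo : IsOpen (H : Set Gal(Qb/ℚ)) := E.fixingSubgroup_isOpen
  have hHi : H.index ≠ 0 := index_ne_zero' E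
  set Kn := N.fixingSubgroup with hKn
  have hKH : Kn ≤ H := fixingSubgroup_le hEN
  have hKnn : Kn.Normal := (InfiniteGalois.normal_iff_isGalois N).2 hNg
  have hKo : IsOpen (Kn : Set Gal(Qb/ℚ)) := N.fixingSubgroup_isOpen
  have hKf : Kn.index ≠ 0 := index_ne_zero' N
  set A' := K'.fixingSubgroup with hA'
  have hAH : A' ≤ H := fixingSubgroup_le hEK
  have hAo : IsOpen (A' : Set Gal(Qb/ℚ)) := K'.fixingSubgroup_isOpen
  have hAi : A'.index ≠ 0 := index_ne_zero' K'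
  have hKAo : IsOpen ((Kn ⊓ A' : Subgroup Gal(Qb/ℚ)) : Set Gal(Qb/ℚ)) := hKo.inter hAo
  have hKAi : (Kn ⊓ A').index ≠ 0 := index_inf_ne_zero hKf hAi
  -- in `H`
  set Kn' : Subgroup H := Kn.subgroupOf H with hKn'
  set A'' : Subgroup H := A'.subgroupOf H with hA''
  have hKnn' : Kn'.Normal := ⟨fun n hn g => hKnn.conj_mem _ hn _⟩
  have hKf2 : Kn'.index ≠ 0 := by
    intro h0
    have h1 : Kn.relIndex H = 0 := h0
    exact hKf (index_eq_zero_of_relIndex_eq_zero h1)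
  have hAf2 : A''.index ≠ 0 := by
    intro h0
    have h1 : A'.relIndex H = 0 := h0
    exact hAi (index_eq_zero_of_relIndex_eq_zero h1)
  have hfi : Kn'.FiniteIndex := ⟨hKf2⟩
  have hfin : Finite (H ⧸ Kn') := inferInstance
  -- the subgroups
  set B' : H ⧸ Kn' → Subgroup H := fun x => (zpowers x).comap (QuotientGroup.mk' Kn') ⊓ A''
    with hB'
  set B : H ⧸ Kn' → Subgroup Gal(Qb/ℚ) := fun x => (B' x).map H.subtype with hB
  have hBH : ∀ x, B x ≤ H := fun x => map_le_self _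
  have hBs : ∀ x, (B x).subgroupOf H = B' x := fun x => eq_sub _
  have hBA : ∀ x, B x ≤ A' := by
    rintro x _ ⟨y, hy, rfl⟩
    exact hy.2
  have hBle : ∀ x, Kn ⊓ A' ≤ B x := by
    intro x g hg
    refine ⟨⟨g, hKH hg.1⟩, ⟨⟨0, ?_⟩, hg.2⟩, rfl⟩
    have h1 : ((⟨g, hKH hg.1⟩ : H) : H ⧸ Kn') = 1 := (QuotientGroup.eq_one_iff _).2 hg.1
    show x ^ (0 : ℤ) = ((⟨g, hKH hg.1⟩ : H) : H ⧸ Kn')
    rw [zpow_zero, h1]
  have hBo : ∀ x, IsOpen (B x : Set Gal(Qb/ℚ)) := fun x => isOpen_mono (hBle x) hKAo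
  have hBi : ∀ x, (B x).index ≠ 0 := fun x h0 => by
    have h1 := relIndex_mul_index (hBle x)
    rw [h0, mul_zero] at h1
    exact hKAi h1.symm
  have hBpow : ∀ (x : H ⧸ Kn') (l : ℕ), B (x ^ l) ≤ B x := by
    intro x l
    refine map_mono (inf_le_inf_right _ (comap_mono ?_))
    rw [zpowers_le]
    exact (zpowers x).pow_mem (mem_zpowers _) _
  -- the constants
  have hC : ∃ C, ∀ (x : H ⧸ Kn') (l : ℕ), l ≤ Kn'.index →
      RelBounded p R (fixedField (B x)) (fixedField (B (x ^ l))) →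
      ∀ m, RelLe p inertia (fixedField (B x) ⊔ R m).fixingSubgroup
        (fixedField (B (x ^ l)) ⊔ R m).fixingSubgroup C := by
    have h1 : ∀ (i : (H ⧸ Kn') × Fin (Kn'.index + 1)), ∃ C,
        RelBounded p R (fixedField (B i.1)) (fixedField (B (i.1 ^ (i.2 : ℕ)))) →
        ∀ m, RelLe p inertia (fixedField (B i.1) ⊔ R m).fixingSubgroup
          (fixedField (B (i.1 ^ (i.2 : ℕ))) ⊔ R m).fixingSubgroup C := by
      intro i
      by_cases hb : RelBounded p R (fixedField (B i.1)) (fixedField (B (i.1 ^ (i.2 : ℕ))))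
      · obtain ⟨C, hC⟩ := hb
        refine ⟨C, fun _ m => ?_⟩
        have hfd := finite_fixed (hBo (i.1 ^ (i.2 : ℕ))) (hBi _)
        have hRm := hRf m
        exact relLe_of (sup_le_sup_right (fixedField_antitone (hBpow _ _)) _) (hC m)
      · exact ⟨0, fun h => absurd h hb⟩
    choose c hc using h1
    obtain ⟨C, hC⟩ := Finite.exists_le c
    refine ⟨C, fun x l hl hb m => ?_⟩
    exact RelLe.mono (hc (x, ⟨l, Nat.lt_succ_of_le hl⟩) hb m) (hC _)
  obtain ⟨C, hC⟩ := hC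
  obtain ⟨t, ht⟩ := ramified_of_finDec (Pool.Agent.J4.H53.IW.finDec hp hp2 hR) hKo hKf
  rw [← mu_iff hRf] at hE ⊢
  obtain ⟨C0, hC0⟩ := hE
  refine ⟨p ^ (Kn'.index * (Kn'.index * C + A''.index) +
    Kn'.index * (cst Kn'.index (H.index * t) * C0)), fun m => ?_⟩
  obtain ⟨T, hTt, hT⟩ := ht m
  obtain ⟨T', hT't, hT'⟩ := exists_orbits (Ω := ValuationSubring Qb) hHi (R m).fixingSubgroup T
  have hRm := hRn m
  have hRmf := hRf m
  have hRmg := hRg m
  set D := (R m).fixingSubgroup with hD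
  set D' : Subgroup H := D.subgroupOf H with hD'
  have hDn' : D'.Normal := ⟨fun n hn g => hRm.conj_mem _ hn _⟩
  have hDi : D.index = p ^ m := by
    rw [← (hR m).1, finrank_eq_fixingSubgroup_index Qb (R m)]
  obtain ⟨m', -, hm'⟩ : ∃ m' ≤ m, D'.index = p ^ m' := by
    rw [← Nat.dvd_prime_pow hp, ← hDi]
    exact relIndex_dvd_index_of_normal D H
  have hinf : ∀ S : Subgroup Gal(Qb/ℚ), (S ⊓ D).subgroupOf H = S.subgroupOf H ⊓ D' := fun S => rfl
  have hKDH : Kn ⊓ D ≤ H := inf_le_left.trans hKH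
  apply rankLe_of_sub (H := H) hKDH
  rw [hinf]
  have hD0 : RankLe p (sub inertia H) D' C0 := by
    have h1 := rankLe_sub hHo (inf_le_left : H ⊓ D ≤ H) (hC0 m)
    have h2 : (H ⊓ D).subgroupOf H = D' := by
      ext x
      exact ⟨fun h => h.2, fun h => ⟨x.2, h⟩⟩
    rwa [h2] at h1
  refine group_main' (p := p) (Ω := ValuationSubring Qb) (I := sub inertia H) ?_ (Kn := Kn')
    (D := D') (A' := A'') hKf2 hm' (hAo.preimage continuous_subtype_val) hAf2 ?_ ?_ T'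
    (hT't.trans (Nat.mul_le_mul_left _ hTt)) ?_ (C := C) (S := S) hpS ?_ ?_ hD0
  · intro g w x hx
    exact inertia_conj g w x hx
  · intro g
    obtain ⟨k, hk, a, ha, hg⟩ := hgen g g.2
    exact ⟨⟨k, hKH hk⟩, hk, ⟨a, hAH ha⟩, ha, Subtype.ext hg⟩
  · intro w x hx
    exact hun w ⟨hx.1, hx.2⟩
  · intro w
    rcases hT w with h1 | ⟨u, hu, d, hd, rfl⟩
    · exact Or.inl fun x hx => h1 ⟨hx.1, hx.2⟩
    · obtain ⟨u', hu', d', hd', h2⟩ := hT' u hu d hd
      exact Or.inr ⟨u', hu', d', hd', h2⟩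
  · intro x
    obtain ⟨s, hs⟩ := hS x x.2
    refine ⟨s, ?_⟩
    have h1 : Subgroup.closure (SEl S E N) ≤
        (Subgroup.closure {g : H | IsSel S Kn' g}).map H.subtype := by
      rw [Subgroup.closure_le]
      rintro g ⟨hg, e, he0, heS, hge⟩
      refine ⟨⟨g, hg⟩, Subgroup.subset_closure ?_, rfl⟩
      intro l hl hd
      refine heS l hl (hd.trans (orderOf_dvd_of_pow_eq_one ?_))
      rw [← QuotientGroup.mk_pow, QuotientGroup.eq_one_iff]
      exact hge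
    obtain ⟨y, hy, hyx⟩ := h1 hs
    have h2 : y = x ^ p ^ s := Subtype.ext hyx
    rw [← h2]
    exact hy
  intro a ha j l s hl hlS hjl
  have hord : orderOf ((a : H) : H ⧸ Kn') ≠ 0 := (orderOf_pos _).ne'
  have hlo : l ∣ orderOf ((a : H) : H ⧸ Kn') := by
    rw [← hjl]
    exact Dvd.dvd.mul_right (Dvd.intro_left j rfl) s
  have hln : l ≤ Kn'.index := (Nat.le_of_dvd (Nat.pos_of_ne_zero hord) hlo).trans
    (Nat.le_of_dvd (Nat.pos_of_ne_zero hKf2) (orderOf_dvd_natCard _))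
  set x0 : H ⧸ Kn' := (a : H ⧸ Kn') ^ j with hx0
  have hB1 : cy Kn' (a ^ j) ⊓ A'' = (B x0).subgroupOf H := by
    rw [hBs]
    rfl
  have hB2 : cy Kn' (a ^ (j * l)) ⊓ A'' = (B (x0 ^ l)).subgroupOf H := by
    rw [hBs, hx0, ← pow_mul]
    rfl
  have hf1 := fix_fixed (hBo x0)
  have hf2 := fix_fixed (hBo (x0 ^ l))
  have hfd1 := finite_fixed (hBo x0) (hBi _)
  have hfd2 := finite_fixed (hBo (x0 ^ l)) (hBi _)
  have hidx : (B (x0 ^ l)).relIndex (B x0) = l := by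
    rw [← relIndex_subgroupOf (hBH x0), ← hB1, ← hB2]
    exact relIndex_cy ha hjl (by rw [hjl]; exact hord)
  have hmem : ∀ (x : H ⧸ Kn') (y : Qb), y ∈ fixedField (B x) ↔ ∀ w ∈ B x, w y = y :=
    fun x y => mem_fixedField_iff _ _
  have hstep : UnramifiedStep l (fixedField (B x0)) (fixedField (B (x0 ^ l))) := by
    refine ⟨fixedField_antitone (hBpow _ _), ?_, ?_, ?_⟩
    · rw [finrank_eq_fixingSubgroup_index, finrank_eq_fixingSubgroup_index, hf1, hf2,
        ← relIndex_mul_index (hBpow x0 l), hidx]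
    · intro σ hσ x hx
      rw [hf1] at hσ
      rw [hmem] at hx ⊢
      intro w hw
      have h1 : σ⁻¹ * w * σ⁻¹⁻¹ ∈ B (x0 ^ l) := by
        have hσH := hBH _ hσ
        have hwH := hBH _ hw
        have hw' : (⟨w, hwH⟩ : H) ∈ (B (x0 ^ l)).subgroupOf H := hw
        have hσ' : (⟨σ, hσH⟩ : H) ∈ (B x0).subgroupOf H := hσ
        rw [← hB2] at hw'
        rw [← hB1] at hσ'
        have h2 : (⟨σ, hσH⟩ : H)⁻¹ * ⟨w, hwH⟩ * ((⟨σ, hσH⟩ : H)⁻¹)⁻¹ ∈
            cy Kn' (a ^ (j * l)) ⊓ A'' :=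
          ⟨cy_conj (inv_mem hσ'.1) hw'.1, A''.mul_mem (A''.mul_mem (inv_mem hσ'.2) hw'.2)
            (inv_mem (inv_mem hσ'.2))⟩
        rw [hB2] at h2
        exact h2
      have h2 : w (σ x) = σ ((σ⁻¹ * w * σ⁻¹⁻¹) x) := by
        rw [← AlgEquiv.mul_apply, ← AlgEquiv.mul_apply]
        congr 1
        group
      rw [h2, hx _ h1]
    · intro w σ hσw hσ x hx
      rw [hf1] at hσ
      rw [hmem] at hx
      exact hx σ (hBle _ ⟨hun w ⟨hσw, hBA _ hσ⟩, hBA _ hσ⟩)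
  have hKK : K' ≤ fixedField (B x0) := by
    rw [le_iff_le]
    exact hBA _
  have hLL : fixedField (B (x0 ^ l)) ≤ N ⊔ K' := by
    rw [← InfiniteGalois.fixedField_fixingSubgroup (N ⊔ K'), fixingSubgroup_sup]
    exact fixedField_antitone (hBle _)
  have hb := h l _ _ hl hlS hKK hLL hstep
  have hfinal := hC x0 l hln hb m
  rw [fixingSubgroup_sup, fixingSubgroup_sup, hf1, hf2] at hfinal
  rw [hB1, hB2, ← hinf, ← hinf]
  exact relLe_sub hHo (inf_le_left.trans (hBH _)) (inf_le_left.trans (hBH _)) hfinal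

end Pool.Agent.J4.H58.MUR
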