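import Pool.Agent.J4.H58.MUR.CmMain

/-!
# `μ = 0` for totally real fields
-/

set_option autoImplicit false

namespace Pool.Agent.J4.H58.MUR

open IntermediateField Module Pool.Agent.Q60.MU NumberField
open Pool.Agent.W5h77.MB (realSub mem_realSub fix_real exists_conj)
open Pool.Agent.J4.H53.IW (IsFin)
open scoped Pointwise ComplexConjugate

variable {F : IntermediateField ℚ Qb}

/-- The extensions `L/K` of totally real fields, of degree `l ∈ S`, of the theorem on totally real
fields. -/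
def RStep (S : Set ℕ) (q : ℕ) (k : IntermediateField ℚ Qb) (l : ℕ)
    (K L : IntermediateField ℚ Qb) : Prop :=
  l.Prime ∧ l ∈ S ∧ IsFin L ∧ TotReal L ∧ UnramifiedStep l K L ∧ LocallyContains q K (L ⊔ k)

theorem real_mu {p : ℕ} (hp : p.Prime) (hp2 : p ≠ 2) {R : ℕ → IntermediateField ℚ Qb}
    (hR : ∀ m, Pool.Agent.W5h77.MB.IsLayer p m (R m)) {S : Set ℕ} (hS : p ∉ S)
    {E k : IntermediateField ℚ Qb} (hE : IsFin E) (hEr : TotReal E) (hk : IsFin k) {q : ℕ}
    (hq : q ≠ 0)
    (hmu : ∀ M : IntermediateField ℚ Qb, IsFin M → TotReal M → E ≤ M → Stable E M →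
      Reduced p S E M → M = ⊥ ∨ MuZero p R M)
    (h : ∀ l K L, E ≤ K → RStep S q k l K L → RelBounded p R K L)
    (hF : IsFin F) (hFr : TotReal F) : MuZero p R F := by
  obtain ⟨ι⟩ := Pool.Agent.J4.H53.IW.nonempty_iota
  obtain ⟨c, hc, hcc⟩ := exists_conj ι
  have hEf : FiniteDimensional ℚ E := hE
  have hFf : FiniteDimensional ℚ F := hF
  have hkf : FiniteDimensional ℚ k := hk
  obtain ⟨N, hNf, hNg, hFEN, hNr⟩ := exists_galois_real
    (show IsFin (F ⊔ E) from IntermediateField.finiteDimensional_sup F E) (hFr.sup hEr)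
  have hEN : E ≤ N := le_sup_right.trans hFEN
  obtain ⟨G, hGf, hGg, hG⟩ := exists_galois'
    (show IsFin (N ⊔ k) from IntermediateField.finiteDimensional_sup N k)
  obtain ⟨K', hK'f, hreal, hgen, hdec, hun⟩ := exists_base_real G hq
  have hK'r : TotReal K' := real_iff_le hc hreal
  have hGN : G.fixingSubgroup ≤ N.fixingSubgroup := fixingSubgroup_le (le_sup_left.trans hG)
  have hGk : G.fixingSubgroup ≤ k.fixingSubgroup := fixingSubgroup_le (le_sup_right.trans hG)
  have hNKr : TotReal (N ⊔ K') := hNr.sup hK'r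
  have hpf : Fact p.Prime := ⟨hp⟩
  obtain ⟨M, hEM, hMN, hst, hred, hMS⟩ := exists_base_field (p := p) (S := S) hEN
  have hMf : FiniteDimensional ℚ M := fd_of_le hMN
  have hGM : G.fixingSubgroup ≤ M.fixingSubgroup := hGN.trans (fixingSubgroup_le hMN)
  have hM' : MuZero p R M := by
    rcases hmu M hMf (hNr.mono hMN) hEM hst hred with rfl | h1
    · refine ⟨1, fun m => ?_⟩
      have hRf := Pool.Agent.W5h77.MB.layer_fd hp (hR m)
      have hRg := Pool.Agent.W5h77.MB.layer_galois hp (hR m)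
      rw [bot_sup_eq]
      exact (rankLe_iff (R m) 1).1 (rank_layer (hR m))
    · exact h1
  have hK'M : FiniteDimensional ℚ ↥(K' ⊔ M) := IntermediateField.finiteDimensional_sup K' M
  have hNK' : FiniteDimensional ℚ ↥(N ⊔ K') := IntermediateField.finiteDimensional_sup N K'
  have hEq : N ⊔ (K' ⊔ M) = N ⊔ K' :=
    le_antisymm (sup_le le_sup_left (sup_le le_sup_right (hMN.trans le_sup_left)))
      (sup_le_sup_left le_sup_left _)
  have hmuN : MuZero p R N := by
    refine mu_of_steps_sel hp hp2 hR (E := M) (K' := K' ⊔ M) hMN le_sup_right (fun g hg => ?_)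
      (fun A σ hσ => ?_) hM' hS hMS ?_
    · obtain ⟨n, hn, a, ha, hna⟩ := hgen g
      refine ⟨n, hGN hn, a, ?_, hna⟩
      rw [fixingSubgroup_sup]
      refine ⟨ha, ?_⟩
      have h1 : a = n⁻¹ * g := by rw [hna, inv_mul_cancel_left]
      rw [h1]
      exact M.fixingSubgroup.mul_mem (M.fixingSubgroup.inv_mem (hGM hn)) hg
    · refine hGN (hun A ⟨hσ.1, ?_⟩)
      have h1 := hσ.2
      rw [fixingSubgroup_sup] at h1
      exact h1.1
    · intro l K L hl hlS hK hL hs
      rw [hEq] at hL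
      have hKK : K' ≤ K := le_sup_left.trans hK
      refine h l K L (hEM.trans (le_sup_right.trans hK)) ⟨hl, hlS, fd_of_le hL, hNKr.mono hL, hs, ?_⟩
      intro A hA σ hσ hσA x hx
      have hσ' : σ ∈ K'.fixingSubgroup := fixingSubgroup_le hKK hσ
      have hσG := hdec A hA σ hσ' hσA
      have h2 : σ ∈ (N ⊔ K').fixingSubgroup := by
        rw [fixingSubgroup_sup]
        exact ⟨hGN hσG, hσ'⟩
      have h3 : σ ∈ (L ⊔ k).fixingSubgroup := by
        rw [fixingSubgroup_sup]
        exact ⟨fixingSubgroup_le hL h2, hGk hσG⟩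
      exact (IntermediateField.mem_fixingSubgroup_iff _ _).1 h3 x hx
  have hRf : ∀ m, FiniteDimensional ℚ (R m) := fun m => Pool.Agent.W5h77.MB.layer_fd hp (hR m)
  have hDo : ∀ m, IsOpen ((R m).fixingSubgroup : Set Gal(Qb/ℚ)) := fun m => by
    have := hRf m
    exact (R m).fixingSubgroup_isOpen
  have hKn : N.fixingSubgroup.Normal := (InfiniteGalois.normal_iff_isGalois N).2 hNg
  rw [← mu_iff hRf]
  exact Mu0.of_le hDo hKn (fixingSubgroup_le (le_sup_left.trans hFEN)) N.fixingSubgroup_isOpen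
    (index_ne_zero' N) ((mu_iff hRf N).2 hmuN)

end Pool.Agent.J4.H58.MUR
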