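import Pool.Agent.J4.H58.MUR.Alg

/-!
# A bound for representations in characteristic `p`
-/

set_option autoImplicit false

namespace Pool.Agent.J4.H58.MUR

open Module Pool.Agent.Q60.MU

section

variable {p : ℕ} [hp : Fact p.Prime] {G : Type} [Group G] {V : Type} [AddCommGroup V]
  [Module (ZMod p) V] [Module.Finite (ZMod p) V]

/-- A `p`-group acting on a nonzero finite `𝔽_p`-vector space fixes a nonzero vector. -/
theorem exists_fixed {G₁ : Type} [Group G₁] [Finite G₁] (hG : IsPGroup p G₁) {S : Type}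
    [AddCommGroup S] [Module (ZMod p) S] [Module.Finite (ZMod p) S] [Nontrivial S]
    (τ : Representation (ZMod p) G₁ S) : ∃ v : S, v ≠ 0 ∧ ∀ g, τ g v = v := by
  classical
  have hfin : Finite S := Module.finite_of_finite (ZMod p)
  let _ : MulAction G₁ S :=
    { smul := fun g x => τ g x
      one_smul := fun x => by
        show τ 1 x = x
        rw [map_one]
        rfl
      mul_smul := fun g h x => by
        show τ (g * h) x = τ g (τ h x)
        rw [map_mul]
        rfl }
  have hsm : ∀ (g : G₁) (x : S), g • x = τ g x := fun _ _ => rfl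
  have h1 : p ∣ Nat.card S := by
    have h2 := Module.natCard_eq_pow_finrank (K := ZMod p) (V := S)
    rw [Nat.card_zmod] at h2
    rw [h2]
    exact dvd_pow_self p (Module.finrank_pos).ne'
  obtain ⟨v, hv, hne⟩ := hG.exists_fixed_point_of_prime_dvd_card_of_fixed_point S h1
    (a := (0 : S)) (fun g => by
      show τ g 0 = 0
      exact map_zero _)
  exact ⟨v, fun h => hne h.symm, fun g => hv g⟩

omit [Module.Finite (ZMod p) V] in
theorem rho_inv (ρ : Representation (ZMod p) G V) (g : G) (x : V) : ρ g (ρ g⁻¹ x) = x := by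
  rw [← Module.End.mul_apply, ← map_mul, mul_inv_cancel, map_one]
  rfl

/-- **The bound.** -/
theorem rep_bound (ρ : Representation (ZMod p) G V) {K₀ : Subgroup G} (hidx : K₀.index ≠ 0)
    (hK₀n : K₀.Normal)
    (h0 : ∀ g ∈ K₀, ∀ x, ρ g x = x) {c c0 : ℕ}
    (h1 : ∀ (g : G) (e : ℕ), ¬ p ∣ e → g ^ e ∈ K₀ → finrank (ZMod p) (LinearMap.range (ρ g - 1)) ≤ c)
    (h2 : finrank (ZMod p) (V ⧸ coinv ρ ⊤) ≤ c0) :
    finrank (ZMod p) V ≤ K₀.index * c + K₀.index * c0 := by
  classical
  have hfi : K₀.FiniteIndex := ⟨hidx⟩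
  have hft : Fintype (G ⧸ K₀) := Fintype.ofFinite _
  let P : G → Prop := fun g => ∃ e, ¬ p ∣ e ∧ g ^ e ∈ K₀
  let rg : G ⧸ K₀ → Submodule (ZMod p) V := fun q =>
    if P q.out then LinearMap.range (ρ q.out - 1) else ⊥
  let U : Submodule (ZMod p) V := ⨆ q, rg q
  have hρ : ∀ g k : G, k ∈ K₀ → ρ (g * k) = ρ g := by
    intro g k hk
    ext x
    rw [map_mul, Module.End.mul_apply, h0 k hk]
  have hmemU : ∀ g, P g → ∀ x, ρ g x - x ∈ U := by
    rintro g ⟨e, he, hge⟩ x
    obtain ⟨κ, hκ⟩ := QuotientGroup.mk_out_eq_mul K₀ g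
    have hPq : P ((g : G ⧸ K₀)).out := by
      refine ⟨e, he, ?_⟩
      rw [hκ]
      have h3 : (((g * (κ : G)) ^ e : G) : G ⧸ K₀) = 1 := by
        rw [QuotientGroup.mk_pow, QuotientGroup.mk_mul_of_mem g κ.2, ← QuotientGroup.mk_pow,
          (QuotientGroup.eq_one_iff _).2 hge]
      exact (QuotientGroup.eq_one_iff _).1 h3
    have h3 : rg (g : G ⧸ K₀) ≤ U := le_iSup rg (g : G ⧸ K₀)
    have h4 : rg (g : G ⧸ K₀) = LinearMap.range (ρ ((g : G ⧸ K₀)).out - 1) := if_pos hPq
    apply h3
    rw [h4, hκ, hρ g κ κ.2]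
    exact ⟨x, rfl⟩
  have hUle : finrank (ZMod p) U ≤ K₀.index * c := by
    have h3 : finrank (ZMod p) U ≤ ∑ q : G ⧸ K₀, finrank (ZMod p) (rg q) := by
      have h4 : ∀ s : Finset (G ⧸ K₀), finrank (ZMod p) (s.sup rg : Submodule (ZMod p) V) ≤
          ∑ q ∈ s, finrank (ZMod p) (rg q) := by
        intro s
        induction s using Finset.induction_on with
        | empty => simp
        | insert a s ha ih =>
          rw [Finset.sup_insert, Finset.sum_insert ha]
          exact (Submodule.finrank_add_le_finrank_add_finrank _ _).trans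
            (Nat.add_le_add_left ih _)
      have h5 := h4 Finset.univ
      rwa [Finset.sup_univ_eq_iSup] at h5
    refine h3.trans ?_
    have h4 : ∀ q : G ⧸ K₀, finrank (ZMod p) (rg q) ≤ c := by
      intro q
      by_cases hq : P q.out
      · have h5 : rg q = LinearMap.range (ρ q.out - 1) := if_pos hq
        rw [h5]
        obtain ⟨e, he, hqe⟩ := hq
        exact h1 _ e he hqe
      · have h5 : rg q = ⊥ := if_neg hq
        rw [h5, finrank_bot]
        exact Nat.zero_le _
    calc ∑ q : G ⧸ K₀, finrank (ZMod p) (rg q) ≤ ∑ _q : G ⧸ K₀, c :=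
          Finset.sum_le_sum fun q _ => h4 q
      _ = K₀.index * c := by
        rw [Finset.sum_const, Finset.card_univ, smul_eq_mul, Subgroup.index,
          Nat.card_eq_fintype_card]
  have hUst : Stable ρ U := by
    intro g x hx
    have h3 : U ≤ U.comap (ρ g) := by
      refine iSup_le fun q => ?_
      by_cases hq : P q.out
      · have h5 : rg q = LinearMap.range (ρ q.out - 1) := if_pos hq
        rw [h5]
        rintro _ ⟨y, rfl⟩
        show ρ g (ρ q.out y - y) ∈ U
        have h6 : ρ g (ρ q.out y - y) = ρ (g * q.out * g⁻¹) (ρ g y) - ρ g y := by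
          rw [map_sub]
          congr 1
          rw [← Module.End.mul_apply, ← Module.End.mul_apply, ← map_mul, ← map_mul]
          congr 2
          group
        rw [h6]
        apply hmemU
        obtain ⟨e, he, hqe⟩ := hq
        refine ⟨e, he, ?_⟩
        rw [conj_pow]
        exact hK₀n.conj_mem _ hqe g
      · have h5 : rg q = ⊥ := if_neg hq
        rw [h5]
        exact bot_le
    exact h3 hx
  -- the subgroup acting trivially on the quotient
  let K₁ : Subgroup G :=
    { carrier := {g | ∀ x, ρ g x - x ∈ U}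
      mul_mem' := by
        intro a b ha hb x
        have h3 : ρ (a * b) x - x = (ρ a (ρ b x) - ρ b x) + (ρ b x - x) := by
          rw [map_mul, Module.End.mul_apply]
          abel
        rw [h3]
        exact U.add_mem (ha _) (hb _)
      one_mem' := by
        intro x
        rw [map_one, Module.End.one_apply, sub_self]
        exact U.zero_mem
      inv_mem' := by
        intro a ha x
        have h3 := ha (ρ a⁻¹ x)
        rw [rho_inv] at h3
        have h4 := U.neg_mem h3
        rwa [neg_sub] at h4 }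
  have hK₁ : ∀ g, g ∈ K₁ ↔ ∀ x, ρ g x - x ∈ U := fun _ => Iff.rfl
  have hle : K₀ ≤ K₁ := by
    intro g hg
    rw [hK₁]
    intro x
    rw [h0 g hg, sub_self]
    exact U.zero_mem
  have hK₁i : K₁.index ≠ 0 := fun h => hidx (Nat.eq_zero_of_zero_dvd (h ▸ Subgroup.index_dvd_of_le hle))
  have hK₁le : K₁.index ≤ K₀.index :=
    Nat.le_of_dvd (Nat.pos_of_ne_zero hidx) (Subgroup.index_dvd_of_le hle)
  have hK₁n : K₁.Normal := by
    refine ⟨fun g hg a => ?_⟩
    rw [hK₁]
    intro x
    have h3 : ρ (a * g * a⁻¹) x - x = ρ a (ρ g (ρ a⁻¹ x) - ρ a⁻¹ x) := by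
      rw [map_sub, rho_inv, map_mul, map_mul]
      rfl
    rw [h3]
    exact hUst a _ (hg _)
  have hfi1 : K₁.FiniteIndex := ⟨hK₁i⟩
  have hpg : IsPGroup p (G ⧸ K₁) := by
    intro q
    obtain ⟨g, rfl⟩ := QuotientGroup.mk_surjective q
    obtain ⟨s, n₁, hn₁, hn⟩ := Nat.exists_eq_pow_mul_and_not_dvd hidx p hp.out.ne_one
    refine ⟨s, ?_⟩
    rw [← QuotientGroup.mk_pow, QuotientGroup.eq_one_iff, hK₁]
    apply hmemU
    refine ⟨n₁, hn₁, ?_⟩
    rw [← pow_mul, ← hn]
    exact Subgroup.pow_index_mem K₀ g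
  have hdet : Detects (ZMod p) K₁ ({()} : Finset Unit) (fun _ => (⊤ : Subgroup G)) := by
    intro S _ _ _ σ htriv hsim
    refine ⟨(), Finset.mem_singleton_self _, ?_⟩
    have hnt : Nontrivial S := hsim.1
    let τ : Representation (ZMod p) (G ⧸ K₁) S :=
      QuotientGroup.lift K₁ σ (fun g hg => by
        ext x
        exact htriv g hg x)
    have hτ : ∀ g : G, τ (g : G ⧸ K₁) = σ g := fun g => rfl
    obtain ⟨v, hv0, hv⟩ := exists_fixed hpg τ
    have h3 : ∀ g, σ g v = v := fun g => by rw [← hτ]; exact hv _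
    have h4 : Submodule.span (ZMod p) {v} = ⊤ := by
      refine (hsim.2 _ ?_).resolve_left ?_
      · intro g x hx
        obtain ⟨a, rfl⟩ := Submodule.mem_span_singleton.1 hx
        rw [map_smul, h3]
        exact Submodule.mem_span_singleton.2 ⟨a, rfl⟩
      · intro h
        rw [Submodule.span_singleton_eq_bot] at h
        exact hv0 h
    have h5 : coinv σ ⊤ = ⊥ := by
      rw [eq_bot_iff, coinv, Submodule.span_le]
      rintro _ ⟨g, -, x, rfl⟩
      have hx : x ∈ Submodule.span (ZMod p) {v} := by rw [h4]; trivial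
      obtain ⟨a, rfl⟩ := Submodule.mem_span_singleton.1 hx
      rw [map_smul, h3, sub_self]
      exact Submodule.zero_mem _
    rw [h5]
    exact bot_ne_top
  have hq := finrank_le (quo ρ hUst) (K₀ := K₁) hK₁i (by
    intro g hg x
    obtain ⟨y, rfl⟩ := Submodule.mkQ_surjective U x
    rw [quo_mk, ← sub_eq_zero, ← map_sub, Submodule.mkQ_apply, Submodule.Quotient.mk_eq_zero]
    exact hg y) hdet
  rw [Finset.sum_singleton] at hq
  have hco : finrank (ZMod p) ((V ⧸ U) ⧸ coinv (quo ρ hUst) ⊤) ≤ c0 := by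
    refine le_trans ?_ h2
    have h3 : coinv ρ ⊤ ≤ (coinv (quo ρ hUst) ⊤).comap U.mkQ := by
      rw [coinv, Submodule.span_le]
      rintro _ ⟨g, hg, x, rfl⟩
      show U.mkQ (ρ g x - x) ∈ coinv (quo ρ hUst) ⊤
      rw [map_sub, ← quo_mk ρ hUst]
      exact Submodule.subset_span ⟨g, hg, _, rfl⟩
    let f := (coinv ρ ⊤).mapQ (coinv (quo ρ hUst) ⊤) U.mkQ h3
    have hf : Function.Surjective f := by
      intro y
      obtain ⟨z, rfl⟩ := Submodule.mkQ_surjective _ y
      obtain ⟨x, rfl⟩ := Submodule.mkQ_surjective _ z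
      exact ⟨(coinv ρ ⊤).mkQ x, rfl⟩
    exact LinearMap.finrank_le_finrank_of_surjective (f := f) hf
  have hsum := U.finrank_quotient_add_finrank
  calc finrank (ZMod p) V = finrank (ZMod p) (V ⧸ U) + finrank (ZMod p) U := hsum.symm
    _ ≤ K₁.index * c0 + K₀.index * c := by
      refine Nat.add_le_add (hq.trans (Nat.mul_le_mul_left _ hco)) hUle
    _ ≤ K₀.index * c0 + K₀.index * c := Nat.add_le_add_right (Nat.mul_le_mul_right _ hK₁le) _
    _ = K₀.index * c + K₀.index * c0 := by ring

end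

end Pool.Agent.J4.H58.MUR
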