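import Pool.Agent.J4.H58.MUR.Rep
import Pool.Agent.Q60.MU.Reduction

/-!
# One step: a cyclic extension of prime degree
-/

set_option autoImplicit false

namespace Pool.Agent.J4.H58.MUR

open Module Subgroup Pool.Agent.Q60.MU
open scoped commutatorElement

variable {𝔾 : Type} [Group 𝔾]

/-- The indices of the open subgroups `W` of `A` which contain the `p`-th powers, the commutators
and the elements of the inertia groups, are stable under `B`, and for which no proper subgroup of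
`A` above `W` contains the commutators of the elements of `B` and `A`, are at most `C`. -/
def RelLe [TopologicalSpace 𝔾] (p : ℕ) {Ω : Type} (I : Ω → Subgroup 𝔾) (B A : Subgroup 𝔾)
    (C : ℕ) : Prop :=
  ∀ W : Subgroup 𝔾, W ≤ A → IsOpen (W : Set 𝔾) → W.relIndex A ≠ 0 → gens p I A ⊆ W →
    (∀ b ∈ B, ∀ x ∈ W, b * x * b⁻¹ ∈ W) →
    (∀ Q : Subgroup 𝔾, W ≤ Q → (∀ b ∈ B, ∀ x ∈ A, ⁅b, x⁆ ∈ Q) → A ≤ Q) → W.relIndex A ≤ C

/-- the data: a representation on an elementary abelian quotient -/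
structure RepData (p : ℕ) [Fact p.Prime] (K D W : Subgroup 𝔾) where
  hKD : K ≤ D
  hKn : ∀ d ∈ D, ∀ x ∈ K, d * x * d⁻¹ ∈ K
  V : Type
  [i1 : AddCommGroup V]
  [i2 : Module (ZMod p) V]
  [i3 : Module.Finite (ZMod p) V]
  ρ : Representation (ZMod p) D V
  π : K → V
  hs : Function.Surjective π
  ha : ∀ x y, π (x * y) = π x + π y
  h0 : ∀ x, π x = 0 ↔ (x : 𝔾) ∈ W
  hρ : ∀ (d : D) (x : K), ρ d (π x) = π ⟨d * x * (d : 𝔾)⁻¹, hKn d d.2 x x.2⟩

attribute [instance] RepData.i1 RepData.i2 RepData.i3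

namespace RepData

variable {p : ℕ} [hp : Fact p.Prime] {K D W : Subgroup 𝔾} (r : RepData p K D W)

theorem pi_one : r.π 1 = 0 := (r.h0 1).2 W.one_mem

theorem pi_inv (x : K) : r.π x⁻¹ = - r.π x := by
  apply eq_neg_of_add_eq_zero_left
  rw [← r.ha, inv_mul_cancel, r.pi_one]

theorem pi_pow (x : K) (n : ℕ) : r.π (x ^ n) = (n : ZMod p) • r.π x := by
  induction n with
  | zero => simp [r.pi_one]
  | succ n ih =>
    rw [pow_succ, r.ha, ih]
    push_cast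
    rw [add_smul, one_smul]

theorem pi_congr {x y : 𝔾} (h : x = y) (hx : x ∈ K) (hy : y ∈ K) : r.π ⟨x, hx⟩ = r.π ⟨y, hy⟩ := by
  subst h
  rfl

/-- the elements of `A₁` whose image lies in `X` -/
def pre (A₁ : Subgroup 𝔾) (X : Submodule (ZMod p) r.V) : Subgroup 𝔾 where
  carrier := {x | x ∈ A₁ ∧ ∃ h : x ∈ K, r.π ⟨x, h⟩ ∈ X}
  mul_mem' := by
    rintro a b ⟨ha1, ha, ha2⟩ ⟨hb1, hb, hb2⟩
    refine ⟨A₁.mul_mem ha1 hb1, K.mul_mem ha hb, ?_⟩
    have h5 : r.π ⟨a * b, K.mul_mem ha hb⟩ = r.π ⟨a, ha⟩ + r.π ⟨b, hb⟩ := r.ha ⟨a, ha⟩ ⟨b, hb⟩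
    rw [h5]
    exact X.add_mem ha2 hb2
  one_mem' := by
    refine ⟨A₁.one_mem, K.one_mem, ?_⟩
    have h5 : r.π ⟨1, K.one_mem⟩ = 0 := r.pi_one
    rw [h5]
    exact X.zero_mem
  inv_mem' := by
    rintro a ⟨ha1, ha, ha2⟩
    refine ⟨A₁.inv_mem ha1, K.inv_mem ha, ?_⟩
    have h5 : r.π ⟨a⁻¹, K.inv_mem ha⟩ = - r.π ⟨a, ha⟩ := r.pi_inv ⟨a, ha⟩
    rw [h5]
    exact X.neg_mem ha2

theorem mem_pre {A₁ : Subgroup 𝔾} {X : Submodule (ZMod p) r.V} {x : 𝔾} :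
    x ∈ r.pre A₁ X ↔ x ∈ A₁ ∧ ∃ h : x ∈ K, r.π ⟨x, h⟩ ∈ X := Iff.rfl

/-- the image of a subgroup -/
def img (A₁ : Subgroup 𝔾) : Submodule (ZMod p) r.V where
  carrier := {v | ∃ x : K, (x : 𝔾) ∈ A₁ ∧ r.π x = v}
  add_mem' := by
    rintro _ _ ⟨x, hx, rfl⟩ ⟨y, hy, rfl⟩
    exact ⟨x * y, A₁.mul_mem hx hy, r.ha x y⟩
  zero_mem' := ⟨1, A₁.one_mem, r.pi_one⟩
  smul_mem' := by
    rintro c _ ⟨x, hx, rfl⟩
    refine ⟨x ^ c.val, A₁.pow_mem hx _, ?_⟩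
    rw [pi_pow, ZMod.natCast_zmod_val]

theorem mem_img {A₁ : Subgroup 𝔾} {v : r.V} :
    v ∈ r.img A₁ ↔ ∃ x : K, (x : 𝔾) ∈ A₁ ∧ r.π x = v := Iff.rfl

/-- the index of the inverse image of a subspace of the image -/
theorem relIndex_pre {A₁ : Subgroup 𝔾} (hA : A₁ ≤ K) {X : Submodule (ZMod p) r.V}
    (hX : X ≤ r.img A₁) :
    (r.pre A₁ X).relIndex A₁ * p ^ finrank (ZMod p) X = p ^ finrank (ZMod p) (r.img A₁) := by
  classical
  let ι : A₁ → K := fun x => ⟨x, hA x.2⟩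
  let X' : Submodule (ZMod p) (r.img A₁) := X.comap (r.img A₁).subtype
  let φ : A₁ →* Multiplicative ((r.img A₁) ⧸ X') :=
    { toFun := fun x => Multiplicative.ofAdd (X'.mkQ ⟨r.π (ι x), ι x, x.2, rfl⟩)
      map_one' := by
        have h1 : (⟨r.π (ι 1), ι 1, (1 : A₁).2, rfl⟩ : r.img A₁) = 0 := Subtype.ext r.pi_one
        rw [h1, map_zero]
        rfl
      map_mul' := fun x y => by
        have h1 : (⟨r.π (ι (x * y)), ι (x * y), (x * y).2, rfl⟩ : r.img A₁) =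
            ⟨r.π (ι x), ι x, x.2, rfl⟩ + ⟨r.π (ι y), ι y, y.2, rfl⟩ := Subtype.ext (r.ha (ι x) (ι y))
        rw [h1, map_add]
        rfl }
  have h1 : (r.pre A₁ X).subgroupOf A₁ = φ.ker := by
    ext x
    rw [mem_subgroupOf, mem_pre, MonoidHom.mem_ker]
    constructor
    · rintro ⟨_, _, h⟩
      exact (Submodule.Quotient.mk_eq_zero X').2 h
    · intro h
      exact ⟨x.2, hA x.2, (Submodule.Quotient.mk_eq_zero X').1 h⟩
  have h2 : Function.Surjective φ := by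
    intro y
    obtain ⟨⟨v, x, hx, rfl⟩, hv⟩ := X'.mkQ_surjective (Multiplicative.toAdd y)
    exact ⟨⟨x, hx⟩, congrArg Multiplicative.ofAdd hv⟩
  have h3 : Nat.card ((r.img A₁) ⧸ X') = p ^ finrank (ZMod p) ((r.img A₁) ⧸ X') := by
    have h4 := Module.natCard_eq_pow_finrank (K := ZMod p) (V := (r.img A₁) ⧸ X')
    rwa [Nat.card_zmod] at h4
  have h4 : (r.pre A₁ X).relIndex A₁ = p ^ finrank (ZMod p) ((r.img A₁) ⧸ X') := by
    rw [relIndex, h1, index_ker, MonoidHom.range_eq_top.2 h2, card_top, ← h3]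
    rfl
  have h5 : finrank (ZMod p) X' = finrank (ZMod p) X :=
    LinearEquiv.finrank_eq (Submodule.comapSubtypeEquivOfLe hX)
  rw [h4, ← h5, ← pow_add, Submodule.finrank_quotient_add_finrank]

end RepData

end Pool.Agent.J4.H58.MUR
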