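import Pool.Agent.J4.H58.MUR.Step

/-!
# One step: a cyclic extension of prime degree (the estimate)
-/

set_option autoImplicit false

namespace Pool.Agent.J4.H58.MUR

open Module Subgroup Pool.Agent.Q60.MU
open scoped commutatorElement

variable {𝔾 : Type} [Group 𝔾]

/-- the elements which are powers of `b` modulo `N` -/
def cy (N : Subgroup 𝔾) [N.Normal] (b : 𝔾) : Subgroup 𝔾 :=
  (zpowers ((b : 𝔾 ⧸ N))).comap (QuotientGroup.mk' N)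

section cy

variable {N : Subgroup 𝔾} [N.Normal] {b x : 𝔾}

theorem mem_cy : x ∈ cy N b ↔ ∃ i : ℤ, x * (b ^ i)⁻¹ ∈ N := by
  constructor
  · rintro ⟨i, hi⟩
    refine ⟨i, ?_⟩
    have h1 : ((b : 𝔾 ⧸ N)) ^ i = (x : 𝔾 ⧸ N) := hi
    rw [← QuotientGroup.eq_one_iff, QuotientGroup.mk_mul, QuotientGroup.mk_inv,
      QuotientGroup.mk_zpow, h1, mul_inv_cancel]
  · rintro ⟨i, hi⟩
    refine ⟨i, ?_⟩
    rw [← QuotientGroup.eq_one_iff, QuotientGroup.mk_mul, QuotientGroup.mk_inv,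
      QuotientGroup.mk_zpow, mul_inv_eq_one] at hi
    exact hi.symm

theorem le_cy : N ≤ cy N b := by
  intro x hx
  refine mem_cy.2 ⟨0, ?_⟩
  simpa using hx

theorem self_mem_cy : b ∈ cy N b := by
  refine mem_cy.2 ⟨1, ?_⟩
  rw [zpow_one, mul_inv_cancel]
  exact N.one_mem

theorem cy_le {m : ℕ} : cy N (b ^ m) ≤ cy N b := by
  intro x hx
  obtain ⟨i, hi⟩ := mem_cy.1 hx
  refine mem_cy.2 ⟨m * i, ?_⟩
  rw [zpow_mul, zpow_natCast]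
  exact hi

/-- conjugation by powers of the same element -/
theorem cy_conj {j m : ℕ} {y : 𝔾} (hy : y ∈ cy N (b ^ j)) (hx : x ∈ cy N (b ^ m)) :
    y * x * y⁻¹ ∈ cy N (b ^ m) := by
  obtain ⟨i, hi⟩ := hx
  obtain ⟨i', hi'⟩ := hy
  refine ⟨i, ?_⟩
  have h1 : (((b ^ m : 𝔾)) : 𝔾 ⧸ N) ^ i = (x : 𝔾 ⧸ N) := hi
  have h2 : (((b ^ j : 𝔾)) : 𝔾 ⧸ N) ^ i' = (y : 𝔾 ⧸ N) := hi'
  show (((b ^ m : 𝔾)) : 𝔾 ⧸ N) ^ i = ((y * x * y⁻¹ : 𝔾) : 𝔾 ⧸ N)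
  rw [QuotientGroup.mk_mul, QuotientGroup.mk_mul, QuotientGroup.mk_inv, ← h1, ← h2]
  have hc : Commute ((((b ^ j : 𝔾)) : 𝔾 ⧸ N) ^ i') ((((b ^ m : 𝔾)) : 𝔾 ⧸ N) ^ i) := by
    rw [QuotientGroup.mk_pow, QuotientGroup.mk_pow]
    exact (((Commute.refl (b : 𝔾 ⧸ N)).pow_pow j m).zpow_zpow i' i)
  rw [hc.eq, mul_inv_cancel_right]

end cy

/-- powers modulo a subgroup with commutative quotient -/
theorem exists_pow_hom {Λ W1 : Subgroup 𝔾} (hn : ∀ l ∈ Λ, ∀ x ∈ W1, l * x * l⁻¹ ∈ W1)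
    (hc : ∀ x ∈ Λ, ∀ y ∈ Λ, ⁅x, y⁆ ∈ W1) (e : ℕ) :
    ∃ (Γ : Type) (_ : Group Γ) (f : Λ →* Γ), ∀ x, f x = 1 ↔ (x : 𝔾) ^ e ∈ W1 := by
  classical
  have hN : (W1.subgroupOf Λ).Normal := ⟨fun q hq l => hn l l.2 q hq⟩
  let cg : CommGroup (Λ ⧸ W1.subgroupOf Λ) :=
    { (inferInstance : Group (Λ ⧸ W1.subgroupOf Λ)) with
      mul_comm := by
        intro a b
        obtain ⟨x, rfl⟩ := QuotientGroup.mk_surjective a
        obtain ⟨y, rfl⟩ := QuotientGroup.mk_surjective b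
        refine QuotientGroup.eq.2 ?_
        have h1 : (((x * y)⁻¹ * (y * x) : Λ) : 𝔾) = ⁅((y⁻¹ : Λ) : 𝔾), ((x⁻¹ : Λ) : 𝔾)⁆ := by
          rw [commutatorElement_def]
          push_cast
          group
        show (((x * y)⁻¹ * (y * x) : Λ) : 𝔾) ∈ W1
        rw [h1]
        exact hc _ (y⁻¹).2 _ (x⁻¹).2 }
  let f : Λ →* (Λ ⧸ W1.subgroupOf Λ) :=
    (powMonoidHom e).comp (QuotientGroup.mk' (W1.subgroupOf Λ) : Λ →* _)
  refine ⟨Λ ⧸ W1.subgroupOf Λ, cg.toGroup, f, fun x => ?_⟩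
  have h1 : f x = ((x ^ e : Λ) : Λ ⧸ W1.subgroupOf Λ) := rfl
  rw [h1, QuotientGroup.eq_one_iff]
  rfl

variable {p : ℕ} [hp : Fact p.Prime] {Kn D A' W : Subgroup 𝔾}

/-- `K ∩ D` acts trivially -/
theorem triv_of_gens {K : Subgroup 𝔾} (r : RepData p K D W) {Ω : Type} {I : Ω → Subgroup 𝔾}
    (hg : gens p I K ⊆ W) {d : D} (hd : (d : 𝔾) ∈ K) (v : r.V) : r.ρ d v = v := by
  obtain ⟨x, rfl⟩ := r.hs v
  rw [r.hρ]
  have hm : ⁅(d : 𝔾), (x : 𝔾)⁆ ∈ K := by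
    rw [commutatorElement_def]
    exact K.mul_mem (r.hKn d d.2 x x.2) (K.inv_mem x.2)
  have h1 : (⟨(d : 𝔾) * x * (d : 𝔾)⁻¹, r.hKn d d.2 x x.2⟩ : K) =
      (⟨⁅(d : 𝔾), (x : 𝔾)⁆, hm⟩ : K) * x := by
    apply Subtype.ext
    show (d : 𝔾) * x * (d : 𝔾)⁻¹ = ⁅(d : 𝔾), (x : 𝔾)⁆ * x
    rw [commutatorElement_def]
    group
  rw [h1, r.ha, (r.h0 _).2 (hg (Or.inl (Or.inr ⟨d, hd, x, x.2, rfl⟩))), zero_add]

/-- **The estimate for one step.** -/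
theorem step_bound [TopologicalSpace 𝔾] [ContinuousMul 𝔾] [hKnn : Kn.Normal] [hDn : D.Normal]
    (r : RepData p (Kn ⊓ D) D W) {Ω : Type} {I : Ω → Subgroup 𝔾}
    (hg : gens p I (Kn ⊓ D) ⊆ W) (hWK : W ≤ Kn ⊓ D) (hWo : IsOpen (W : Set 𝔾)) (hWi : W.index ≠ 0)
    (hAo : IsOpen (A' : Set 𝔾)) (hAi : A'.index ≠ 0) (hun : ∀ w, I w ⊓ A' ≤ Kn)
    {a : 𝔾} (haA : a ∈ A') (haD : a ∈ D) {e : ℕ} (hpe : ¬ p ∣ e) (hae : a ^ e ∈ Kn)
    {j l : ℕ} (hjl : ∃ s, j * l * s = e) {C : ℕ}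
    (hrel : RelLe p I ((cy Kn (a ^ j) ⊓ A') ⊓ D) ((cy Kn (a ^ (j * l)) ⊓ A') ⊓ D) C) :
    p ^ finrank (ZMod p) (r.img (Kn ⊓ D ⊓ A')) ≤
      C * p ^ finrank (ZMod p) (stepX (r.ρ ⟨a, haD⟩) (r.img (Kn ⊓ D ⊓ A')) j (j * l)) := by
  classical
  set A₁ : Subgroup 𝔾 := Kn ⊓ D ⊓ A' with hA₁
  set T := r.ρ ⟨a, haD⟩ with hT
  set V1 := r.img A₁ with hV1
  set X := stepX T V1 j (j * l) with hX
  set Λ1 : Subgroup 𝔾 := (cy Kn (a ^ j) ⊓ A') ⊓ D with hΛ1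
  set Λ2 : Subgroup 𝔾 := (cy Kn (a ^ (j * l)) ⊓ A') ⊓ D with hΛ2
  have he0 : e ≠ 0 := by
    rintro rfl
    exact hpe (dvd_zero p)
  have hek : (e : ZMod p) ≠ 0 := by
    rw [Ne, ZMod.natCast_eq_zero_iff]
    exact hpe
  have hA₁K : A₁ ≤ Kn ⊓ D := inf_le_left
  -- conjugation on `A₁`
  have hconj : ∀ g ∈ A' ⊓ D, ∀ x ∈ A₁, g * x * g⁻¹ ∈ A₁ := by
    rintro g ⟨hg1, hg2⟩ x ⟨⟨hx1, hx2⟩, hx3⟩
    exact ⟨⟨hKnn.conj_mem x hx1 g, hDn.conj_mem x hx2 g⟩,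
      A'.mul_mem (A'.mul_mem hg1 hx3) (A'.inv_mem hg1)⟩
  have hρV : ∀ g : D, (g : 𝔾) ∈ A' → ∀ v ∈ V1, r.ρ g v ∈ V1 := by
    rintro g hgA _ ⟨x, hx, rfl⟩
    rw [r.hρ]
    exact ⟨_, hconj g ⟨hgA, g.2⟩ x hx, rfl⟩
  have hTV : ∀ v ∈ V1, T v ∈ V1 := hρV ⟨a, haD⟩ haA
  have htriv : ∀ g : D, (g : 𝔾) ∈ Kn → ∀ v, r.ρ g v = v := fun g hgK v =>
    triv_of_gens r hg ⟨hgK, g.2⟩ v
  have hTpow : ∀ i : ℕ, T ^ i = r.ρ ⟨a ^ i, D.pow_mem haD i⟩ := by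
    intro i
    rw [hT, ← map_pow]
    rfl
  have hTe : T ^ e = 1 := by
    ext v
    rw [hTpow]
    exact htriv _ hae v
  have hXV : X ≤ V1 := stepX_le hTV _ _
  have hXT : ∀ i : ℕ, ∀ v ∈ X, (T ^ i) v ∈ X := by
    intro i v hv
    induction i with
    | zero => simpa using hv
    | succ i ih =>
      rw [pow_succ', Module.End.mul_apply]
      exact stepX_stable hTV _ _ _ ih
  -- elements which act trivially on `V1 / X`
  let G1 : Subgroup D :=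
    { carrier := {g | (g : 𝔾) ∈ A' ∧ ∀ v ∈ V1, r.ρ g v - v ∈ X}
      mul_mem' := by
        rintro g h ⟨hg1, hg2⟩ ⟨hh1, hh2⟩
        refine ⟨A'.mul_mem hg1 hh1, fun v hv => ?_⟩
        have h3 : r.ρ (g * h) v - v = (r.ρ g (r.ρ h v) - r.ρ h v) + (r.ρ h v - v) := by
          rw [map_mul, Module.End.mul_apply]
          abel
        rw [h3]
        exact X.add_mem (hg2 _ (hρV h hh1 v hv)) (hh2 v hv)
      one_mem' := by
        refine ⟨A'.one_mem, fun v _ => ?_⟩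
        rw [map_one, Module.End.one_apply, sub_self]
        exact X.zero_mem
      inv_mem' := by
        rintro g ⟨hg1, hg2⟩
        refine ⟨A'.inv_mem hg1, fun v hv => ?_⟩
        have h3 := hg2 _ (hρV g⁻¹ (A'.inv_mem hg1) v hv)
        rw [rho_inv] at h3
        have h4 := X.neg_mem h3
        rwa [neg_sub] at h4 }
  have hG1 : ∀ g : D, (g : 𝔾) ∈ Λ2 → ∀ v ∈ V1, r.ρ g v - v ∈ X := by
    intro g hgΛ
    obtain ⟨⟨hg1, hg2⟩, -⟩ := hgΛ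
    obtain ⟨i, hi⟩ := mem_cy.1 hg1
    set b : D := ⟨a ^ (j * l), D.pow_mem haD _⟩ with hb
    have hb1 : b ∈ G1 := by
      refine ⟨A'.pow_mem haA _, fun v hv => ?_⟩
      rw [← hTpow]
      exact Submodule.mem_sup_left ⟨v, hv, rfl⟩
    have hκ : g * (b ^ i)⁻¹ ∈ G1 := by
      have h1 : (((g * (b ^ i)⁻¹ : D)) : 𝔾) = (g : 𝔾) * ((a ^ (j * l)) ^ i)⁻¹ := by
        push_cast
        rfl
      refine ⟨?_, fun v _ => ?_⟩
      · rw [h1]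
        exact A'.mul_mem hg2 (A'.inv_mem (A'.zpow_mem (A'.pow_mem haA _) i))
      · rw [htriv _ (by rw [h1]; exact hi), sub_self]
        exact X.zero_mem
    have h3 := G1.mul_mem hκ (G1.zpow_mem hb1 i)
    rw [inv_mul_cancel_right] at h3
    exact h3.2
  -- elements which preserve `X`
  let G2 : Subgroup D :=
    { carrier := {g | (∀ v ∈ X, r.ρ g v ∈ X) ∧ ∀ v ∈ X, r.ρ g⁻¹ v ∈ X}
      mul_mem' := by
        rintro g h ⟨hg1, hg2⟩ ⟨hh1, hh2⟩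
        refine ⟨fun v hv => ?_, fun v hv => ?_⟩
        · rw [map_mul, Module.End.mul_apply]
          exact hg1 _ (hh1 v hv)
        · rw [mul_inv_rev, map_mul, Module.End.mul_apply]
          exact hh2 _ (hg2 v hv)
      one_mem' := by
        refine ⟨fun v hv => ?_, fun v hv => ?_⟩
        · rwa [map_one, Module.End.one_apply]
        · rwa [inv_one, map_one, Module.End.one_apply]
      inv_mem' := by
        rintro g ⟨hg1, hg2⟩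
        refine ⟨hg2, ?_⟩
        rw [inv_inv]
        exact hg1 }
  have hG2 : ∀ g : D, (g : 𝔾) ∈ Λ1 → ∀ v ∈ X, r.ρ g v ∈ X := by
    intro g hgΛ
    obtain ⟨⟨hg1, hg2⟩, -⟩ := hgΛ
    obtain ⟨i, hi⟩ := mem_cy.1 hg1
    set b : D := ⟨a ^ j, D.pow_mem haD _⟩ with hb
    have hb1 : b ∈ G2 := by
      refine ⟨fun v hv => ?_, fun v hv => ?_⟩
      · rw [← hTpow]
        exact hXT _ v hv
      · have h4 : r.ρ b⁻¹ v = (T ^ (j * (e - 1))) v := by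
          have h5 : v = r.ρ b ((T ^ (j * (e - 1))) v) := by
            rw [hb, ← hTpow, ← Module.End.mul_apply, ← pow_add]
            have h6 : j + j * (e - 1) = e * j := by
              obtain ⟨e', rfl⟩ := Nat.exists_eq_succ_of_ne_zero he0
              rw [Nat.succ_sub_one, Nat.succ_eq_add_one]
              ring
            rw [h6, pow_mul, hTe, one_pow]
            rfl
          conv_lhs => rw [h5]
          rw [← Module.End.mul_apply, ← map_mul, inv_mul_cancel, map_one]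
          rfl
        rw [h4]
        exact hXT _ v hv
    have hκ : g * (b ^ i)⁻¹ ∈ G2 := by
      have h1 : (((g * (b ^ i)⁻¹ : D)) : 𝔾) = (g : 𝔾) * ((a ^ j) ^ i)⁻¹ := by
        push_cast
        rfl
      refine ⟨fun v hv => ?_, fun v hv => ?_⟩
      · rwa [htriv _ (by rw [h1]; exact hi)]
      · rwa [htriv (g * (b ^ i)⁻¹)⁻¹ (by
          have h7 := Kn.inv_mem hi
          rw [← h1] at h7
          exact h7)]
    have h3 := G2.mul_mem hκ (G2.zpow_mem hb1 i)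
    rw [inv_mul_cancel_right] at h3
    exact h3.1
  -- the subgroup `W1`
  set W1 : Subgroup 𝔾 := r.pre A₁ X with hW1
  have hW1A : W1 ≤ A₁ := fun x hx => hx.1
  have hW1n : ∀ b ∈ Λ1, ∀ x ∈ W1, b * x * b⁻¹ ∈ W1 := by
    rintro b hb x ⟨hx1, hx2, hx3⟩
    have hbD : b ∈ D := hb.2
    refine ⟨hconj b ⟨hb.1.2, hbD⟩ x hx1, r.hKn b hbD x hx2, ?_⟩
    have h1 := hG2 ⟨b, hbD⟩ hb _ hx3
    rw [r.hρ] at h1
    exact h1
  have hΛ21 : Λ2 ≤ Λ1 := by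
    rintro x ⟨⟨hx1, hx2⟩, hx3⟩
    refine ⟨⟨?_, hx2⟩, hx3⟩
    rw [pow_mul] at hx1
    exact cy_le hx1
  have hA₁Λ : A₁ ≤ Λ2 := fun x hx => ⟨⟨le_cy hx.1.1, hx.2⟩, hx.1.2⟩
  -- central elements
  have hcen : ∀ x ∈ Λ2, ∀ z ∈ A₁, ⁅x, z⁆ ∈ W1 := by
    intro x hx z hz
    have hxD : x ∈ D := hx.2
    have hm : ⁅x, z⁆ ∈ A₁ := by
      rw [commutatorElement_def]
      exact A₁.mul_mem (hconj x ⟨hx.1.2, hxD⟩ z hz) (A₁.inv_mem hz)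
    refine ⟨hm, hA₁K hm, ?_⟩
    have h1 : r.π ⟨⁅x, z⁆, hA₁K hm⟩ + r.π ⟨z, hA₁K hz⟩ = r.ρ ⟨x, hxD⟩ (r.π ⟨z, hA₁K hz⟩) := by
      rw [r.hρ, ← r.ha]
      congr 1
      apply Subtype.ext
      show ⁅x, z⁆ * z = x * z * x⁻¹
      rw [commutatorElement_def]
      group
    have h2 : r.π ⟨⁅x, z⁆, hA₁K hm⟩ = r.ρ ⟨x, hxD⟩ (r.π ⟨z, hA₁K hz⟩) - r.π ⟨z, hA₁K hz⟩ := by
      rw [← h1, add_sub_cancel_right]
    rw [h2]
    exact hG1 ⟨x, hxD⟩ hx _ ⟨⟨z, hA₁K hz⟩, hz, rfl⟩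
  have hΛn : ∀ b ∈ Λ1, ∀ x ∈ Λ2, b * x * b⁻¹ ∈ Λ2 := by
    rintro b ⟨⟨hb1, hb2⟩, hb3⟩ x ⟨⟨hx1, hx2⟩, hx3⟩
    exact ⟨⟨cy_conj hb1 hx1, A'.mul_mem (A'.mul_mem hb2 hx2) (A'.inv_mem hb2)⟩,
      D.mul_mem (D.mul_mem hb3 hx3) (D.inv_mem hb3)⟩
  have hcomm : ∀ x ∈ Λ2, ∀ y ∈ Λ2, ⁅x, y⁆ ∈ W1 := by
    intro x hx y hy
    have hN : (W1.subgroupOf Λ2).Normal := ⟨fun q hq m => hW1n m (hΛ21 m.2) q hq⟩
    let mk : Λ2 →* Λ2 ⧸ W1.subgroupOf Λ2 := QuotientGroup.mk' _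
    have hmk : ∀ u v : Λ2, Commute (mk u) (mk v) ↔ ⁅(u : 𝔾), (v : 𝔾)⁆ ∈ W1 := by
      intro u v
      rw [commute_iff_eq, ← map_mul, ← map_mul]
      have h1 : (((u * v) * (v * u)⁻¹ : Λ2) : 𝔾) = ⁅(u : 𝔾), (v : 𝔾)⁆ := by
        rw [commutatorElement_def]
        push_cast
        group
      rw [← mul_inv_eq_one, ← map_inv, ← map_mul]
      rw [← h1]
      exact QuotientGroup.eq_one_iff _
    have key : ∀ u : Λ2, ∃ (κ : Λ2) (i : ℤ), (κ : 𝔾) ∈ A₁ ∧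
        u = κ * (⟨a ^ (j * l), ⟨⟨self_mem_cy, A'.pow_mem haA _⟩, D.pow_mem haD _⟩⟩ : Λ2) ^ i := by
      intro u
      obtain ⟨⟨hu1, hu2⟩, hu3⟩ := u.2
      obtain ⟨i, hi⟩ := mem_cy.1 hu1
      set b : Λ2 := ⟨a ^ (j * l), ⟨⟨self_mem_cy, A'.pow_mem haA _⟩, D.pow_mem haD _⟩⟩
      refine ⟨u * (b ^ i)⁻¹, i, ?_, by rw [inv_mul_cancel_right]⟩
      have h1 : ((u * (b ^ i)⁻¹ : Λ2) : 𝔾) = (u : 𝔾) * ((a ^ (j * l)) ^ i)⁻¹ := by
        push_cast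
        rfl
      rw [h1]
      exact ⟨⟨hi, D.mul_mem hu3 (D.inv_mem (D.zpow_mem (D.pow_mem haD _) i))⟩,
        A'.mul_mem hu2 (A'.inv_mem (A'.zpow_mem (A'.pow_mem haA _) i))⟩
    obtain ⟨κ, i, hκ, hxe⟩ := key ⟨x, hx⟩
    obtain ⟨κ', i', hκ', hye⟩ := key ⟨y, hy⟩
    have h1 : ∀ u : Λ2, Commute (mk u) (mk κ) := fun u => (hmk u κ).2 (hcen u u.2 κ hκ)
    have h2 : ∀ u : Λ2, Commute (mk u) (mk κ') := fun u => (hmk u κ').2 (hcen u u.2 κ' hκ')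
    have h3 : Commute (mk ⟨x, hx⟩) (mk ⟨y, hy⟩) := by
      rw [hxe, hye, map_mul, map_mul, map_zpow, map_zpow]
      refine Commute.mul_left (Commute.mul_right (h2 _) ?_) (Commute.mul_right ?_ ?_)
      · rw [← map_zpow]
        exact (h1 _).symm
      · rw [← map_zpow]
        exact h2 _
      · exact ((Commute.refl _).zpow_zpow _ _)
    exact (hmk _ _).1 h3
  obtain ⟨Γ, iΓ, f, hf⟩ := exists_pow_hom (fun m hm x hx => hW1n m (hΛ21 hm) x hx) hcomm e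
  set W2 : Subgroup 𝔾 := f.ker.map Λ2.subtype with hW2
  have hmem2 : ∀ x (hx : x ∈ Λ2), x ∈ W2 ↔ x ^ e ∈ W1 := by
    intro x hx
    constructor
    · rintro ⟨y, hy, rfl⟩
      exact (hf y).1 hy
    · intro h
      exact ⟨⟨x, hx⟩, (hf _).2 h, rfl⟩
  have hW2Λ : W2 ≤ Λ2 := by
    rintro _ ⟨y, _, rfl⟩
    exact y.2
  have hW12 : W1 ≤ W2 := fun x hx => (hmem2 x (hA₁Λ (hW1A hx))).2 (W1.pow_mem hx e)
  have hWW1 : W ⊓ A' ≤ W1 := by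
    rintro x ⟨hx1, hx2⟩
    have hxK := hWK hx1
    refine ⟨⟨hxK, hx2⟩, hxK, ?_⟩
    rw [(r.h0 _).2 hx1]
    exact X.zero_mem
  have hW1o : IsOpen (W1 : Set 𝔾) := isOpen_mono hWW1 (by
    rw [coe_inf]
    exact hWo.inter hAo)
  have hW1i : W1.index ≠ 0 := fun h =>
    index_inf_ne_zero hWi hAi (Nat.eq_zero_of_zero_dvd (h ▸ index_dvd_of_le hWW1))
  have hW2o : IsOpen (W2 : Set 𝔾) := isOpen_mono hW12 hW1o
  have hW2i : W2.index ≠ 0 := fun h =>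
    hW1i (Nat.eq_zero_of_zero_dvd (h ▸ index_dvd_of_le hW12))
  have hW2r : W2.relIndex Λ2 ≠ 0 := by
    intro h
    have h1 := relIndex_mul_index hW2Λ
    rw [h, zero_mul] at h1
    exact hW2i h1.symm
  have hxe : ∀ x ∈ Λ2, x ^ e ∈ A₁ := by
    rintro x ⟨⟨hx1, hx2⟩, hx3⟩
    obtain ⟨s, hs⟩ := hjl
    refine ⟨⟨?_, D.pow_mem hx3 e⟩, A'.pow_mem hx2 e⟩
    obtain ⟨i, hi⟩ := hx1
    have h1 : (((a ^ (j * l) : 𝔾)) : 𝔾 ⧸ Kn) ^ i = (x : 𝔾 ⧸ Kn) := hi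
    show x ^ e ∈ Kn
    rw [← QuotientGroup.eq_one_iff, QuotientGroup.mk_pow, ← h1, QuotientGroup.mk_pow,
      ← zpow_natCast, ← zpow_natCast, ← zpow_mul, ← zpow_mul]
    have h2 : ((j * l : ℕ) : ℤ) * (i * (e : ℤ)) = (e : ℤ) * (((j * l : ℕ) : ℤ) * i) := by ring
    rw [h2, zpow_mul, zpow_natCast, ← QuotientGroup.mk_pow, (QuotientGroup.eq_one_iff _).2 hae,
      one_zpow]
  have hgens : gens p I Λ2 ⊆ W2 := by
    rintro x ((⟨y, hy, rfl⟩ | ⟨y, hy, z, hz, rfl⟩) | ⟨hx, w, hw⟩)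
    · refine (hmem2 _ (Λ2.pow_mem hy p)).2 ?_
      have h1 : (y ^ p) ^ e = (y ^ e) ^ p := by rw [← pow_mul, ← pow_mul, mul_comm]
      rw [h1]
      have h2 := hxe y hy
      refine ⟨A₁.pow_mem h2 p, hA₁K (A₁.pow_mem h2 p), ?_⟩
      rw [(r.h0 _).2 (hg (Or.inl (Or.inl ⟨y ^ e, hA₁K h2, rfl⟩)))]
      exact X.zero_mem
    · exact hW12 (hcomm y hy z hz)
    · apply hW12
      have hxK : x ∈ Kn := hun w ⟨hw, hx.1.2⟩
      have hxA : x ∈ A₁ := ⟨⟨hxK, hx.2⟩, hx.1.2⟩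
      refine ⟨hxA, hA₁K hxA, ?_⟩
      rw [(r.h0 _).2 (hg (Or.inr ⟨hA₁K hxA, w, hw⟩))]
      exact X.zero_mem
  have hW2n : ∀ b ∈ Λ1, ∀ x ∈ W2, b * x * b⁻¹ ∈ W2 := by
    intro b hb x hx
    refine (hmem2 _ (hΛn b hb x (hW2Λ hx))).2 ?_
    rw [conj_pow]
    exact hW1n b hb _ ((hmem2 x (hW2Λ hx)).1 hx)
  have hgen : ∀ Q : Subgroup 𝔾, W2 ≤ Q → (∀ b ∈ Λ1, ∀ x ∈ Λ2, ⁅b, x⁆ ∈ Q) → Λ2 ≤ Q := by
    intro Q hQ1 hQ2
    have haj : a ^ j ∈ Λ1 := ⟨⟨self_mem_cy, A'.pow_mem haA _⟩, D.pow_mem haD _⟩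
    have hA₁Q : A₁ ≤ Q := by
      intro x hx
      have hxK := hA₁K hx
      obtain ⟨_, ⟨y, hy, rfl⟩, hyX⟩ := exists_step (T := T) (V1 := V1) hek hTe hTV j (j * l)
        (x := r.π ⟨x, hxK⟩) ⟨⟨x, hxK⟩, hx, rfl⟩
      have hc1 : ⁅a ^ j, (y : 𝔾)⁆ ∈ A₁ := by
        rw [commutatorElement_def]
        exact A₁.mul_mem (hconj _ ⟨haj.1.2, haj.2⟩ y hy) (A₁.inv_mem hy)
      have h1 : r.π ⟨⁅a ^ j, (y : 𝔾)⁆, hA₁K hc1⟩ = (T ^ j) (r.π y) - r.π y := by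
        rw [hTpow, r.hρ]
        apply eq_sub_of_add_eq
        rw [← r.ha]
        congr 1
        apply Subtype.ext
        show ⁅a ^ j, (y : 𝔾)⁆ * y = a ^ j * y * (a ^ j)⁻¹
        rw [commutatorElement_def]
        group
      have h2 : x * ⁅a ^ j, (y : 𝔾)⁆⁻¹ ∈ W1 := by
        have h3 : x * ⁅a ^ j, (y : 𝔾)⁆⁻¹ ∈ A₁ := A₁.mul_mem hx (A₁.inv_mem hc1)
        refine ⟨h3, hA₁K h3, ?_⟩
        have h4 : r.π ⟨x * ⁅a ^ j, (y : 𝔾)⁆⁻¹, hA₁K h3⟩ =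
            r.π ⟨x, hxK⟩ - ((T ^ j) (r.π y) - r.π y) := by
          rw [← h1, sub_eq_add_neg, ← r.pi_inv, ← r.ha]
          rfl
        rw [h4]
        exact hyX
      have h3 := Q.mul_mem (hQ1 (hW12 h2)) (hQ2 _ haj _ (hA₁Λ hy))
      rwa [inv_mul_cancel_right] at h3
    intro x hx
    have h1 := hxe x hx
    -- divide by `e`
    obtain ⟨y, hy, hye⟩ : ∃ y : (Kn ⊓ D : Subgroup 𝔾), (y : 𝔾) ∈ A₁ ∧
        (e : ZMod p) • r.π y = r.π ⟨x ^ e, hA₁K h1⟩ := by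
      have h2 : ((e : ZMod p)⁻¹) • r.π ⟨x ^ e, hA₁K h1⟩ ∈ V1 :=
        V1.smul_mem _ ⟨_, h1, rfl⟩
      obtain ⟨y, hy, h3⟩ := h2
      refine ⟨y, hy, ?_⟩
      rw [h3, smul_smul, mul_inv_cancel₀ hek, one_smul]
    have h2 : x * (y : 𝔾)⁻¹ ∈ W2 := by
      have hyΛ := hA₁Λ hy
      have h3 : x * (y : 𝔾)⁻¹ ∈ Λ2 := Λ2.mul_mem hx (Λ2.inv_mem hyΛ)
      have hfx : f ⟨x, hx⟩ = f ⟨y, hyΛ⟩ := by
        -- `x ^ e y ^ (-e) ∈ W1`
        have hfy : ∀ (u v : Λ2), (u : 𝔾) ^ e * ((v : 𝔾) ^ e)⁻¹ ∈ W1 → f u = f v := by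
          intro u v huv
          have h5 : f (u ^ e * (v ^ e)⁻¹) = 1 := by
            rw [hf]
            push_cast
            exact W1.pow_mem huv e
          -- use instead the explicit form
          have hN : (W1.subgroupOf Λ2).Normal := ⟨fun q hq m => hW1n m (hΛ21 m.2) q hq⟩
          have h6 : ((u : 𝔾) * (v : 𝔾)⁻¹) ^ e ∈ W1 := by
            let mk : Λ2 →* Λ2 ⧸ W1.subgroupOf Λ2 := QuotientGroup.mk' _
            have hmk : ∀ z : Λ2, mk z = 1 ↔ (z : 𝔾) ∈ W1 := fun z => QuotientGroup.eq_one_iff _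
            have hcm : Commute (mk u) (mk v⁻¹) := by
              rw [commute_iff_eq, ← map_mul, ← map_mul, ← mul_inv_eq_one, ← map_inv, ← map_mul, hmk]
              have h7 : (((u * v⁻¹) * (v⁻¹ * u)⁻¹ : Λ2) : 𝔾) = ⁅(u : 𝔾), ((v⁻¹ : Λ2) : 𝔾)⁆ := by
                rw [commutatorElement_def]
                push_cast
                group
              rw [h7]
              exact hcomm _ u.2 _ (v⁻¹).2
            have h8 : mk ((u * v⁻¹) ^ e) = 1 := by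
              rw [map_pow, map_mul, hcm.mul_pow, ← map_pow, ← map_pow, ← map_mul, hmk]
              push_cast
              rw [inv_pow]
              exact huv
            have h9 := (hmk _).1 h8
            push_cast at h9
            exact h9
          have h7 : f (u * v⁻¹) = 1 := by
            rw [hf]
            push_cast
            exact h6
          rw [map_mul, map_inv, mul_inv_eq_one] at h7
          exact h7
        apply hfy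
        have hye' : (y : 𝔾) ^ e ∈ A₁ := A₁.pow_mem hy e
        have h6 : x ^ e * ((y : 𝔾) ^ e)⁻¹ ∈ A₁ := A₁.mul_mem h1 (A₁.inv_mem hye')
        refine ⟨h6, hA₁K h6, ?_⟩
        have h7 : r.π ⟨x ^ e * ((y : 𝔾) ^ e)⁻¹, hA₁K h6⟩ =
            r.π ⟨x ^ e, hA₁K h1⟩ - (e : ZMod p) • r.π y := by
          rw [← r.pi_pow, sub_eq_add_neg, ← r.pi_inv, ← r.ha]
          rfl
        rw [h7, hye, sub_self]
        exact X.zero_mem
      refine ⟨⟨x, hx⟩ * (⟨y, hyΛ⟩ : Λ2)⁻¹, ?_, rfl⟩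
      show f _ = 1
      rw [map_mul, map_inv, hfx, mul_inv_cancel]
    have h3 := Q.mul_mem (hQ1 h2) (hA₁Q hy)
    rwa [inv_mul_cancel_right] at h3
  have hfin := hrel W2 hW2Λ hW2o hW2r hgens hW2n hgen
  have hle : W1.relIndex A₁ ≤ W2.relIndex Λ2 := by
    have h1 : W1.relIndex A₁ = W2.relIndex A₁ := by
      rw [← inf_relIndex_right W2 A₁]
      congr 1
      apply le_antisymm
      · exact le_inf hW12 hW1A
      · rintro x ⟨hx1, hx2⟩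
        have h2 := (hmem2 x (hA₁Λ hx2)).1 hx1
        obtain ⟨h3, h4, h5⟩ := h2
        refine ⟨hx2, hA₁K hx2, ?_⟩
        have h6 : r.π ⟨x ^ e, h4⟩ = (e : ZMod p) • r.π ⟨x, hA₁K hx2⟩ := by
          rw [← r.pi_pow]
          rfl
        rw [h6] at h5
        have h7 := X.smul_mem ((e : ZMod p)⁻¹) h5
        rwa [smul_smul, inv_mul_cancel₀ hek, one_smul] at h7
    rw [h1]
    exact relIndex_le_of_le_right hA₁Λ hW2r
  have hcard := r.relIndex_pre hA₁K hXV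
  rw [← hcard]
  exact Nat.mul_le_mul_right _ (hle.trans hfin)

end Pool.Agent.J4.H58.MUR
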